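import Pool.Agent.H670R2.GramPoly
import Pool.Agent.H671R2.PolyAuto
import Pool.Agent.NPC.Dec

/-!
# The algorithm
-/

set_option autoImplicit false
set_option linter.unusedSectionVars false

namespace Pool.Agent.NPC.T703

open Pool.Agent.NPC.H670R2 Pool.Agent.H670R2

/-! ### complexes as lists of faces -/

/-- the number of vertices of the largest faces -/
def tp (L : List (List ℕ)) : ℕ := (L.map List.length).foldr max 0

/-- the faces of the largest dimension -/
def tops (L : List (List ℕ)) : List (List ℕ) := L.filter fun F => decide (F.length = tp L)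

/-- the faces with one vertex less -/
def lows (L : List (List ℕ)) : List (List ℕ) := L.filter fun F => decide (F.length + 1 = tp L)

/-- a list without its entry with index `i` -/
def del (F : List ℕ) (i : ℕ) : List ℕ :=
  ((F.zipIdx.filter fun p => decide (p.2 ≠ i)).map fun p => p.1)

/-- the sign -/
def sg (i : ℕ) : ℤ := if i % 2 = 0 then 1 else -1

/-- the incidence number -/
def incL (F G : List ℕ) : ℤ :=
  ((List.range F.length).map fun i => if del F i = G then sg i else 0).sum

/-- the columns of the boundary matrix -/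
def cols (L : List (List ℕ)) : List (List ℤ) := (tops L).map fun F => (lows L).map fun G => incL F G

/-! ### subsets as masks -/

/-- the selected elements -/
def sel {β : Type} (l : List β) (X : List Bool) : List β :=
  ((l.zip X).filter fun p => p.2).map fun p => p.1

/-- linear independence of the selected columns -/
def indep (M : List (List ℤ)) (X : List Bool) : Bool := decide (gdet (sel M X) ≠ 0)

/-- the greedy basis -/
def gre (M : List (List ℤ)) : List Bool :=
  M.foldl (fun X _ => X ++ [indep M (X ++ [true])]) []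

/-- exchange of two entries -/
def swp (i j : ℕ) (X : List Bool) : List Bool :=
  (List.range X.length).map fun a => X.getD (if a = i then j else if a = j then i else a) false

/-- the numbers `m` and `2 ^ size m` -/
def bs (M : List (List ℤ)) : ℕ := 2 ^ M.length.size

/-- the number of moves -/
def KK (M : List (List ℤ)) : ℕ := 2 * (bs M * bs M)

/-- a move -/
def stpL (M : List (List ℤ)) (R : ℕ) (X : List Bool) : List Bool :=
  if R % 2 = 1 ∧ R / 2 % bs M < M.length ∧ R / 2 / bs M < M.length ∧
    indep M (swp (R / 2 % bs M) (R / 2 / bs M) X) = true then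
    swp (R / 2 % bs M) (R / 2 / bs M) X else X

/-- the number of rare coins -/
def DD (M : List (List ℤ)) : ℕ := M.length * M.length

/-- the number of steps of the chain -/
def tt (M : List (List ℤ)) : ℕ := KK M * (M.length + DD M)

/-- one step with explicit randomness -/
def rstep (M : List (List ℤ)) (p : ℕ × List Bool) : ℕ × List Bool :=
  (p.1 / KK M, stpL M (p.1 % KK M) p.2)

/-- the chain with explicit randomness -/
def runL (M : List (List ℤ)) (t Q : ℕ) (X : List Bool) : List Bool :=
  ((rstep M)^[t] (Q, X)).2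

/-- the mask with number `U` -/
def maskOf (m U : ℕ) : List Bool := (List.range m).map fun a => decide (U / 2 ^ a % 2 = 1)

/-- the table with the indicator function -/
def tab0 (M : List (List ℤ)) (N : ℕ) : List ℕ :=
  (List.range N).map fun U => if maskOf M.length U = gre M then 1 else 0

/-- one step for the table -/
def tabS (M : List (List ℤ)) (N : ℕ) (T : List ℕ) : List ℕ :=
  (List.range N).map fun U =>
    ((List.range (KK M)).map fun R => T.getD (valB (stpL M R (maskOf M.length U))) 0).sum

/-- the table after all steps -/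
def tab (M : List (List ℤ)) (N : ℕ) : List ℕ := (tabS M N)^[tt M] (tab0 M N)

/-- is this mask a basis? -/
def isB (M : List (List ℤ)) (U : ℕ) : Bool :=
  indep M (maskOf M.length U) && decide ((maskOf M.length U).count true = (gre M).count true)

/-- the number of bases -/
def nb (M : List (List ℤ)) (N : ℕ) : ℕ := ((List.range N).filter fun U => isB M U).length

/-- the weights for the correction -/
def wts (M : List (List ℤ)) (N : ℕ) : List ℕ :=
  (List.range N).map fun U => if isB M U = true then
    2 ^ DD M * KK M ^ tt M - nb M N * (2 ^ DD M - 1) * (tab M N).getD U 0 else 0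

/-- choice according to weights: one step -/
def pstep (s : ℕ × Option ℕ) (p : ℕ × ℕ) : ℕ × Option ℕ :=
  if s.2.isSome = true then s else if s.1 < p.1 then (s.1, some p.2) else (s.1 - p.1, none)

/-- choice according to weights -/
def pick (as : List ℕ) (V : ℕ) : Option ℕ := (as.zipIdx.foldl pstep (V, none)).2

/-- the subcomplex -/
def outL (L : List (List ℕ)) (X : List Bool) : List (List ℕ) :=
  L.filter fun F => decide (F.length < tp L ∨ F ∈ sel (tops L) X)

/-- the states: counter, padding, complex -/
abbrev St : Type := ℕ × List Unit × List (List ℕ)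

/-- the number of coins -/
def kk (s : St) : ℕ :=
  let M := cols s.2.2
  if s.2.1.length = 0 then DD M + (1 + 2 * M.length.size) * tt M
  else if s.1 = 0 then M.length + (1 + 2 * M.length.size) * tt M
  else 0

/-- a macro step -/
def FF (s : St) (R : ℕ) : List (List ℕ) ⊕ St :=
  let M := cols s.2.2
  if s.2.1.length = 0 then
    if R % 2 ^ DD M = 2 ^ DD M - 1 then Sum.inr (M.length, [()], s.2.2)
    else Sum.inl (outL s.2.2 (runL M (tt M) (R / 2 ^ DD M) (gre M)))
  else if s.1 = 0 then
    (pick (wts M s.2.1.length) R).elim (Sum.inr s) fun U => Sum.inl (outL s.2.2 (maskOf M.length U))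
  else Sum.inr (s.1 - 1, s.2.1 ++ s.2.1, s.2.2)

/-! ### polynomial time -/

section

variable {α : Type} [TEnc α]

theorem poly_foldr_max {l : α → List ℕ} (hl : Poly l) : Poly (fun a => (l a).foldr max 0) := by
  obtain ⟨r, hr⟩ := hl.sz_le
  refine Poly.foldr (F := fun _ x s => max x s) hl (Poly.const 0) (by fun_prop) (2 * r + 1) ?_
  intro a k _
  have key : ∀ l : List ℕ, l.foldr max 0 = 0 ∨ l.foldr max 0 ∈ l := by
    intro l
    induction l with
    | nil => left; rfl
    | cons b l ih =>
      right
      simp only [List.foldr_cons, List.mem_cons]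
      rcases le_total b (l.foldr max 0) with h | h
      · rw [max_eq_right h]
        rcases ih with h2 | h2
        · left; omega
        · right; exact h2
      · left; exact max_eq_left h
  simp only [Polynomial.eval_add, Polynomial.eval_mul, Polynomial.eval_ofNat, Polynomial.eval_one]
  change sz (((l a).drop k).foldr max 0) ≤ _
  rcases key ((l a).drop k) with h | h
  · rw [h]
    have : sz (0 : ℕ) = 1 := rfl
    omega
  · have h1 := sz_le_of_mem (List.mem_of_mem_drop h)
    have h2 := hr a
    omega

theorem poly_tp {L : α → List (List ℕ)} (hL : Poly L) : Poly (fun a => tp (L a)) := by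
  unfold tp
  exact poly_foldr_max (Poly.map (F := fun _ F => F.length) hL (by fun_prop))

theorem poly_tops {L : α → List (List ℕ)} (hL : Poly L) : Poly (fun a => tops (L a)) := by
  unfold tops
  have := poly_tp hL
  exact Poly.filter (p := fun a F => decide (F.length = tp (L a))) hL
    (Poly.decide_eq (Poly.length (Poly.snd Poly.id)) (this.comp (Poly.fst Poly.id)))

theorem poly_lows {L : α → List (List ℕ)} (hL : Poly L) : Poly (fun a => lows (L a)) := by
  unfold lows
  have := poly_tp hL
  exact Poly.filter (p := fun a F => decide (F.length + 1 = tp (L a))) hL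
    (Poly.decide_eq (Poly.succ (Poly.length (Poly.snd Poly.id))) (this.comp (Poly.fst Poly.id)))

theorem poly_del {F : α → List ℕ} {i : α → ℕ} (hF : Poly F) (hi : Poly i) :
    Poly (fun a => del (F a) (i a)) := by
  unfold del
  refine Poly.map (F := fun _ p => p.1) (Poly.filter (p := fun a q => decide (q.2 ≠ i a))
    (Poly.zipIdx hF) ?_) (by fun_prop)
  exact Poly.decide_not (Poly.decide_eq (by fun_prop) (hi.comp (Poly.fst Poly.id)))

theorem poly_sg {i : α → ℕ} (hi : Poly i) : Poly (fun a => sg (i a)) := by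
  unfold sg
  exact Poly.ite (Poly.decide_eq (Poly.mod hi (Poly.const 2)) (Poly.const 0)) (Poly.const 1)
    (Poly.const (-1))

theorem poly_incL {F G : α → List ℕ} (hF : Poly F) (hG : Poly G) :
    Poly (fun a => incL (F a) (G a)) := by
  unfold incL
  refine Poly.isum (Poly.map (F := fun a i => if del (F a) i = G a then sg i else 0)
    (Poly.range_length hF) ?_)
  exact Poly.ite (Poly.decide_eq (poly_del (hF.comp (Poly.fst Poly.id)) (Poly.snd Poly.id))
    (hG.comp (Poly.fst Poly.id))) (poly_sg (Poly.snd Poly.id)) (Poly.const 0)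

theorem poly_cols {L : α → List (List ℕ)} (hL : Poly L) : Poly (fun a => cols (L a)) := by
  unfold cols
  refine Poly.map (F := fun a F => (lows (L a)).map fun G => incL F G) (poly_tops hL) ?_
  refine Poly.map (F := fun (p : α × List ℕ) G => incL p.2 G)
    ((poly_lows hL).comp (Poly.fst Poly.id)) ?_
  exact poly_incL (Poly.snd (Poly.fst Poly.id)) (Poly.snd Poly.id)

theorem poly_sel {β : Type} [TEnc β] {l : α → List β} {X : α → List Bool} (hl : Poly l)
    (hX : Poly X) : Poly (fun a => sel (l a) (X a)) := by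
  unfold sel
  exact Poly.map (F := fun _ p => p.1) (Poly.filter (p := fun _ q => q.2) (Poly.zip hl hX)
    (by fun_prop)) (by fun_prop)

theorem poly_indep {M : α → List (List ℤ)} {X : α → List Bool} (hM : Poly M) (hX : Poly X) :
    Poly (fun a => indep (M a) (X a)) := by
  unfold indep
  exact Poly.decide_not (Poly.decide_eq (poly_gdet (poly_sel hM hX)) (Poly.const 0))

theorem length_gre_aux (M : List (List ℤ)) (l : List (List ℤ)) : ∀ X : List Bool,
    (l.foldl (fun X _ => X ++ [indep M (X ++ [true])]) X).length = X.length + l.length := by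
  induction l with
  | nil => intro X; rfl
  | cons b l ih => intro X; rw [List.foldl_cons, ih]; simp; omega

theorem length_gre (M : List (List ℤ)) : (gre M).length = M.length := by
  unfold gre
  rw [length_gre_aux]; simp

theorem poly_gre {M : α → List (List ℤ)} (hM : Poly M) : Poly (fun a => gre (M a)) := by
  obtain ⟨r, hr⟩ := hM.sz_le
  unfold gre
  refine Poly.foldl (F := fun a X _ => X ++ [indep (M a) (X ++ [true])]) hM (Poly.const [])
    ?_ (4 * r + 1) ?_
  · have h1 : Poly (fun p : α × List Bool × List ℤ => p.2.1 ++ [true]) := by fun_prop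
    exact Poly.append (Poly.fst (Poly.snd Poly.id))
      (Poly.cons (poly_indep (hM.comp (Poly.fst Poly.id)) h1) (Poly.const []))
  · intro a k _
    have h1 := sz_listBool_le (((M a).take k).foldl (fun X _ => X ++ [indep (M a) (X ++ [true])]) [])
    rw [length_gre_aux] at h1
    have h2 := length_lt_sz (M a)
    have h3 := hr a
    simp only [List.length_nil, List.length_take, zero_add] at h1
    simp only [Polynomial.eval_add, Polynomial.eval_mul, Polynomial.eval_ofNat,
      Polynomial.eval_one]
    have : min k (M a).length ≤ (M a).length := min_le_right _ _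
    omega

theorem poly_swp {i j : α → ℕ} {X : α → List Bool} (hi : Poly i) (hj : Poly j) (hX : Poly X) :
    Poly (fun a => swp (i a) (j a) (X a)) := by
  unfold swp
  refine Poly.map (F := fun a b => (X a).getD (if b = i a then j a else if b = j a then i a else b)
    false) (Poly.range_length hX) ?_
  have hi' : Poly (fun p : α × ℕ => i p.1) := hi.comp (Poly.fst Poly.id)
  have hj' : Poly (fun p : α × ℕ => j p.1) := hj.comp (Poly.fst Poly.id)
  refine Poly.getD (hX.comp (Poly.fst Poly.id)) ?_ (Poly.const false)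
  exact Poly.ite (Poly.decide_eq (Poly.snd Poly.id) hi') hj'
    (Poly.ite (Poly.decide_eq (Poly.snd Poly.id) hj') hi' (Poly.snd Poly.id))

theorem bs_le (M : List (List ℤ)) : bs M ≤ 2 * M.length + 1 := by
  unfold bs
  rcases Nat.eq_zero_or_pos M.length with h | h
  · rw [h]; simp
  · have h1 : 2 ^ (M.length.size - 1) ≤ M.length := by
      have h2 : M.length.size - 1 < M.length.size := by
        have := Nat.size_pos.2 h
        omega
      exact Nat.lt_size.1 h2
    have h3 : M.length.size = (M.length.size - 1) + 1 := by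
      have := Nat.size_pos.2 h
      omega
    rw [h3, pow_succ]
    omega

theorem lt_bs (M : List (List ℤ)) : M.length < bs M := Nat.lt_size_self _

theorem uPoly_size {n : α → ℕ} (hn : UPoly n) : UPoly (fun a => (n a).size) := by
  have h1 : Poly (fun a => ((n a).bits).length) := Poly.length (Poly.natBits hn.toPoly)
  refine UPoly.of_le (h1.congr fun a => (Nat.size_eq_bits_len _)) hn fun a => ?_
  exact Poly.size_le_self _

theorem uPoly_bs {M : α → List (List ℤ)} (hM : Poly M) : UPoly (fun a => bs (M a)) := by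
  have h1 : UPoly (fun a => (M a).length) := UPoly.length hM
  refine UPoly.of_le (Poly.npow (Poly.const 2) (uPoly_size h1))
    (((UPoly.const 2).mul h1).add (UPoly.const 1)) fun a => bs_le _

theorem uPoly_KK {M : α → List (List ℤ)} (hM : Poly M) : UPoly (fun a => KK (M a)) :=
  (UPoly.const 2).mul ((uPoly_bs hM).mul (uPoly_bs hM))

theorem uPoly_DD {M : α → List (List ℤ)} (hM : Poly M) : UPoly (fun a => DD (M a)) :=
  (UPoly.length hM).mul (UPoly.length hM)

theorem uPoly_tt {M : α → List (List ℤ)} (hM : Poly M) : UPoly (fun a => tt (M a)) :=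
  (uPoly_KK hM).mul ((UPoly.length hM).add (uPoly_DD hM))

theorem poly_stpL {M : α → List (List ℤ)} {R : α → ℕ} {X : α → List Bool} (hM : Poly M)
    (hR : Poly R) (hX : Poly X) : Poly (fun a => stpL (M a) (R a) (X a)) := by
  have hb := (uPoly_bs hM).toPoly
  have h2 : Poly (fun a => R a / 2) := Poly.div hR (Poly.const 2)
  have hi : Poly (fun a => R a / 2 % bs (M a)) := Poly.mod h2 hb
  have hj : Poly (fun a => R a / 2 / bs (M a)) := Poly.div h2 hb
  have hs := poly_swp hi hj hX
  have hl : Poly (fun a => (M a).length) := Poly.length hM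
  unfold stpL
  exact Poly.ite (Poly.decide_and (Poly.decide_eq (Poly.mod hR (Poly.const 2)) (Poly.const 1))
    (Poly.decide_and (Poly.decide_lt hi hl) (Poly.decide_and (Poly.decide_lt hj hl)
      (Poly.decide_bool (poly_indep hM hs))))) hs hX

theorem length_swp (i j : ℕ) (X : List Bool) : (swp i j X).length = X.length := by
  unfold swp; simp

theorem length_stpL (M : List (List ℤ)) (R : ℕ) (X : List Bool) :
    (stpL M R X).length = X.length := by
  unfold stpL
  split_ifs
  · exact length_swp _ _ _
  · rfl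

theorem rstep_bound (M : List (List ℤ)) (t Q : ℕ) (X : List Bool) :
    ((rstep M)^[t] (Q, X)).1 ≤ Q ∧ ((rstep M)^[t] (Q, X)).2.length = X.length := by
  induction t with
  | zero => exact ⟨le_rfl, rfl⟩
  | succ t ih =>
    rw [Function.iterate_succ_apply']
    unfold rstep at ih ⊢
    refine ⟨(Nat.div_le_self _ _).trans ih.1, ?_⟩
    rw [length_stpL]
    exact ih.2

theorem poly_runL {M : α → List (List ℤ)} {Q : α → ℕ} {X : α → List Bool} (hM : Poly M)
    (hQ : Poly Q) (hX : Poly X) : Poly (fun a => runL (M a) (tt (M a)) (Q a) (X a)) := by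
  obtain ⟨r, hr⟩ := hQ.sz_le
  obtain ⟨q, hq⟩ := hX.sz_le
  unfold runL
  have h1 : Poly (fun p : α × ℕ × List Bool => rstep (M p.1) p.2) := by
    unfold rstep
    have hM' : Poly (fun p : α × ℕ × List Bool => M p.1) := hM.comp (Poly.fst Poly.id)
    have hK := (uPoly_KK hM').toPoly
    exact Poly.pair (Poly.div (Poly.fst (Poly.snd Poly.id)) hK)
      (poly_stpL hM' (Poly.mod (Poly.fst (Poly.snd Poly.id)) hK) (Poly.snd (Poly.snd Poly.id)))
  have h2 := Poly.iterLen (l := fun a => List.replicate (tt (M a)) ())
    (s := fun a => (Q a, X a)) (F := fun a => rstep (M a)) (uPoly_tt hM) (Poly.pair hQ hX) h1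
    (2 * r + 4 * q + 2) (by
      intro a k _
      obtain ⟨h3, h4⟩ := rstep_bound (M a) k (Q a) (X a)
      have h5 := sz_nat_mono_le h3
      have h6 := sz_listBool_le ((rstep (M a))^[k] (Q a, X a)).2
      rw [h4] at h6
      have h7 := length_lt_sz (X a)
      have h8 := hr a
      have h9 := hq a
      have h10 : sz ((rstep (M a))^[k] (Q a, X a)) = sz ((rstep (M a))^[k] (Q a, X a)).1 +
        sz ((rstep (M a))^[k] (Q a, X a)).2 + 1 := sz_pair _ _
      rw [h10]
      simp only [Polynomial.eval_add, Polynomial.eval_mul, Polynomial.eval_ofNat]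
      omega)
  exact Poly.snd (h2.congr fun a => by rw [List.length_replicate])

theorem poly_maskOf {m U : α → ℕ} (hm : UPoly m) (hU : Poly U) :
    Poly (fun a => maskOf (m a) (U a)) := by
  have h1 : UPoly (fun p : α × ℕ => min p.2 (m p.1)) :=
    UPoly.of_le (Poly.min (Poly.snd Poly.id) (hm.toPoly.comp (Poly.fst Poly.id)))
      (hm.comp (Poly.fst Poly.id)) fun p => min_le_right _ _
  have h2 : Poly (fun a => (List.range (m a)).map fun b =>
      decide (U a / 2 ^ (min b (m a)) % 2 = 1)) := by
    refine Poly.map (F := fun a b => decide (U a / 2 ^ (min b (m a)) % 2 = 1)) (hm.range) ?_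
    exact Poly.decide_eq (Poly.mod (Poly.div (hU.comp (Poly.fst Poly.id))
      (Poly.npow (Poly.const 2) h1)) (Poly.const 2)) (Poly.const 1)
  refine h2.congr fun a => ?_
  unfold maskOf
  apply List.map_congr_left
  intro b hb
  rw [List.mem_range] at hb
  rw [min_eq_left hb.le]

theorem poly_count {X : α → List Bool} (hX : Poly X) : Poly (fun a => (X a).count true) := by
  have h1 : Poly (fun a => ((X a).filter fun b => b).length) :=
    Poly.length (Poly.filter (p := fun _ b => b) hX (Poly.snd Poly.id))
  refine h1.congr fun a => ?_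
  induction X a with
  | nil => rfl
  | cons b l ih => cases b <;> simp [ih]

theorem poly_isB {M : α → List (List ℤ)} {U : α → ℕ} (hM : Poly M) (hU : Poly U) :
    Poly (fun a => isB (M a) (U a)) := by
  have h1 := poly_maskOf (UPoly.length hM) hU
  unfold isB
  exact Poly.and (poly_indep hM h1) (Poly.decide_eq (poly_count h1) (poly_count (poly_gre hM)))

theorem poly_nb {M : α → List (List ℤ)} {N : α → ℕ} (hM : Poly M) (hN : UPoly N) :
    Poly (fun a => nb (M a) (N a)) := by
  unfold nb
  exact Poly.length (Poly.filter (p := fun a U => isB (M a) U) hN.range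
    (poly_isB (hM.comp (Poly.fst Poly.id)) (Poly.snd Poly.id)))

theorem poly_tab0 {M : α → List (List ℤ)} {N : α → ℕ} (hM : Poly M) (hN : UPoly N) :
    Poly (fun a => tab0 (M a) (N a)) := by
  unfold tab0
  refine Poly.map (F := fun a U => if maskOf (M a).length U = gre (M a) then 1 else 0) hN.range ?_
  have hM' : Poly (fun p : α × ℕ => M p.1) := hM.comp (Poly.fst Poly.id)
  exact Poly.ite (Poly.decide_eq (poly_maskOf (UPoly.length hM') (Poly.snd Poly.id)) (poly_gre hM'))
    (Poly.const 1) (Poly.const 0)

theorem poly_tabS {M : α → List (List ℤ)} {N : α → ℕ} {T : α → List ℕ} (hM : Poly M)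
    (hN : UPoly N) (hT : Poly T) : Poly (fun a => tabS (M a) (N a) (T a)) := by
  unfold tabS
  refine Poly.map (F := fun a U => ((List.range (KK (M a))).map fun R =>
    (T a).getD (valB (stpL (M a) R (maskOf (M a).length U))) 0).sum) hN.range ?_
  have hM' : Poly (fun p : α × ℕ => M p.1) := hM.comp (Poly.fst Poly.id)
  refine Poly.sum (Poly.map (F := fun (p : α × ℕ) R => (T p.1).getD (valB (stpL (M p.1) R
    (maskOf (M p.1).length p.2))) 0) (uPoly_KK hM').range ?_)
  have hM'' : Poly (fun q : (α × ℕ) × ℕ => M q.1.1) := hM'.comp (Poly.fst Poly.id)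
  exact Poly.getD (hT.comp (Poly.fst (Poly.fst Poly.id))) (Poly.valBits (poly_stpL hM''
    (Poly.snd Poly.id) (poly_maskOf (UPoly.length hM'') (Poly.snd (Poly.fst Poly.id)))))
      (Poly.const 0)

theorem tab0_le (M : List (List ℤ)) (N : ℕ) : ∀ x ∈ tab0 M N, x ≤ 1 := by
  intro x hx
  unfold tab0 at hx
  rw [List.mem_map] at hx
  obtain ⟨U, _, rfl⟩ := hx
  split_ifs <;> simp

theorem getD_le {l : List ℕ} {B : ℕ} (h : ∀ x ∈ l, x ≤ B) (i : ℕ) : l.getD i 0 ≤ B := by
  rw [List.getD_eq_getElem?_getD]
  cases h1 : l[i]? with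
  | none => simp
  | some x =>
    simp only [Option.getD_some]
    exact h x (List.mem_of_getElem? h1)

theorem tabS_le {M : List (List ℤ)} {N : ℕ} {T : List ℕ} {B : ℕ} (h : ∀ x ∈ T, x ≤ B) :
    ∀ x ∈ tabS M N T, x ≤ KK M * B := by
  intro x hx
  unfold tabS at hx
  rw [List.mem_map] at hx
  obtain ⟨U, _, rfl⟩ := hx
  refine (List.sum_le_card_nsmul _ B ?_).trans ?_
  · intro y hy
    rw [List.mem_map] at hy
    obtain ⟨R, _, rfl⟩ := hy
    exact getD_le h _
  · simp

theorem tab_iter_le (M : List (List ℤ)) (N t : ℕ) :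
    (∀ x ∈ (tabS M N)^[t] (tab0 M N), x ≤ KK M ^ t) ∧
      ((tabS M N)^[t] (tab0 M N)).length = N := by
  induction t with
  | zero =>
    refine ⟨fun x hx => by simpa using tab0_le M N x hx, ?_⟩
    simp [tab0]
  | succ t ih =>
    rw [Function.iterate_succ_apply']
    refine ⟨fun x hx => ?_, by simp [tabS]⟩
    rw [pow_succ, mul_comm]
    exact tabS_le ih.1 x hx

theorem sz_list_nat_le {l : List ℕ} {e b : ℕ} (hb : l.length ≤ b) (h : ∀ x ∈ l, x ≤ 2 ^ e) :
    sz l ≤ b * (4 * (e + 1) + 2) + 1 := by
  have h1 := sz_le_length_mul l (4 * (e + 1) + 1) (by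
    intro x hx
    refine (sz_nat_le x).trans ?_
    have h2 : x.size ≤ e + 1 := by
      rw [Nat.size_le]
      calc x ≤ 2 ^ e := h x hx
        _ < 2 ^ (e + 1) := Nat.pow_lt_pow_right (by norm_num) (by omega)
    omega)
  refine h1.trans ?_
  exact Nat.add_le_add_right (Nat.mul_le_mul_right (4 * (e + 1) + 2) hb) 1

theorem KK_eq (M : List (List ℤ)) : KK M = 2 ^ (1 + 2 * M.length.size) := by
  unfold KK bs
  rw [pow_add, pow_one, two_mul (M.length.size), pow_add]

theorem UPoly.sz_bound {n : α → ℕ} (hn : UPoly n) : ∃ q : Polynomial ℕ, ∀ a, n a ≤ q.eval (sz a) := by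
  obtain ⟨q, hq⟩ := Poly.sz_le hn
  refine ⟨q, fun a => ?_⟩
  have h1 := hq a
  have h2 := length_lt_sz (List.replicate (n a) ())
  rw [List.length_replicate] at h2
  omega

theorem poly_tab {M : α → List (List ℤ)} {N : α → ℕ} (hM : Poly M) (hN : UPoly N) :
    Poly (fun a => tab (M a) (N a)) := by
  have hs : UPoly (fun a => (1 + 2 * (M a).length.size) * tt (M a)) :=
    ((UPoly.const 1).add ((UPoly.const 2).mul (uPoly_size (UPoly.length hM)))).mul (uPoly_tt hM)
  obtain ⟨q, hq⟩ := UPoly.sz_bound hs
  obtain ⟨r, hr⟩ := UPoly.sz_bound hN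
  have h1 := Poly.iterLen (l := fun a => List.replicate (tt (M a)) ())
    (s := fun a => tab0 (M a) (N a)) (F := fun a => tabS (M a) (N a)) (uPoly_tt hM)
    (poly_tab0 hM hN) (poly_tabS (hM.comp (Poly.fst Poly.id)) (hN.comp (Poly.fst Poly.id))
      (Poly.snd Poly.id)) (r * (4 * (q + 1) + 2) + 1) (by
      intro a k hk
      rw [List.length_replicate] at hk
      obtain ⟨h2, h3⟩ := tab_iter_le (M a) (N a) k
      have h4 := sz_list_nat_le (b := r.eval (sz a)) (e := q.eval (sz a)) (by
        rw [h3]; exact hr a) (fun x hx => by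
          refine (h2 x hx).trans ?_
          rw [KK_eq, ← pow_mul]
          refine Nat.pow_le_pow_right (by norm_num) (le_trans ?_ (hq a))
          exact Nat.mul_le_mul_left _ hk)
      simp only [Polynomial.eval_add, Polynomial.eval_mul, Polynomial.eval_ofNat,
        Polynomial.eval_one]
      exact h4)
  exact h1.congr fun a => by rw [List.length_replicate]; rfl

theorem poly_wts {M : α → List (List ℤ)} {N : α → ℕ} (hM : Poly M) (hN : UPoly N) :
    Poly (fun a => wts (M a) (N a)) := by
  unfold wts
  refine Poly.map (F := fun a U => if isB (M a) U = true then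
    2 ^ DD (M a) * KK (M a) ^ tt (M a) - nb (M a) (N a) * (2 ^ DD (M a) - 1) *
      (tab (M a) (N a)).getD U 0 else 0) hN.range ?_
  have hM' : Poly (fun p : α × ℕ => M p.1) := hM.comp (Poly.fst Poly.id)
  have hN' : UPoly (fun p : α × ℕ => N p.1) := hN.comp (Poly.fst Poly.id)
  have hD : Poly (fun p : α × ℕ => 2 ^ DD (M p.1)) := Poly.npow (Poly.const 2) (uPoly_DD hM')
  refine Poly.ite (Poly.decide_bool (poly_isB hM' (Poly.snd Poly.id))) ?_ (Poly.const 0)
  refine Poly.sub (Poly.mul hD (Poly.npow (uPoly_KK hM').toPoly (uPoly_tt hM'))) ?_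
  exact Poly.mul (Poly.mul (poly_nb hM' hN') (Poly.sub hD (Poly.const 1)))
    (Poly.getD (poly_tab hM' hN') (Poly.snd Poly.id) (Poly.const 0))

theorem pstep_bound (l : List (ℕ × ℕ)) : ∀ (s : ℕ × Option ℕ),
    ((l.foldl pstep s).1 ≤ s.1) ∧ ((l.foldl pstep s).2 = s.2 ∨
      ∃ p ∈ l, (l.foldl pstep s).2 = some p.2) := by
  induction l with
  | nil => intro s; exact ⟨le_rfl, Or.inl rfl⟩
  | cons p l ih =>
    intro s
    rw [List.foldl_cons]
    obtain ⟨h1, h2⟩ := ih (pstep s p)
    have h3 : (pstep s p).1 ≤ s.1 ∧ ((pstep s p).2 = s.2 ∨ (pstep s p).2 = some p.2) := by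
      unfold pstep
      split_ifs with h4 h5
      · exact ⟨le_rfl, Or.inl rfl⟩
      · exact ⟨le_rfl, Or.inr rfl⟩
      · refine ⟨Nat.sub_le _ _, Or.inl ?_⟩
        simp only [Option.isSome_iff_ne_none, ne_eq, not_not] at h4
        rw [h4]
    refine ⟨h1.trans h3.1, ?_⟩
    rcases h2 with h2 | ⟨q, hq, h2⟩
    · rcases h3.2 with h4 | h4
      · left; rw [h2, h4]
      · right; exact ⟨p, List.mem_cons_self, by rw [h2, h4]⟩
    · right; exact ⟨q, List.mem_cons_of_mem _ hq, h2⟩

theorem poly_pick {as : α → List ℕ} {V : α → ℕ} (has : Poly as) (hV : Poly V) :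
    Poly (fun a => pick (as a) (V a)) := by
  obtain ⟨r, hr⟩ := (Poly.zipIdx has).sz_le
  obtain ⟨q, hq⟩ := hV.sz_le
  unfold pick
  refine Poly.snd (Poly.foldl (F := fun _ s p => pstep s p) (Poly.zipIdx has)
    (Poly.pair hV (Poly.const none)) ?_ (2 * q + r + 4) ?_)
  · unfold pstep
    have hs : Poly (fun p : α × (ℕ × Option ℕ) × ℕ × ℕ => p.2.1) := Poly.fst (Poly.snd Poly.id)
    have hp1 : Poly (fun p : α × (ℕ × Option ℕ) × ℕ × ℕ => p.2.2.1) :=
      Poly.fst (Poly.snd (Poly.snd Poly.id))
    have hp2 : Poly (fun p : α × (ℕ × Option ℕ) × ℕ × ℕ => p.2.2.2) :=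
      Poly.snd (Poly.snd (Poly.snd Poly.id))
    have hi : Poly (fun p : α × (ℕ × Option ℕ) × ℕ × ℕ => p.2.1.2.isSome) :=
      Poly.isSome (Poly.snd hs)
    exact Poly.ite (Poly.decide_bool hi) hs (Poly.ite (Poly.decide_lt (Poly.fst hs) hp1)
      (Poly.pair (Poly.fst hs) (Poly.some hp2))
      (Poly.pair (Poly.sub (Poly.fst hs) hp1) (Poly.const none)))
  · intro a k _
    obtain ⟨h1, h2⟩ := pstep_bound (((as a).zipIdx).take k) (V a, none)
    have h3 := sz_nat_mono_le h1
    have h4 := hr a
    have h5 := hq a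
    have h6 : sz ((((as a).zipIdx).take k).foldl pstep (V a, none)) =
      sz ((((as a).zipIdx).take k).foldl pstep (V a, none)).1 +
      sz ((((as a).zipIdx).take k).foldl pstep (V a, none)).2 + 1 := sz_pair _ _
    have h7 : sz ((((as a).zipIdx).take k).foldl pstep (V a, none)).2 ≤ r.eval (sz a) + 2 := by
      rcases h2 with h2 | ⟨p, hp, h2⟩
      · rw [h2, sz_none]; omega
      · rw [h2, sz_some]
        have h8 := sz_le_of_mem (List.mem_of_mem_take hp)
        have h9 : sz p = sz p.1 + sz p.2 + 1 := sz_pair _ _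
        omega
    change sz ((((as a).zipIdx).take k).foldl pstep (V a, none)) ≤ _
    rw [h6]
    simp only [Polynomial.eval_add, Polynomial.eval_mul, Polynomial.eval_ofNat]
    simp only at h3
    omega

theorem poly_outL {L : α → List (List ℕ)} {X : α → List Bool} (hL : Poly L) (hX : Poly X) :
    Poly (fun a => outL (L a) (X a)) := by
  unfold outL
  refine Poly.filter (p := fun a F => decide (F.length < tp (L a) ∨ F ∈ sel (tops (L a)) (X a)))
    hL ?_
  exact Poly.decide_or (Poly.decide_lt (Poly.length (Poly.snd Poly.id))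
    ((poly_tp hL).comp (Poly.fst Poly.id)))
    (Poly.dec_mem (Poly.snd Poly.id) ((poly_sel (poly_tops hL) hX).comp (Poly.fst Poly.id)))

theorem uPoly_ite {p : α → Prop} [DecidablePred p] {f g : α → ℕ} (hp : Poly (fun a => decide (p a)))
    (hf : UPoly f) (hg : UPoly g) : UPoly (fun a => if p a then f a else g a) :=
  (Poly.ite hp hf hg).congr fun a => by by_cases h : p a <;> simp [h]

theorem uPoly_kk {s : α → St} (hs : Poly s) : UPoly (fun a => kk (s a)) := by
  unfold kk
  have hM : Poly (fun a => cols (s a).2.2) := poly_cols (Poly.snd (Poly.snd hs))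
  have h1 : UPoly (fun a => (1 + 2 * (cols (s a).2.2).length.size) * tt (cols (s a).2.2)) :=
    ((UPoly.const 1).add ((UPoly.const 2).mul (uPoly_size (UPoly.length hM)))).mul (uPoly_tt hM)
  exact uPoly_ite (Poly.decide_eq (Poly.length (Poly.fst (Poly.snd hs))) (Poly.const 0))
    ((uPoly_DD hM).add h1) (uPoly_ite (Poly.decide_eq (Poly.fst hs) (Poly.const 0))
      ((UPoly.length hM).add h1) (UPoly.const 0))

theorem poly_FF {s : α → St} {R : α → ℕ} (hs : Poly s) (hR : Poly R) :
    Poly (fun a => FF (s a) (R a)) := by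
  unfold FF
  have hL : Poly (fun a => (s a).2.2) := Poly.snd (Poly.snd hs)
  have hM : Poly (fun a => cols (s a).2.2) := poly_cols hL
  have hpad : Poly (fun a => (s a).2.1) := Poly.fst (Poly.snd hs)
  have hD : Poly (fun a => 2 ^ DD (cols (s a).2.2)) := Poly.npow (Poly.const 2) (uPoly_DD hM)
  have h0 : Poly (fun a => decide ((s a).2.1.length = 0)) :=
    Poly.decide_eq (Poly.length hpad) (Poly.const 0)
  refine Poly.ite h0 (Poly.ite (Poly.decide_eq (Poly.mod hR hD) (Poly.sub hD (Poly.const 1)))
    (Poly.inr (Poly.pair (Poly.length hM) (Poly.pair (Poly.const [()]) hL)))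
    (Poly.inl (poly_outL hL (poly_runL hM (Poly.div hR hD) (poly_gre hM))))) ?_
  refine Poly.ite (Poly.decide_eq (Poly.fst hs) (Poly.const 0)) ?_
    (Poly.inr (Poly.pair (Poly.sub (Poly.fst hs) (Poly.const 1))
      (Poly.pair (Poly.append hpad hpad) hL)))
  have hw : Poly (fun a => wts (cols (s a).2.2) (s a).2.1.length) := poly_wts hM (UPoly.length hpad)
  refine Poly.optElim (g := fun a => Sum.inr (s a)) (h := fun a U =>
    Sum.inl (outL (s a).2.2 (maskOf (cols (s a).2.2).length U))) (poly_pick hw hR) (Poly.inr hs) ?_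
  exact Poly.inl (poly_outL (hL.comp (Poly.fst Poly.id))
    (poly_maskOf ((UPoly.length hM).comp (Poly.fst Poly.id)) (Poly.snd Poly.id)))

end

end Pool.Agent.NPC.T703
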