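import Mathlib

/-!
# Simplicial complexes and their spanning trees: definitions
-/

set_option autoImplicit false

namespace Pool.Agent.TH703.SST

/-- A finite simplicial complex, given as the list of all its (nonempty) faces: each face is the
increasing list of its vertices, and the vertices are numbers smaller than the number of faces. -/
structure IsComplex (L : List (List ℕ)) : Prop where
  /-- no face is listed twice -/
  nodup : L.Nodup
  /-- faces are strictly increasing lists -/
  sorted : ∀ F ∈ L, F.Pairwise (· < ·)
  /-- faces are not empty -/
  ne_nil : ∀ F ∈ L, F ≠ []
  /-- nonempty subsets of faces are faces -/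
  down : ∀ F ∈ L, ∀ G : List ℕ, G.Sublist F → G ≠ [] → G ∈ L
  /-- the labels of the vertices are small -/
  small : ∀ F ∈ L, ∀ v ∈ F, v < L.length

/-- `d` is the dimension of the complex: there is a face with `d + 1` vertices, and no larger
face. -/
def IsDim (L : List (List ℕ)) (d : ℕ) : Prop :=
  (∃ F ∈ L, F.length = d + 1) ∧ ∀ F ∈ L, F.length ≤ d + 1

/-- The boundary of a simplex, in the rational vector space with the simplices (increasing lists)
as a basis: the alternating sum of the simplices obtained by leaving out one vertex. -/
noncomputable def bd (F : List ℕ) : List ℕ →₀ ℚ :=
  ∑ i ∈ Finset.range F.length, Finsupp.single (F.eraseIdx i) ((-1) ^ i)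

/-- `Y` is a spanning tree of the `d`-dimensional complex `L`: a subcomplex (listed in the order of
`L`) containing all faces of dimension less than `d`, such that the boundaries of its `d`-faces are a
basis of the space spanned by the boundaries of all `d`-faces of `L`. -/
structure IsTree (L : List (List ℕ)) (d : ℕ) (Y : List (List ℕ)) : Prop where
  /-- it is a part of the complex -/
  sub : Y.Sublist L
  /-- it contains all faces of smaller dimension -/
  skel : ∀ F ∈ L, F.length ≤ d → F ∈ Y
  /-- the boundaries of the `d`-faces are linearly independent -/
  indep : LinearIndepOn ℚ bd {F | F ∈ Y ∧ F.length = d + 1}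
  /-- the boundaries of the `d`-faces span the image of the boundary map -/
  span : Submodule.span ℚ (bd '' {F | F ∈ Y ∧ F.length = d + 1}) =
    Submodule.span ℚ (bd '' {F | F ∈ L ∧ F.length = d + 1})

end Pool.Agent.TH703.SST
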