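import Pool.Agent.TH703.SST.Sampler

/-!
# Exactness and expected time
-/

set_option autoImplicit false
set_option linter.unusedSectionVars false

namespace Pool.Agent.NPC.T703

open Finset Pool.Agent.H670R2 Pool.Agent.TH703.SST Pool.Agent.H591R2
  Pool.Agent.H591R2.CoinMachine Pool.Agent.NPC.R591

theorem eval_mul_le (q : Polynomial ℕ) (x : ℕ) {y : ℕ} (hy : 1 ≤ y) :
    q.eval (x * y) ≤ q.eval x * y ^ q.natDegree := by
  rw [Polynomial.eval_eq_sum_range, Polynomial.eval_eq_sum_range, sum_mul]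
  apply sum_le_sum
  intro i hi
  rw [mem_range] at hi
  rw [mul_pow, ← mul_assoc]
  exact Nat.mul_le_mul_left _ (Nat.pow_le_pow_right hy (by omega))

theorem eval_mono' (q : Polynomial ℕ) {x y : ℕ} (h : x ≤ y) : q.eval x ≤ q.eval y := by
  rw [Polynomial.eval_eq_sum_range, Polynomial.eval_eq_sum_range]
  exact sum_le_sum fun i _ => Nat.mul_le_mul_left _ (Nat.pow_le_pow_left h i)

theorem cols_length_le (L : List (List ℕ)) : (cols L).length ≤ sz L := by
  have h1 : (cols L).length ≤ L.length := by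
    unfold cols tops
    rw [List.length_map]
    exact List.length_filter_le _ _
  have h2 := length_lt_sz L
  omega

/-- the sizes of the states -/
theorem sz_state {L : List (List ℕ)} {s : St} (hs : Inv L s) :
    sz s ≤ 5 * sz L + 5 + 2 * s.2.1.length := by
  obtain ⟨h1, h2⟩ := hs
  have h3 : s.1 ≤ (cols L).length := by
    rcases h2 with h | h
    · omega
    · exact h.2
  have h4 : sz s = sz s.1 + (sz s.2.1 + sz s.2.2 + 1) + 1 := by
    obtain ⟨i, pad, L'⟩ := s
    rw [sz_pair, sz_pair]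
  have h5 : sz s.2.1 ≤ s.2.1.length * (1 + 1) + 1 := sz_le_length_mul _ 1 (fun u _ => by simp)
  have h6 := sz_nat_le s.1
  have h7 : s.1.size ≤ s.1 := Poly.size_le_self _
  have h8 := cols_length_le L
  rw [h1] at h4
  omega

/-- the numerical part of the time bound -/
theorem total_le {m c T : ℕ} :
    ((m : ℝ) + 2 ^ m) * ((T * 2 ^ (m * c) : ℕ) : ℝ) / 2 ^ (m * m) ≤
      ((2 * 2 ^ ((c + 1) * (c + 1)) * T : ℕ) : ℝ) := by
  rw [div_le_iff₀ (by positivity)]
  have h0 : m < 2 ^ m := Nat.lt_two_pow_self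
  have h1 : m * (c + 1) ≤ m * m + (c + 1) * (c + 1) := by
    rcases le_total m (c + 1) with h | h
    · have := Nat.mul_le_mul_right (c + 1) h
      omega
    · have := Nat.mul_le_mul_left m h
      omega
  have h2 : (m + 2 ^ m) * (T * 2 ^ (m * c)) ≤ 2 * 2 ^ ((c + 1) * (c + 1)) * T * 2 ^ (m * m) := by
    calc (m + 2 ^ m) * (T * 2 ^ (m * c)) ≤ (2 * 2 ^ m) * (T * 2 ^ (m * c)) :=
          Nat.mul_le_mul_right _ (by omega)
      _ = 2 * T * 2 ^ (m * (c + 1)) := by ring
      _ ≤ 2 * T * 2 ^ (m * m + (c + 1) * (c + 1)) :=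
          Nat.mul_le_mul_left _ (Nat.pow_le_pow_right (by norm_num) h1)
      _ = 2 * 2 ^ ((c + 1) * (c + 1)) * T * 2 ^ (m * m) := by rw [pow_add]; ring
  exact_mod_cast h2

open Classical in
/-- **The sampler**, for all lists of lists. -/
theorem exists_sampler : ∃ (M : CoinMachine) (P : Polynomial ℕ), ∀ L : List (List ℕ),
    M.expectedTime (bits L) ≤ (P.eval (sz L) : ℕ) ∧
    (∀ (w : List Bool) (c : M.Conf), M.run (M.start (bits L)) w = some c → c.l = none →
      ∃ S ∈ Bs L, M.HaltsWith (bits L) w (outS L S)) ∧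
    (Set.InjOn (outS L) (Bs L : Set (Finset (Fin (cols L).length))) → ∀ S ∈ Bs L,
      outProb M (bits L) (outS L S) = ENNReal.ofReal (1 / (Bs L).card)) := by
  obtain ⟨cmA, pA, hA⟩ := raw poly_start0
  obtain ⟨cmC, pC, hC⟩ := raw poly_body
  set N₀ := max cmA.bd cmC.bd with hN₀
  set cA : Cmd (Fin (N₀ + 2)) := cmA.map (Fin.ofNat (N₀ + 1 + 1)) with hcA
  set cC : Cmd (Fin (N₀ + 2)) := cmC.map (Fin.ofNat (N₀ + 1 + 1)) with hcC
  have hinp : ∀ x : List Bool, (fun i : Fin (N₀ + 1 + 1) => (inp x : ℕ → List Bool) i) =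
      (inp x : Fin (N₀ + 2) → List Bool) := by
    intro x
    funext i
    by_cases hi : i = 0
    · subst hi; simp [inp]
    · have : (i : ℕ) ≠ 0 := fun h => hi (Fin.ext h)
      simp [inp, hi, this]
  have hC' : ∀ x, ∃ t ≤ pC.eval x.length, Run cC (inp x) (inp (body x)) t := by
    intro x
    obtain ⟨t, ht, hrunC⟩ := hC x
    have h1 := hrunC.restrict (n := N₀ + 1) (by omega)
    rw [hinp, hinp] at h1
    exact ⟨t, ht, h1⟩
  obtain ⟨kq, hkq⟩ := UPoly.sz_bound (uPoly_kk (Poly.id (α := St)))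
  set Qc : Polynomial ℕ := 2 * kq + 3 + pC.comp (2 * kq + 1 + Polynomial.X) with hQc
  have hcost : ∀ s : St, 2 * kk s + 3 + pC.eval (2 * kk s + 1 + sz s) ≤ Qc.eval (sz s) := by
    intro s
    have h1 := hkq s
    have h2 := eval_mono' pC (show 2 * kk s + 1 + sz s ≤ 2 * kq.eval (sz s) + 1 + sz s by omega)
    rw [hQc]
    simp only [Polynomial.eval_add, Polynomial.eval_mul, Polynomial.eval_comp, Polynomial.eval_X,
      Polynomial.eval_one, Polynomial.eval_ofNat]
    omega
  set c := Qc.natDegree with hc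
  refine ⟨lvMachine cA cC, pA + 1 + Qc.comp (5 * Polynomial.X + 5) +
    2 * 2 ^ ((c + 1) * (c + 1)) * Qc.comp (5 * Polynomial.X + 7), fun L => ?_⟩
  set m := (cols L).length with hm
  obtain ⟨tA, htA, hrunA⟩ := hA (bits L)
  have hA' : Run cA (inp (bits L)) (inp (head (kk (st0 L)) (bits (st0 L)))) tA := by
    have h1 := hrunA.restrict (n := N₀ + 1) (by omega)
    rw [hinp, hinp, start0_eq] at h1
    exact h1
  set WA := Qc.eval (5 * sz L + 5) with hWA
  set W := Qc.eval (5 * sz L + 7) * 2 ^ (m * c) with hW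
  have hWA' : ∀ s, Inv L s → s.2.1.length = 0 →
      ((2 * kk s + 3 + pC.eval (2 * kk s + 1 + sz s) : ℕ) : ℝ) ≤ WA := by
    intro s hs h0
    have h1 := sz_state hs
    have h2 := (hcost s).trans (eval_mono' Qc (show sz s ≤ 5 * sz L + 5 by omega))
    exact_mod_cast h2
  have hW' : ∀ s, Inv L s → s.2.1.length ≠ 0 →
      ((2 * kk s + 3 + pC.eval (2 * kk s + 1 + sz s) : ℕ) : ℝ) ≤ W := by
    intro s hs h0
    have h1 := sz_state hs
    have h3 : s.2.1.length ≤ 2 ^ m := by
      rcases hs.2 with h | h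
      · exact absurd h.2 h0
      · rw [hm, ← h.1]
        exact Nat.le_mul_of_pos_right _ (by positivity)
    have h4 : 1 ≤ 2 ^ m := Nat.one_le_two_pow
    have h5 : sz s ≤ (5 * sz L + 7) * 2 ^ m := by
      calc sz s ≤ 5 * sz L + 5 + 2 * 2 ^ m := by omega
        _ ≤ (5 * sz L + 5) * 2 ^ m + 2 * 2 ^ m :=
            Nat.add_le_add_right (Nat.le_mul_of_pos_right _ (by positivity)) _
        _ = (5 * sz L + 7) * 2 ^ m := by ring
    have h6 := (hcost s).trans ((eval_mono' Qc h5).trans (eval_mul_le Qc _ h4))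
    rw [← pow_mul] at h6
    exact_mod_cast h6
  have hmain : ∀ {a : ℝ}, 0 ≤ a → ∀ {g : (lvMachine cA cC).Conf → ℝ}, (∀ c, 0 ≤ g c) → ∀ N,
      eG a g N ((lvMachine cA cC).start (bits L)) ≤ a * (tA + 1) +
      (mean (lows L).length (cols L) (fun S => g (haltc cA cC (outS L S))) +
      a * (WA + (m + 2 ^ m) * W / 2 ^ (m * m))) :=
    fun ha _ hg N => sampler_bound hC' L ha hg hWA' hW' (by positivity) (by positivity) hA' N
  have htime : (lvMachine cA cC).expectedTime (bits L) ≤
      ((pA + 1 + Qc.comp (5 * Polynomial.X + 5) +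
    2 * 2 ^ ((c + 1) * (c + 1)) * Qc.comp (5 * Polynomial.X + 7)).eval (sz L) : ℕ) := by
    apply CoinMachine.expectedTime_le
    intro N
    rw [← eG_eq_eT]
    refine (hmain zero_le_one (fun _ => le_rfl) N).trans ?_
    have h1 : mean (lows L).length (cols L) (fun _ => 0) = 0 := by
      unfold mean
      simp
    have h2 := total_le (m := m) (c := c) (T := Qc.eval (5 * sz L + 7))
    rw [h1]
    rw [bits_length] at htA
    simp only [Polynomial.eval_add, Polynomial.eval_mul, Polynomial.eval_comp, Polynomial.eval_X,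
      Polynomial.eval_one, Polynomial.eval_ofNat, Polynomial.eval_pow]
    push_cast
    push_cast at h2
    have h3 : (tA : ℝ) ≤ (pA.eval (sz L) : ℕ) := by exact_mod_cast htA
    rw [hW, hWA]
    push_cast
    linarith
  have hN := BB_card_pos (cols_length L)
  have hN' : (0 : ℝ) < ((Bs L).card : ℝ) := by exact_mod_cast hN
  have hbad : ∀ N, eG 0 (fun c => if ∃ y ∈ (Bs L).image (outS L), Out (lvMachine cA cC) y c
      then 0 else 1) N ((lvMachine cA cC).start (bits L)) ≤ 0 := by
    intro N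
    refine (hmain le_rfl (fun c => by split_ifs <;> norm_num) N).trans ?_
    have h1 : mean (lows L).length (cols L) (fun S => if ∃ y ∈ (Bs L).image (outS L),
        Out (lvMachine cA cC) y (haltc cA cC (outS L S)) then (0 : ℝ) else 1) = 0 := by
      unfold mean
      rw [sum_eq_zero, zero_div]
      intro S hS
      rw [if_pos]
      exact ⟨_, mem_image_of_mem _ hS, out_haltc _⟩
    rw [h1]
    simp
  refine ⟨htime, fun w c hw hc => ?_, fun hinj => ?_⟩
  · obtain ⟨y, hy, hyc⟩ := good_of_bad_le _ hbad hw hc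
    rw [mem_image] at hy
    obtain ⟨S, hS, rfl⟩ := hy
    exact ⟨S, hS, (haltsWith_iff _ _ _).2 ⟨c, hw, hyc⟩⟩
  have hcard : ((Bs L).image (outS L)).card = (Bs L).card := card_image_of_injOn hinj
  have key := exact_of_le (M := lvMachine cA cC) (x := bits L) ((Bs L).image (outS L))
    (q := 1 / (Bs L).card) (by positivity) (by rw [hcard]; field_simp)
    (ne_top_of_le_ne_top (ENNReal.natCast_ne_top _) htime) hbad ?_
  · intro S hS
    exact key _ (mem_image_of_mem _ hS)
  · intro y hy N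
    refine (hmain le_rfl (fun c => by split_ifs <;> norm_num) N).trans ?_
    rw [mem_image] at hy
    obtain ⟨S₀, hS₀, rfl⟩ := hy
    have h1 : mean (lows L).length (cols L) (fun S => if
        Out (lvMachine cA cC) (outS L S₀) (haltc cA cC (outS L S)) then (1 : ℝ) else 0) =
        1 / (Bs L).card := by
      unfold mean
      congr 1
      rw [sum_eq_single S₀]
      · rw [if_pos (out_haltc _)]
      · intro S hS hne
        rw [if_neg]
        rw [out_haltc_iff]
        intro h
        exact hne (hinj hS hS₀ h.symm)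
      · intro h
        exact absurd hS₀ h
    rw [h1]
    simp

end Pool.Agent.NPC.T703
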