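import Pool.Agent.TH703.SST.Lin

/-!
# The law of the chain, and of the correction
-/

set_option autoImplicit false
set_option linter.unusedSectionVars false

namespace Pool.Agent.NPC.T703

open Finset Pool.Agent.H670R2 Pool.Agent.TH703.SST

/-! ### masks and their numbers -/

theorem maskOf_length (m U : ℕ) : (maskOf m U).length = m := by unfold maskOf; simp

theorem maskOf_succ (m U : ℕ) : maskOf (m + 1) U = decide (U % 2 = 1) :: maskOf m (U / 2) := by
  unfold maskOf
  rw [List.range_succ_eq_map, List.map_cons, List.map_map]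
  simp only [pow_zero, Nat.div_one, List.cons.injEq, true_and]
  apply List.map_congr_left
  intro a _
  simp only [Function.comp_apply, pow_succ', Nat.div_div_eq_div_mul]

theorem valB_lt_pow (l : List Bool) : valB l < 2 ^ l.length := by
  induction l with
  | nil => simp
  | cons b l ih =>
    rw [valB_cons, List.length_cons, pow_succ]
    split_ifs <;> omega

theorem maskOf_valB (l : List Bool) : maskOf l.length (valB l) = l := by
  induction l with
  | nil => rfl
  | cons b l ih =>
    rw [List.length_cons, maskOf_succ, valB_cons]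
    have h1 : ((if b = true then 1 else 0) + 2 * valB l) / 2 = valB l := by
      split_ifs <;> omega
    rw [h1, ih]
    congr 1
    cases b <;> simp

theorem valB_maskOf (m : ℕ) : ∀ U, U < 2 ^ m → valB (maskOf m U) = U := by
  induction m with
  | zero => intro U hU; simp at hU; subst hU; rfl
  | succ m ih =>
    intro U hU
    rw [maskOf_succ, valB_cons, ih (U / 2) (by rw [pow_succ] at hU; omega)]
    simp only [decide_eq_true_eq]
    split_ifs <;> omega

/-! ### moves -/

theorem mem_toS_swp {m i j : ℕ} {X : List Bool} (hX : X.length = m) (hi : i < m) (hj : j < m)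
    (a : Fin m) : a ∈ toS m (swp i j X) ↔
      Equiv.swap (⟨i, hi⟩ : Fin m) ⟨j, hj⟩ a ∈ toS m X := by
  subst hX
  unfold toS swp
  simp only [mem_filter, mem_univ, true_and]
  rw [List.getD_eq_getElem?_getD, List.getElem?_map, List.getElem?_range a.2]
  simp only [Option.map_some, Option.getD_some]
  rw [Equiv.swap_apply_def]
  have e1 : (a = (⟨i, hi⟩ : Fin X.length)) ↔ ((a : ℕ) = i) := by rw [Fin.ext_iff]
  have e2 : (a = (⟨j, hj⟩ : Fin X.length)) ↔ ((a : ℕ) = j) := by rw [Fin.ext_iff]
  by_cases h1 : (a : ℕ) = i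
  · rw [if_pos h1, if_pos (e1.2 h1)]
  · rw [if_neg h1, if_neg (fun h => h1 (e1.1 h))]
    by_cases h2 : (a : ℕ) = j
    · rw [if_pos h2, if_pos (e2.2 h2)]
    · rw [if_neg h2, if_neg (fun h => h2 (e2.1 h))]

theorem toS_swp {m i j : ℕ} {X : List Bool} (hX : X.length = m) (hi : i < m) (hj : j < m) :
    toS m (swp i j X) = (toS m X).map (Equiv.swap (⟨i, hi⟩ : Fin m) ⟨j, hj⟩).toEmbedding := by
  ext a
  rw [mem_toS_swp hX hi hj, mem_map_equiv, Equiv.symm_swap]

theorem swp_swp {m i j : ℕ} {X : List Bool} (hX : X.length = m) (hi : i < m) (hj : j < m) :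
    swp i j (swp i j X) = X := by
  apply toS_inj (m := m) (by rw [length_swp, length_swp, hX]) hX
  rw [toS_swp (by rw [length_swp, hX]) hi hj, toS_swp hX hi hj, map_map]
  ext a
  simp only [mem_map, Function.Embedding.trans_apply, Equiv.coe_toEmbedding, Equiv.swap_apply_self,
    exists_eq_right]

variable (q : ℕ) (M : List (List ℤ))

/-- the moves, on sets -/
def stpS (R : ℕ) (S : Finset (Fin M.length)) : Finset (Fin M.length) :=
  toS M.length (stpL M R (toX S))

variable {M}

theorem toS_stpL {X : List Bool} (hX : X.length = M.length) (R : ℕ) :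
    toS M.length (stpL M R X) = stpS M R (toS M.length X) := by
  unfold stpS
  rw [toX_toS hX]

/-- when the move is made -/
def Good (M : List (List ℤ)) (R : ℕ) (X : List Bool) : Prop :=
  R % 2 = 1 ∧ R / 2 % bs M < M.length ∧ R / 2 / bs M < M.length ∧
    indep M (swp (R / 2 % bs M) (R / 2 / bs M) X) = true

theorem stpL_good {R : ℕ} {X : List Bool} (h : Good M R X) :
    stpL M R X = swp (R / 2 % bs M) (R / 2 / bs M) X := if_pos h

theorem stpL_not_good {R : ℕ} {X : List Bool} (h : ¬ Good M R X) : stpL M R X = X := if_neg h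

theorem bs_pos : 0 < bs M := by unfold bs; positivity

variable {q}

theorem chain_BB (hq : ∀ c ∈ M, c.length = q) : Chain (BB q M) (KK M) (stpS M) := by
  classical
  have hlen : ∀ S : Finset (Fin M.length), (toX S).length = M.length := toX_length
  have hindS : ∀ S ∈ BB q M, indep M (toX S) = true := by
    intro S hS
    rw [indep_iff hq, toS_toX]
    exact (mem_BB.1 hS).1
  constructor
  · -- maps
    intro R _ S hS
    unfold stpS
    by_cases hg : Good M R (toX S)
    · rw [stpL_good hg, mem_BB]
      obtain ⟨_, h1, h2, h3⟩ := hg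
      refine ⟨(indep_iff hq _).1 h3, ?_⟩
      rw [toS_swp (hlen S) h1 h2, card_map, toS_toX]
      exact (mem_BB.1 hS).2
    · rw [stpL_not_good hg, toS_toX]
      exact hS
  · -- involutions
    intro R _ S hS
    by_cases hg : Good M R (toX S)
    · have h0 := hg
      obtain ⟨h4, h1, h2, h3⟩ := hg
      unfold stpS
      rw [toX_toS (by rw [length_stpL, hlen]), stpL_good h0]
      have hg' : Good M R (swp (R / 2 % bs M) (R / 2 / bs M) (toX S)) := by
        refine ⟨h4, h1, h2, ?_⟩
        rw [swp_swp (hlen S) h1 h2]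
        exact hindS S hS
      rw [stpL_good hg', swp_swp (hlen S) h1 h2, toS_toX]
    · have : stpS M R S = S := by
        unfold stpS
        rw [stpL_not_good hg, toS_toX]
      rw [this, this]
  · -- laziness
    have h1 : ((range (bs M * bs M)).image fun t => 2 * t) ⊆
        (range (KK M)).filter fun R => ∀ B ∈ BB q M, stpS M R B = B := by
      intro R hR
      rw [mem_image] at hR
      obtain ⟨t, ht, rfl⟩ := hR
      rw [mem_range] at ht
      rw [mem_filter, mem_range]
      refine ⟨by unfold KK; omega, fun B _ => ?_⟩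
      unfold stpS
      rw [stpL_not_good, toS_toX]
      rintro ⟨h4, _⟩
      omega
    have h2 := card_le_card h1
    rw [card_image_of_injective _ (fun a b h => by simpa using h), card_range] at h2
    unfold KK at h2 ⊢
    omega
  · -- richness
    intro B hB C hC hBC
    have hcard : (C \ B).card = 1 := by
      have h1 := card_sdiff_add_card_inter B C
      have h2 := card_sdiff_add_card_inter C B
      rw [inter_comm C B] at h2
      have h3 := (mem_BB.1 hB).2
      have h4 := (mem_BB.1 hC).2
      omega
    obtain ⟨i, hi⟩ := card_eq_one.1 hBC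
    obtain ⟨j, hj⟩ := card_eq_one.1 hcard
    have hiB : i ∈ B ∧ i ∉ C := by
      rw [← mem_sdiff, hi]; exact mem_singleton_self _
    have hjC : j ∈ C ∧ j ∉ B := by
      rw [← mem_sdiff, hj]; exact mem_singleton_self _
    have hij : i ≠ j := fun h => hiB.2 (h ▸ hjC.1)
    have hBi : ∀ a, a ≠ i → a ∈ B → a ∈ C := by
      intro a ha haB
      by_contra hcon
      have : a ∈ B \ C := mem_sdiff.2 ⟨haB, hcon⟩
      rw [hi, mem_singleton] at this
      exact ha this
    have hCj : ∀ a, a ≠ j → a ∈ C → a ∈ B := by
      intro a ha haC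
      by_contra hcon
      have : a ∈ C \ B := mem_sdiff.2 ⟨haC, hcon⟩
      rw [hj, mem_singleton] at this
      exact ha this
    have hswap : B.map (Equiv.swap i j).toEmbedding = C := by
      ext a
      rw [mem_map_equiv, Equiv.symm_swap, Equiv.swap_apply_def]
      by_cases h1 : a = i
      · rw [if_pos h1, h1]
        exact ⟨fun h => absurd h hjC.2, fun h => absurd h hiB.2⟩
      · rw [if_neg h1]
        by_cases h2 : a = j
        · rw [if_pos h2, h2]
          exact ⟨fun _ => hjC.1, fun _ => hiB.1⟩
        · rw [if_neg h2]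
          exact ⟨hBi a h1, hCj a h2⟩
    -- the general statement about a move
    have hmove : ∀ i j : Fin M.length, B.map (Equiv.swap i j).toEmbedding = C →
        1 + 2 * ((i : ℕ) + bs M * j) < KK M ∧ stpS M (1 + 2 * ((i : ℕ) + bs M * j)) B = C := by
      intro i j hC'
      have hib : (i : ℕ) < bs M := lt_trans i.2 (lt_bs M)
      have hjb : (j : ℕ) < bs M := lt_trans j.2 (lt_bs M)
      have e0 : (1 + 2 * ((i : ℕ) + bs M * j)) / 2 = i + bs M * j := by omega
      have e1 : (1 + 2 * ((i : ℕ) + bs M * j)) / 2 % bs M = i := by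
        rw [e0, Nat.add_mul_mod_self_left, Nat.mod_eq_of_lt hib]
      have e2 : (1 + 2 * ((i : ℕ) + bs M * j)) / 2 / bs M = j := by
        rw [e0, Nat.add_mul_div_left _ _ bs_pos, Nat.div_eq_of_lt hib, zero_add]
      constructor
      · unfold KK
        have h1 : (i : ℕ) + bs M * j < bs M * bs M := by
          calc (i : ℕ) + bs M * j < bs M + bs M * j := by omega
            _ = bs M * (j + 1) := by ring
            _ ≤ bs M * bs M := Nat.mul_le_mul_left _ hjb
        omega
      · have h1 : toS M.length (swp i j (toX B)) = C := by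
          rw [toS_swp (hlen B) i.2 j.2, toS_toX]
          exact hC'
        have hg : Good M (1 + 2 * ((i : ℕ) + bs M * j)) (toX B) := by
          unfold Good
          rw [e1, e2]
          refine ⟨by omega, i.2, j.2, ?_⟩
          rw [indep_iff hq, h1]
          exact (mem_BB.1 hC).1
        unfold stpS
        rw [stpL_good hg, e1, e2, h1]
    obtain ⟨a1, a2⟩ := hmove i j hswap
    obtain ⟨b1, b2⟩ := hmove j i (by rw [Equiv.swap_comm]; exact hswap)
    have hne : 1 + 2 * ((i : ℕ) + bs M * j) ≠ 1 + 2 * ((j : ℕ) + bs M * i) := by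
      intro h
      have hib : (i : ℕ) < bs M := lt_trans i.2 (lt_bs M)
      have hjb : (j : ℕ) < bs M := lt_trans j.2 (lt_bs M)
      have h1 : (i : ℕ) + bs M * j = j + bs M * i := by omega
      have h2 : ((i : ℕ) + bs M * j) % bs M = (j + bs M * i) % bs M := by rw [h1]
      rw [Nat.add_mul_mod_self_left, Nat.add_mul_mod_self_left, Nat.mod_eq_of_lt hib,
        Nat.mod_eq_of_lt hjb] at h2
      exact hij (Fin.ext h2)
    rw [← card_pair hne]
    apply card_le_card
    intro R hR
    rw [mem_insert, mem_singleton] at hR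
    rw [mem_filter, mem_range]
    rcases hR with rfl | rfl
    · exact ⟨a1, a2⟩
    · exact ⟨b1, b2⟩

theorem four_le_KK (h : 0 < M.length) : 4 ≤ KK M := by
  have h1 : 2 ≤ bs M := by
    have := lt_bs M
    omega
  unfold KK
  nlinarith

/-! ### counting the random choices -/

theorem sum_split_nat (K N : ℕ) (h : ℕ → ℕ → ℕ) :
    ∑ R ∈ range (K * N), h (R % K) (R / K) = ∑ a ∈ range K, ∑ b ∈ range N, h a b := by
  rw [Finset.sum_comm]
  rcases Nat.eq_zero_or_pos K with rfl | hK
  · simp
  induction N with
  | zero => simp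
  | succ N ih =>
    rw [Nat.mul_succ, Finset.sum_range_add, ih, Finset.sum_range_succ]
    congr 1
    apply Finset.sum_congr rfl
    intro a ha
    rw [Finset.mem_range] at ha
    rw [Nat.mul_add_mod, Nat.mod_eq_of_lt ha, Nat.mul_add_div hK, Nat.div_eq_of_lt ha, add_zero]

theorem sum_split_real (K N : ℕ) (h : ℕ → ℕ → ℝ) :
    ∑ R ∈ range (K * N), h (R % K) (R / K) = ∑ a ∈ range K, ∑ b ∈ range N, h a b := by
  rw [Finset.sum_comm]
  rcases Nat.eq_zero_or_pos K with rfl | hK
  · simp
  induction N with
  | zero => simp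
  | succ N ih =>
    rw [Nat.mul_succ, Finset.sum_range_add, ih, Finset.sum_range_succ]
    congr 1
    apply Finset.sum_congr rfl
    intro a ha
    rw [Finset.mem_range] at ha
    rw [Nat.mul_add_mod, Nat.mod_eq_of_lt ha, Nat.mul_add_div hK, Nat.div_eq_of_lt ha, add_zero]

theorem runL_succ (t Q : ℕ) (X : List Bool) :
    runL M (t + 1) Q X = runL M t (Q / KK M) (stpL M (Q % KK M) X) := by
  unfold runL
  rw [Function.iterate_succ_apply]
  rfl

theorem runL_length (t Q : ℕ) (X : List Bool) : (runL M t Q X).length = X.length :=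
  (rstep_bound M t Q X).2

/-- the law of the chain -/
theorem count_runL (t : ℕ) (g : Finset (Fin M.length) → ℕ) : ∀ X : List Bool, X.length = M.length →
    ∑ Q ∈ range (KK M ^ t), g (toS M.length (runL M t Q X)) =
      (Tn (KK M) (stpS M))^[t] g (toS M.length X) := by
  induction t with
  | zero =>
    intro X _
    simp [runL]
  | succ t ih =>
    intro X hX
    rw [pow_succ, mul_comm, Function.iterate_succ_apply']
    have h1 : ∀ Q, g (toS M.length (runL M (t + 1) Q X)) =
        (fun a b => g (toS M.length (runL M t b (stpL M a X)))) (Q % KK M) (Q / KK M) := by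
      intro Q
      rw [runL_succ]
    rw [sum_congr rfl (fun Q _ => h1 Q),
      sum_split_nat (KK M) (KK M ^ t) (fun a b => g (toS M.length (runL M t b (stpL M a X))))]
    unfold Tn
    apply sum_congr rfl
    intro R _
    rw [ih (stpL M R X) (by rw [length_stpL, hX]), toS_stpL hX]
    rfl

/-- the chain stays on bases -/
theorem runL_mem (hq : ∀ c ∈ M, c.length = q) (t : ℕ) : ∀ (Q : ℕ) (X : List Bool),
    X.length = M.length → toS M.length X ∈ BB q M → toS M.length (runL M t Q X) ∈ BB q M := by
  induction t with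
  | zero => intro Q X _ hX; exact hX
  | succ t ih =>
    intro Q X hl hX
    rw [runL_succ]
    apply ih
    · rw [length_stpL, hl]
    · rw [toS_stpL hl]
      apply (chain_BB hq).maps _ _ _ hX
      apply Nat.mod_lt
      unfold KK
      have := bs_pos (M := M)
      positivity

theorem list_sum_range (K : ℕ) (f : ℕ → ℕ) :
    ((List.range K).map f).sum = ∑ R ∈ range K, f R := by
  induction K with
  | zero => rfl
  | succ K ih => rw [List.range_succ, List.map_append, List.sum_append, ih, sum_range_succ]; simp

theorem getD_map_range {N U : ℕ} (hU : U < N) (f : ℕ → ℕ) :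
    ((List.range N).map f).getD U 0 = f U := by
  rw [List.getD_eq_getElem?_getD, List.getElem?_map, List.getElem?_range hU]
  rfl

/-- the table -/
theorem tab_spec (t : ℕ) : ∀ U < 2 ^ M.length,
    ((tabS M (2 ^ M.length))^[t] (tab0 M (2 ^ M.length))).getD U 0 =
      (Tn (KK M) (stpS M))^[t] (ind (toS M.length (gre M))) (toS M.length (maskOf M.length U)) := by
  induction t with
  | zero =>
    intro U hU
    simp only [Function.iterate_zero, id_eq]
    unfold tab0 ind
    rw [getD_map_range hU]
    by_cases h : maskOf M.length U = gre M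
    · rw [if_pos h, if_pos (by rw [h])]
    · rw [if_neg h, if_neg]
      intro h2
      exact h (toS_inj (maskOf_length _ _) (length_gre M) h2)
  | succ t ih =>
    intro U hU
    rw [Function.iterate_succ_apply', Function.iterate_succ_apply']
    conv_lhs => rw [tabS]
    rw [getD_map_range hU, list_sum_range]
    conv_rhs => rw [Tn]
    apply sum_congr rfl
    intro R _
    have h1 : (stpL M R (maskOf M.length U)).length = M.length := by
      rw [length_stpL, maskOf_length]
    have h2 := valB_lt_pow (stpL M R (maskOf M.length U))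
    have h3 := maskOf_valB (stpL M R (maskOf M.length U))
    rw [h1] at h2 h3
    rw [ih _ h2, h3, toS_stpL (maskOf_length _ _)]

/-- the number of ways to go to the greedy basis -/
def wy (M : List (List ℤ)) (S : Finset (Fin M.length)) : ℕ :=
  (Tn (KK M) (stpS M))^[tt M] (ind (toS M.length (gre M))) S

theorem tab_eq {U : ℕ} (hU : U < 2 ^ M.length) :
    (tab M (2 ^ M.length)).getD U 0 = wy M (toS M.length (maskOf M.length U)) :=
  tab_spec (tt M) U hU

theorem isB_iff (hq : ∀ c ∈ M, c.length = q) (U : ℕ) :
    isB M U = true ↔ toS M.length (maskOf M.length U) ∈ BB q M := by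
  unfold isB
  rw [Bool.and_eq_true, indep_iff hq, decide_eq_true_iff, mem_BB,
    count_eq_card (maskOf_length M.length U)]
  rfl

/-- Sums over masks are sums over sets. -/
theorem sum_masks (hq : ∀ c ∈ M, c.length = q) (h : Finset (Fin M.length) → ℕ) :
    ∑ U ∈ range (2 ^ M.length), (if isB M U = true then h (toS M.length (maskOf M.length U)) else 0)
      = ∑ S ∈ BB q M, h S := by
  rw [← sum_filter]
  refine sum_bij' (fun U _ => toS M.length (maskOf M.length U)) (fun S _ => valB (toX S)) ?_ ?_ ?_
    ?_ ?_
  · intro U hU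
    rw [mem_filter, isB_iff hq] at hU
    exact hU.2
  · intro S hS
    rw [mem_filter, mem_range, isB_iff hq]
    have h2 := valB_lt_pow (toX S)
    have h3 := maskOf_valB (toX S)
    rw [toX_length] at h2 h3
    rw [h3, toS_toX]
    exact ⟨h2, hS⟩
  · intro U hU
    rw [mem_filter, mem_range] at hU
    rw [toX_toS (maskOf_length _ _), valB_maskOf _ _ hU.1]
  · intro S _
    have h3 := maskOf_valB (toX S)
    rw [toX_length] at h3
    rw [h3, toS_toX]
  · intro U _
    rfl

/-- Sums over masks are sums over sets, for real numbers. -/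
theorem sum_masks_real (hq : ∀ c ∈ M, c.length = q) (h : Finset (Fin M.length) → ℝ) :
    ∑ U ∈ range (2 ^ M.length), (if isB M U = true then h (toS M.length (maskOf M.length U)) else 0)
      = ∑ S ∈ BB q M, h S := by
  rw [← sum_filter]
  refine sum_bij' (fun U _ => toS M.length (maskOf M.length U)) (fun S _ => valB (toX S)) ?_ ?_ ?_
    ?_ ?_
  · intro U hU
    rw [mem_filter, isB_iff hq] at hU
    exact hU.2
  · intro S hS
    rw [mem_filter, mem_range, isB_iff hq]
    have h2 := valB_lt_pow (toX S)
    have h3 := maskOf_valB (toX S)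
    rw [toX_length] at h2 h3
    rw [h3, toS_toX]
    exact ⟨h2, hS⟩
  · intro U hU
    rw [mem_filter, mem_range] at hU
    rw [toX_toS (maskOf_length _ _), valB_maskOf _ _ hU.1]
  · intro S _
    have h3 := maskOf_valB (toX S)
    rw [toX_length] at h3
    rw [h3, toS_toX]
  · intro U _
    rfl

theorem nb_eq (hq : ∀ c ∈ M, c.length = q) : nb M (2 ^ M.length) = (BB q M).card := by
  have h1 := sum_masks hq (fun _ => 1)
  rw [sum_const, smul_eq_mul, mul_one] at h1
  rw [← h1]
  unfold nb
  have : ∀ (N : ℕ) (p : ℕ → Bool), ((List.range N).filter fun U => p U).length =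
      ∑ U ∈ range N, if p U = true then 1 else 0 := by
    intro N p
    induction N with
    | zero => rfl
    | succ N ih =>
      rw [List.range_succ, List.filter_append, List.length_append, ih, sum_range_succ]
      congr 1
      cases h : p N <;> simp [h]
  exact this _ _

theorem BB_card_le : (BB q M).card ≤ 2 ^ M.length := by
  calc (BB q M).card ≤ (univ : Finset (Finset (Fin M.length))).card := card_le_card (subset_univ _)
    _ = 2 ^ M.length := by simp

/-- the weights, as a function -/
noncomputable def aw (q : ℕ) (M : List (List ℤ)) (S : Finset (Fin M.length)) : ℕ :=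
  2 ^ DD M * KK M ^ tt M - (BB q M).card * (2 ^ DD M - 1) * wy M S

theorem wts_getD (hq : ∀ c ∈ M, c.length = q) {U : ℕ} (hU : U < 2 ^ M.length) :
    (wts M (2 ^ M.length)).getD U 0 =
      if isB M U = true then aw q M (toS M.length (maskOf M.length U)) else 0 := by
  unfold wts
  rw [getD_map_range hU, nb_eq hq, tab_eq hU]
  rfl

theorem wts_sum (hq : ∀ c ∈ M, c.length = q) :
    (wts M (2 ^ M.length)).sum = ∑ S ∈ BB q M, aw q M S := by
  unfold wts
  rw [list_sum_range, ← sum_masks hq]
  apply sum_congr rfl
  intro U hU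
  rw [mem_range] at hU
  rw [nb_eq hq, tab_eq hU]
  rfl

/-- the truncated subtraction is a subtraction -/
theorem aw_le (hq : ∀ c ∈ M, c.length = q) {S : Finset (Fin M.length)} (hS : S ∈ BB q M) :
    (BB q M).card * (2 ^ DD M - 1) * wy M S ≤ 2 ^ DD M * KK M ^ tt M := by
  rcases Nat.eq_zero_or_pos M.length with h0 | h0
  · have : DD M = 0 := by unfold DD; rw [h0]
    rw [this]; simp
  · exact (chain_BB hq).final (bases_BB q M) (four_le_KK h0) (gre_mem hq) hS M.length (DD M)
      BB_card_le

theorem aw_real (hq : ∀ c ∈ M, c.length = q) {S : Finset (Fin M.length)} (hS : S ∈ BB q M) :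
    (aw q M S : ℝ) = 2 ^ DD M * (KK M : ℝ) ^ tt M - (BB q M).card * (2 ^ DD M - 1) * wy M S := by
  unfold aw
  rw [Nat.cast_sub (aw_le hq hS)]
  push_cast [Nat.cast_sub (Nat.one_le_two_pow (n := DD M))]
  ring

/-- the total number of ways -/
theorem sum_wy (hq : ∀ c ∈ M, c.length = q) :
    ∑ S ∈ BB q M, (wy M S : ℝ) = (KK M : ℝ) ^ tt M := by
  have hch := chain_BB hq
  unfold wy
  have h1 : ∀ t, ∑ S ∈ BB q M, (((Tn (KK M) (stpS M))^[t] (ind (toS M.length (gre M))) S : ℕ) : ℝ)
      = (KK M : ℝ) ^ t := by
    intro t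
    simp only [Tn_cast]
    induction t with
    | zero =>
      simp only [Function.iterate_zero, id_eq, pow_zero]
      unfold ind
      simp [gre_mem hq]
    | succ t ih =>
      simp only [Function.iterate_succ_apply']
      rw [hch.sum_Tr, ih]; ring
  exact h1 _

theorem sum_aw (hq : ∀ c ∈ M, c.length = q) :
    ∑ S ∈ BB q M, (aw q M S : ℝ) = (BB q M).card * (KK M : ℝ) ^ tt M := by
  rw [sum_congr rfl (fun S hS => aw_real hq hS), sum_sub_distrib, sum_const, nsmul_eq_mul,
    ← mul_sum, sum_wy hq]
  ring

theorem sum_aw_nat (hq : ∀ c ∈ M, c.length = q) :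
    ∑ S ∈ BB q M, aw q M S = (BB q M).card * KK M ^ tt M := by
  have := sum_aw hq
  exact_mod_cast this

/-! ### choice according to weights -/

theorem foldl_pstep_some (l : List (ℕ × ℕ)) (V : ℕ) (i : ℕ) :
    l.foldl pstep (V, some i) = (V, some i) := by
  induction l with
  | nil => rfl
  | cons p l ih => rw [List.foldl_cons]; simpa [pstep] using ih

/-- The law of the choice: a sum over all random numbers below `B`. -/
theorem pick_sum (h : Option ℕ → ℝ) (as : List ℕ) : ∀ (n B : ℕ), as.sum ≤ B →
    ∑ V ∈ range B, h ((as.zipIdx n).foldl pstep (V, none)).2 =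
      ∑ U ∈ range as.length, (as.getD U 0 : ℝ) * h (some (n + U)) + ((B : ℝ) - as.sum) * h none := by
  induction as with
  | nil => intro n B _; simp
  | cons a as ih =>
    intro n B hB
    rw [List.sum_cons] at hB
    obtain ⟨B', rfl⟩ : ∃ B', B = a + B' := ⟨B - a, by omega⟩
    rw [sum_range_add, List.zipIdx_cons]
    have h1 : ∀ V ∈ range a, h (((a, n) :: as.zipIdx (n + 1)).foldl pstep (V, none)).2 =
        h (some n) := by
      intro V hV
      rw [mem_range] at hV
      rw [List.foldl_cons]
      have : pstep (V, none) (a, n) = (V, some n) := by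
        unfold pstep
        simp [hV]
      rw [this, foldl_pstep_some]
    have h2 : ∀ V ∈ range B', h (((a, n) :: as.zipIdx (n + 1)).foldl pstep (a + V, none)).2 =
        h ((as.zipIdx (n + 1)).foldl pstep (V, none)).2 := by
      intro V _
      rw [List.foldl_cons]
      have : pstep (a + V, none) (a, n) = (V, none) := by
        unfold pstep
        simp
      rw [this]
    rw [sum_congr rfl h1, sum_congr rfl h2, ih (n + 1) B' (by omega), sum_const, card_range,
      nsmul_eq_mul, List.length_cons, sum_range_succ']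
    have h3 : ∀ U ∈ range as.length, ((a :: as).getD (U + 1) 0 : ℝ) * h (some (n + (U + 1))) =
        (as.getD U 0 : ℝ) * h (some (n + 1 + U)) := by
      intro U _
      rw [List.getD_cons_succ, show n + (U + 1) = n + 1 + U by ring]
    rw [sum_congr rfl h3, List.getD_cons_zero, List.sum_cons]
    push_cast
    ring

theorem pick_sum' (h : Option ℕ → ℝ) (as : List ℕ) (B : ℕ) (hB : as.sum ≤ B) :
    ∑ V ∈ range B, h (pick as V) =
      ∑ U ∈ range as.length, (as.getD U 0 : ℝ) * h (some U) + ((B : ℝ) - as.sum) * h none := by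
  have := pick_sum h as 0 B hB
  simp only [zero_add] at this
  exact this

/-! ### the two kinds of macro steps -/

/-- The law of the chain, started at the greedy basis. -/
theorem sum_runL (hq : ∀ c ∈ M, c.length = q) (G : Finset (Fin M.length) → ℝ) :
    ∑ Q ∈ range (KK M ^ tt M), G (toS M.length (runL M (tt M) Q (gre M))) =
      ∑ S ∈ BB q M, (wy M S : ℝ) * G S := by
  classical
  have h1 : ∀ S ∈ BB q M, (((range (KK M ^ tt M)).filter fun Q =>
      toS M.length (runL M (tt M) Q (gre M)) = S).card : ℝ) = wy M S := by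
    intro S hS
    have h2 := count_runL (M := M) (tt M) (ind S) (gre M) (length_gre M)
    rw [card_filter]
    unfold wy
    rw [(chain_BB hq).ways_comm (gre_mem hq) hS (tt M), ← h2]
    rfl
  rw [← sum_fiberwise_of_maps_to (g := fun Q => toS M.length (runL M (tt M) Q (gre M)))
    (t := BB q M) (fun Q _ => runL_mem hq _ _ _ (length_gre M) (gre_mem hq))]
  apply sum_congr rfl
  intro S hS
  rw [← h1 S hS, ← nsmul_eq_mul, ← sum_const]
  apply sum_congr rfl
  intro Q hQ
  rw [mem_filter] at hQ
  rw [hQ.2]

/-- the average over all bases -/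
noncomputable def mean (q : ℕ) (M : List (List ℤ)) (G : Finset (Fin M.length) → ℝ) : ℝ :=
  (∑ S ∈ BB q M, G S) / (BB q M).card

/-- the average for the correction -/
noncomputable def rho (q : ℕ) (M : List (List ℤ)) (G : Finset (Fin M.length) → ℝ) : ℝ :=
  (∑ S ∈ BB q M, (aw q M S : ℝ) * G S) / ((BB q M).card * (KK M : ℝ) ^ tt M)

theorem KK_pos : 0 < KK M := by
  unfold KK
  have := bs_pos (M := M)
  positivity

theorem BB_card_pos (hq : ∀ c ∈ M, c.length = q) : 0 < (BB q M).card :=
  card_pos.2 ⟨_, gre_mem hq⟩

/-- The first phase: the algorithm stops with the last basis of the chain, or starts the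
correction. -/
theorem phaseA (hq : ∀ c ∈ M, c.length = q) (G : Finset (Fin M.length) → ℝ) (Z : ℝ) :
    ∑ R ∈ range (2 ^ (DD M + (1 + 2 * M.length.size) * tt M)),
      (if R % 2 ^ DD M = 2 ^ DD M - 1 then rho q M G + Z else
        G (toS M.length (runL M (tt M) (R / 2 ^ DD M) (gre M)))) =
      2 ^ (DD M + (1 + 2 * M.length.size) * tt M) * (mean q M G + Z / 2 ^ DD M) := by
  have hD : 0 < 2 ^ DD M := by positivity
  have e1 : 2 ^ (DD M + (1 + 2 * M.length.size) * tt M) = 2 ^ DD M * KK M ^ tt M := by
    rw [KK_eq, pow_add, pow_mul]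
  have e2 : (2 : ℝ) ^ (DD M + (1 + 2 * M.length.size) * tt M) = 2 ^ DD M * (KK M : ℝ) ^ tt M := by
    exact_mod_cast e1
  rw [e1, e2, sum_split_real (2 ^ DD M) (KK M ^ tt M) (fun a b => if a = 2 ^ DD M - 1 then
    rho q M G + Z else G (toS M.length (runL M (tt M) b (gre M))))]
  have h1 : ∀ a ∈ range (2 ^ DD M), (∑ b ∈ range (KK M ^ tt M), if a = 2 ^ DD M - 1 then
      rho q M G + Z else G (toS M.length (runL M (tt M) b (gre M)))) =
      (∑ S ∈ BB q M, (wy M S : ℝ) * G S) + if a = 2 ^ DD M - 1 then
      ((KK M : ℝ) ^ tt M * (rho q M G + Z) - ∑ S ∈ BB q M, (wy M S : ℝ) * G S) else 0 := by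
    intro a _
    split_ifs with h
    · rw [sum_const, card_range, nsmul_eq_mul]
      push_cast
      ring
    · rw [add_zero, sum_runL hq]
  rw [sum_congr rfl h1, sum_add_distrib, sum_const, card_range, nsmul_eq_mul, sum_ite_eq',
    if_pos (mem_range.2 (by omega))]
  have hN : ((BB q M).card : ℝ) ≠ 0 := by
    have := BB_card_pos hq
    positivity
  have hK : (KK M : ℝ) ≠ 0 := by
    have := KK_pos (M := M)
    positivity
  have h2 : (∑ S ∈ BB q M, (aw q M S : ℝ) * G S) =
      2 ^ DD M * (KK M : ℝ) ^ tt M * (∑ S ∈ BB q M, G S) -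
        (BB q M).card * (2 ^ DD M - 1) * ∑ S ∈ BB q M, (wy M S : ℝ) * G S := by
    rw [mul_sum, mul_sum, ← sum_sub_distrib]
    apply sum_congr rfl
    intro S hS
    rw [aw_real hq hS]
    ring
  unfold rho mean
  rw [h2]
  push_cast
  field_simp
  ring

/-- The correction: the algorithm stops with a basis, or repeats. -/
theorem phaseC (hq : ∀ c ∈ M, c.length = q) (G : Finset (Fin M.length) → ℝ) (Z : ℝ) :
    ∑ R ∈ range (2 ^ (M.length + (1 + 2 * M.length.size) * tt M)),
      ((pick (wts M (2 ^ M.length)) R).elim (rho q M G + Z) fun U =>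
        G (toS M.length (maskOf M.length U))) =
      2 ^ (M.length + (1 + 2 * M.length.size) * tt M) *
        (rho q M G + (1 - (BB q M).card / 2 ^ M.length) * Z) := by
  have e1 : 2 ^ (M.length + (1 + 2 * M.length.size) * tt M) = 2 ^ M.length * KK M ^ tt M := by
    rw [KK_eq, pow_add, pow_mul]
  have e2 : (2 : ℝ) ^ (M.length + (1 + 2 * M.length.size) * tt M) =
      2 ^ M.length * (KK M : ℝ) ^ tt M := by
    exact_mod_cast e1
  have h0 : (wts M (2 ^ M.length)).sum = (BB q M).card * KK M ^ tt M := by
    rw [wts_sum hq, sum_aw_nat hq]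
  have hlen : (wts M (2 ^ M.length)).length = 2 ^ M.length := by unfold wts; simp
  rw [e1, e2, pick_sum' (fun o => o.elim (rho q M G + Z) fun U =>
        G (toS M.length (maskOf M.length U))) _ _
    (by rw [h0]; exact Nat.mul_le_mul_right _ BB_card_le), h0, hlen]
  simp only [Option.elim_some, Option.elim_none]
  have h1 : ∑ U ∈ range (2 ^ M.length), ((wts M (2 ^ M.length)).getD U 0 : ℝ) *
      G (toS M.length (maskOf M.length U)) =
      ∑ S ∈ BB q M, (aw q M S : ℝ) * G S := by
    rw [← sum_masks_real hq (fun S => (aw q M S : ℝ) * G S)]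
    apply sum_congr rfl
    intro U hU
    rw [mem_range] at hU
    rw [wts_getD hq hU]
    split_ifs <;> simp
  rw [h1]
  have hN : ((BB q M).card : ℝ) ≠ 0 := by
    have := BB_card_pos hq
    positivity
  have hK : (KK M : ℝ) ≠ 0 := by
    have := KK_pos (M := M)
    positivity
  unfold rho
  push_cast
  field_simp
  ring

end Pool.Agent.NPC.T703
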