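import Pool.Agent.TH703.SST.Walk4

/-!
# Convergence of a basis exchange chain, in terms of numbers of paths
-/

set_option autoImplicit false
set_option linter.unusedSectionVars false

namespace Pool.Agent.TH703.SST

open Finset

variable {α : Type} [Fintype α] [DecidableEq α]

/-- A chain on the bases with `K` equally likely moves, all of them involutions. -/
structure Chain (𝓑 : Finset (Finset α)) (K : ℕ) (stp : ℕ → Finset α → Finset α) : Prop where
  /-- moves go from bases to bases -/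
  maps : ∀ R < K, ∀ B ∈ 𝓑, stp R B ∈ 𝓑
  /-- moves are involutions -/
  inv : ∀ R < K, ∀ B ∈ 𝓑, stp R (stp R B) = B
  /-- at least one half of the moves do nothing -/
  lzy : K ≤ 2 * ((range K).filter fun R => ∀ B ∈ 𝓑, stp R B = B).card
  /-- all exchanges occur twice -/
  rich : ∀ B ∈ 𝓑, ∀ C ∈ 𝓑, (B \ C).card = 1 → 2 ≤ ((range K).filter fun R => stp R B = C).card

/-- the transfer operator, for natural numbers -/
def Tn (K : ℕ) (stp : ℕ → Finset α → Finset α) (g : Finset α → ℕ) (B : Finset α) : ℕ :=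
  ∑ R ∈ range K, g (stp R B)

/-- the transfer operator -/
noncomputable def Tr (K : ℕ) (stp : ℕ → Finset α → Finset α) (g : Finset α → ℝ) (B : Finset α) :
    ℝ := ∑ R ∈ range K, g (stp R B)

section

variable {𝓑 : Finset (Finset α)} {K : ℕ} {stp : ℕ → Finset α → Finset α}

theorem Chain.sum_stp (h : Chain 𝓑 K stp) {R : ℕ} (hR : R < K) (g : Finset α → ℝ) :
    ∑ B ∈ 𝓑, g (stp R B) = ∑ B ∈ 𝓑, g B := by
  refine sum_bij' (fun B _ => stp R B) (fun B _ => stp R B) (fun B hB => h.maps R hR B hB)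
    (fun B hB => h.maps R hR B hB) (fun B hB => h.inv R hR B hB) (fun B hB => h.inv R hR B hB)
    (fun B _ => rfl)

theorem Chain.inner_stp (h : Chain 𝓑 K stp) {R : ℕ} (hR : R < K) (f g : Finset α → ℝ) :
    ∑ B ∈ 𝓑, f B * g (stp R B) = ∑ B ∈ 𝓑, f (stp R B) * g B := by
  rw [← h.sum_stp hR (fun B => f B * g (stp R B))]
  apply sum_congr rfl
  intro B hB
  rw [h.inv R hR B hB]

theorem Chain.symm (h : Chain 𝓑 K stp) (f g : Finset α → ℝ) :
    ∑ B ∈ 𝓑, f B * Tr K stp g B = ∑ B ∈ 𝓑, Tr K stp f B * g B := by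
  unfold Tr
  simp only [mul_sum, sum_mul]
  rw [sum_comm, sum_comm (s := 𝓑) (t := range K)]
  apply sum_congr rfl
  intro R hR
  exact h.inner_stp (mem_range.1 hR) f g

theorem Chain.sum_Tr (h : Chain 𝓑 K stp) (f : Finset α → ℝ) :
    ∑ B ∈ 𝓑, Tr K stp f B = K * ∑ B ∈ 𝓑, f B := by
  unfold Tr
  rw [sum_comm]
  rw [sum_congr rfl (fun R hR => h.sum_stp (mem_range.1 hR) f), sum_const, card_range,
    nsmul_eq_mul]

/-- the Dirichlet form -/
theorem Chain.dirichlet (h : Chain 𝓑 K stp) (f : Finset α → ℝ) :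
    2 * (K * ∑ B ∈ 𝓑, f B ^ 2 - ∑ B ∈ 𝓑, f B * Tr K stp f B) =
      ∑ B ∈ 𝓑, ∑ R ∈ range K, (f B - f (stp R B)) ^ 2 := by
  have h1 : ∀ R ∈ range K, ∑ B ∈ 𝓑, (f B - f (stp R B)) ^ 2 =
      2 * (∑ B ∈ 𝓑, f B ^ 2 - ∑ B ∈ 𝓑, f B * f (stp R B)) := by
    intro R hR
    have h2 := h.sum_stp (mem_range.1 hR) (fun B => f B ^ 2)
    have h3 : ∀ B ∈ 𝓑, (f B - f (stp R B)) ^ 2 =
        f B ^ 2 - 2 * (f B * f (stp R B)) + f (stp R B) ^ 2 := fun B _ => by ring
    rw [sum_congr rfl h3, sum_add_distrib, sum_sub_distrib, ← mul_sum, h2]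
    ring
  rw [sum_comm, sum_congr rfl h1, ← mul_sum, sum_sub_distrib, sum_const, card_range, nsmul_eq_mul]
  congr 2
  unfold Tr
  simp only [mul_sum]
  rw [sum_comm]

theorem Chain.energy (h : Chain 𝓑 K stp) (f : Finset α → ℝ) :
    2 * Ed 𝓑 f ≤ ∑ B ∈ 𝓑, ∑ R ∈ range K, (f B - f (stp R B)) ^ 2 := by
  unfold Ed
  rw [mul_sum]
  apply sum_le_sum
  intro B hB
  -- group the moves by their target
  have h1 : ∑ R ∈ range K, (f B - f (stp R B)) ^ 2 =
      ∑ C ∈ 𝓑, ∑ R ∈ (range K).filter (fun R => stp R B = C), (f B - f (stp R B)) ^ 2 := by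
    rw [sum_fiberwise_of_maps_to]
    intro R hR
    exact h.maps R (mem_range.1 hR) B hB
  rw [h1, mul_sum, sum_filter]
  apply sum_le_sum
  intro C hC
  have h2 : ∑ R ∈ (range K).filter (fun R => stp R B = C), (f B - f (stp R B)) ^ 2 =
      ((range K).filter (fun R => stp R B = C)).card * (f B - f C) ^ 2 := by
    rw [sum_congr rfl (fun R hR => by rw [(mem_filter.1 hR).2] :
      ∀ R ∈ (range K).filter (fun R => stp R B = C), (f B - f (stp R B)) ^ 2 = (f B - f C) ^ 2),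
      sum_const, nsmul_eq_mul]
  rw [h2]
  split_ifs with h3
  · have h4 : (2 : ℝ) ≤ ((range K).filter (fun R => stp R B = C)).card := by
      exact_mod_cast h.rich B hB C hC h3
    exact mul_le_mul_of_nonneg_right h4 (sq_nonneg _)
  · exact mul_nonneg (Nat.cast_nonneg _) (sq_nonneg _)

/-- the upper bound for the form of the transfer operator -/
theorem Chain.form_le {r : ℕ} (h : Chain 𝓑 K stp) (hB : Bases 𝓑 r) {f : Finset α → ℝ}
    (hf : ∑ B ∈ 𝓑, f B = 0) :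
    ∑ B ∈ 𝓑, f B * Tr K stp f B ≤ ((K : ℝ) - 4) * ∑ B ∈ 𝓑, f B ^ 2 := by
  have h1 := h.dirichlet f
  have h2 := h.energy f
  have h3 := poincare hB f
  have h4 : W 𝓑 f = ∑ B ∈ 𝓑, f B ^ 2 := by
    unfold W mn
    rw [hf, zero_div]
    simp
  rw [h4] at h3
  linarith

theorem Chain.form_nonneg (h : Chain 𝓑 K stp) (f : Finset α → ℝ) :
    0 ≤ ∑ B ∈ 𝓑, f B * Tr K stp f B := by
  classical
  unfold Tr
  simp only [mul_sum]
  rw [sum_comm]
  set S := ∑ B ∈ 𝓑, f B ^ 2 with hS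
  have hS0 : 0 ≤ S := sum_nonneg fun _ _ => sq_nonneg _
  set Z := (range K).filter fun R => ∀ B ∈ 𝓑, stp R B = B with hZ
  set Z' := (range K).filter fun R => ¬ ∀ B ∈ 𝓑, stp R B = B with hZ'
  rw [← sum_filter_add_sum_filter_not (range K) (fun R => ∀ B ∈ 𝓑, stp R B = B)]
  have h1 : ∑ R ∈ Z, ∑ B ∈ 𝓑, f B * f (stp R B) = Z.card * S := by
    rw [← nsmul_eq_mul, ← sum_const]
    apply sum_congr rfl
    intro R hR
    rw [hZ, mem_filter] at hR
    apply sum_congr rfl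
    intro B hB
    rw [hR.2 B hB]; ring
  have h2 : -(Z'.card * S) ≤ ∑ R ∈ Z', ∑ B ∈ 𝓑, f B * f (stp R B) := by
    rw [← nsmul_eq_mul, ← sum_const, ← sum_neg_distrib]
    apply sum_le_sum
    intro R hR
    rw [hZ', mem_filter] at hR
    have h3 := h.sum_stp (mem_range.1 hR.1) (fun B => f B ^ 2)
    have h4 : 0 ≤ ∑ B ∈ 𝓑, (f B + f (stp R B)) ^ 2 := sum_nonneg fun _ _ => sq_nonneg _
    have h5 : ∀ B ∈ 𝓑, (f B + f (stp R B)) ^ 2 =
        f B ^ 2 + 2 * (f B * f (stp R B)) + f (stp R B) ^ 2 := fun B _ => by ring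
    rw [sum_congr rfl h5, sum_add_distrib, sum_add_distrib, ← mul_sum, h3] at h4
    linarith
  have h6 : (Z'.card : ℝ) ≤ Z.card := by
    have h7 := h.lzy
    have h8 : Z.card + Z'.card = K := by
      have := card_filter_add_card_filter_not (s := range K) (fun R => ∀ B ∈ 𝓑, stp R B = B)
      rw [card_range] at this
      exact this
    rw [← hZ] at h7
    exact_mod_cast (by omega : Z'.card ≤ Z.card)
  have h9 : (Z'.card : ℝ) * S ≤ Z.card * S := mul_le_mul_of_nonneg_right h6 hS0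
  linarith

theorem Tr_add (f g : Finset α → ℝ) (B : Finset α) (s : ℝ) :
    Tr K stp (fun C => f C + s * g C) B = Tr K stp f B + s * Tr K stp g B := by
  unfold Tr
  rw [sum_add_distrib, mul_sum]

/-- contraction of the norm -/
theorem Chain.contract {r : ℕ} (h : Chain 𝓑 K stp) (hB : Bases 𝓑 r) (hK : 4 ≤ K)
    {f : Finset α → ℝ} (hf : ∑ B ∈ 𝓑, f B = 0) :
    ∑ B ∈ 𝓑, Tr K stp f B ^ 2 ≤ ((K : ℝ) - 4) ^ 2 * ∑ B ∈ 𝓑, f B ^ 2 := by
  have hK' : (0 : ℝ) ≤ (K : ℝ) - 4 := by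
    have : (4 : ℝ) ≤ K := by exact_mod_cast hK
    linarith
  set g := Tr K stp f with hg
  have hg0 : ∑ B ∈ 𝓑, g B = 0 := by rw [hg, h.sum_Tr, hf, mul_zero]
  set A := ∑ B ∈ 𝓑, f B * Tr K stp f B with hA
  set D := ∑ B ∈ 𝓑, g B ^ 2 with hD
  set C := ∑ B ∈ 𝓑, g B * Tr K stp g B with hC
  set S := ∑ B ∈ 𝓑, f B ^ 2 with hS
  have hS0 : 0 ≤ S := sum_nonneg fun _ _ => sq_nonneg _
  have hD0 : 0 ≤ D := sum_nonneg fun _ _ => sq_nonneg _
  have hAle : A ≤ (K - 4) * S := h.form_le hB hf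
  have hCle : C ≤ (K - 4) * D := h.form_le hB hg0
  have hA0 : 0 ≤ A := h.form_nonneg f
  have hC0 : 0 ≤ C := h.form_nonneg g
  have hfg : ∑ B ∈ 𝓑, f B * Tr K stp g B = D := by
    rw [h.symm]
    apply sum_congr rfl
    intro B _
    rw [← hg]; ring
  have hgf : ∑ B ∈ 𝓑, g B * Tr K stp f B = D := by
    apply sum_congr rfl
    intro B _
    rw [← hg]; ring
  -- Cauchy–Schwarz for the form
  have hquad : ∀ s : ℝ, 0 ≤ C * (s * s) + (2 * D) * s + A := by
    intro s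
    have h1 := h.form_nonneg (fun B => f B + s * g B)
    have h2 : ∑ B ∈ 𝓑, (f B + s * g B) * Tr K stp (fun B => f B + s * g B) B =
        C * (s * s) + (2 * D) * s + A := by
      have h3 : ∀ B ∈ 𝓑, (f B + s * g B) * Tr K stp (fun B => f B + s * g B) B =
          f B * Tr K stp f B + s * (f B * Tr K stp g B) + s * (g B * Tr K stp f B)
            + (s * s) * (g B * Tr K stp g B) := by
        intro B _
        rw [Tr_add]; ring
      rw [sum_congr rfl h3, sum_add_distrib, sum_add_distrib, sum_add_distrib, ← mul_sum,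
        ← mul_sum, ← mul_sum, hfg, hgf]
      ring
    rwa [h2] at h1
  have hdisc := discrim_le_zero hquad
  unfold discrim at hdisc
  have h5 : D ^ 2 ≤ C * A := by nlinarith
  rcases hD0.eq_or_lt with h0 | h0
  · rw [← h0]; exact mul_nonneg (sq_nonneg _) hS0
  · have h6 : D * D ≤ D * ((K - 4) ^ 2 * S) := by
      calc D * D = D ^ 2 := by ring
        _ ≤ C * A := h5
        _ ≤ ((K - 4) * D) * ((K - 4) * S) := mul_le_mul hCle hAle hA0 (mul_nonneg hK' hD0)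
        _ = _ := by ring
    exact le_of_mul_le_mul_left h6 h0

theorem Chain.iterate_contract {r : ℕ} (h : Chain 𝓑 K stp) (hB : Bases 𝓑 r) (hK : 4 ≤ K)
    {f : Finset α → ℝ} (hf : ∑ B ∈ 𝓑, f B = 0) (t : ℕ) :
    ∑ B ∈ 𝓑, (Tr K stp)^[t] f B = 0 ∧
      ∑ B ∈ 𝓑, (Tr K stp)^[t] f B ^ 2 ≤ (((K : ℝ) - 4) ^ t) ^ 2 * ∑ B ∈ 𝓑, f B ^ 2 := by
  induction t with
  | zero => simp [hf]
  | succ t ih =>
    rw [Function.iterate_succ_apply']
    refine ⟨by rw [h.sum_Tr, ih.1, mul_zero], ?_⟩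
    refine (h.contract hB hK ih.1).trans ?_
    calc ((K : ℝ) - 4) ^ 2 * ∑ B ∈ 𝓑, (Tr K stp)^[t] f B ^ 2
        ≤ ((K : ℝ) - 4) ^ 2 * ((((K : ℝ) - 4) ^ t) ^ 2 * ∑ B ∈ 𝓑, f B ^ 2) :=
          mul_le_mul_of_nonneg_left ih.2 (sq_nonneg _)
      _ = _ := by rw [pow_succ ((K : ℝ) - 4) t]; ring

theorem Tr_const_iterate (c : ℝ) (t : ℕ) (B : Finset α) :
    (Tr K stp)^[t] (fun _ => c) B = (K : ℝ) ^ t * c := by
  induction t generalizing B with
  | zero => simp
  | succ t ih =>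
    rw [Function.iterate_succ_apply']
    unfold Tr at ih ⊢
    rw [sum_congr rfl (fun R _ => ih (stp R B)), sum_const, card_range, nsmul_eq_mul]
    ring

theorem Tr_add_iterate (f g : Finset α → ℝ) (t : ℕ) (B : Finset α) :
    (Tr K stp)^[t] (fun C => f C + g C) B = (Tr K stp)^[t] f B + (Tr K stp)^[t] g B := by
  induction t generalizing B with
  | zero => rfl
  | succ t ih =>
    simp only [Function.iterate_succ_apply']
    have : (Tr K stp)^[t] (fun C => f C + g C) =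
        fun C => (Tr K stp)^[t] f C + 1 * (Tr K stp)^[t] g C := by
      funext C
      rw [ih C, one_mul]
    rw [this, Tr_add, one_mul]

theorem Tn_cast (g : Finset α → ℕ) (t : ℕ) (B : Finset α) :
    (((Tn K stp)^[t] g B : ℕ) : ℝ) = (Tr K stp)^[t] (fun C => (g C : ℝ)) B := by
  induction t generalizing B with
  | zero => rfl
  | succ t ih =>
    simp only [Function.iterate_succ_apply']
    unfold Tn Tr at *
    push_cast
    apply sum_congr rfl
    intro R _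
    exact ih _

/-- the indicator function of a set -/
def ind (x : Finset α) (B : Finset α) : ℕ := if B = x then 1 else 0

/-- The number of ways from `y` to `x` in `t` moves is nearly the same for all bases. -/
theorem Chain.near {r : ℕ} (h : Chain 𝓑 K stp) (hB : Bases 𝓑 r) (hK : 4 ≤ K)
    {x y : Finset α} (hx : x ∈ 𝓑) (hy : y ∈ 𝓑) (t : ℕ) :
    (((Tn K stp)^[t] (ind x) y : ℕ) : ℝ) ≤ (K : ℝ) ^ t / 𝓑.card + ((K : ℝ) - 4) ^ t := by
  have hN : (0 : ℝ) < 𝓑.card := by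
    have : 0 < 𝓑.card := card_pos.2 ⟨x, hx⟩
    exact_mod_cast this
  have hK' : (0 : ℝ) ≤ (K : ℝ) - 4 := by
    have : (4 : ℝ) ≤ K := by exact_mod_cast hK
    linarith
  set f : Finset α → ℝ := fun B => (ind x B : ℝ) - 1 / 𝓑.card with hf
  have hsum1 : ∑ B ∈ 𝓑, (ind x B : ℝ) = 1 := by
    unfold ind
    simp [hx]
  have hf0 : ∑ B ∈ 𝓑, f B = 0 := by
    rw [hf, sum_sub_distrib, hsum1, sum_const, nsmul_eq_mul]
    field_simp
    ring
  have hf2 : ∑ B ∈ 𝓑, f B ^ 2 ≤ 1 := by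
    have h1 : ∀ B ∈ 𝓑, f B ^ 2 = (ind x B : ℝ) - 2 * (1 / 𝓑.card) * (ind x B : ℝ)
        + (1 / 𝓑.card) ^ 2 := by
      intro B _
      have : ((ind x B : ℕ) : ℝ) ^ 2 = ind x B := by
        unfold ind
        split_ifs <;> simp
      rw [hf]
      simp only
      rw [sub_sq, this]; ring
    rw [sum_congr rfl h1, sum_add_distrib, sum_sub_distrib, ← mul_sum, hsum1, sum_const,
      nsmul_eq_mul]
    have h2 : (𝓑.card : ℝ) * (1 / 𝓑.card) ^ 2 = 1 / 𝓑.card := by field_simp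
    rw [h2]
    have : 0 < 1 / (𝓑.card : ℝ) := by
      exact div_pos one_pos hN
    linarith
  obtain ⟨_, h3⟩ := h.iterate_contract hB hK hf0 t
  have h4 : ((Tr K stp)^[t] f y) ^ 2 ≤ (((K : ℝ) - 4) ^ t) ^ 2 := by
    calc ((Tr K stp)^[t] f y) ^ 2 ≤ ∑ B ∈ 𝓑, (Tr K stp)^[t] f B ^ 2 :=
          single_le_sum (f := fun B => (Tr K stp)^[t] f B ^ 2) (fun _ _ => sq_nonneg _) hy
      _ ≤ (((K : ℝ) - 4) ^ t) ^ 2 * ∑ B ∈ 𝓑, f B ^ 2 := h3
      _ ≤ (((K : ℝ) - 4) ^ t) ^ 2 * 1 := mul_le_mul_of_nonneg_left hf2 (sq_nonneg _)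
      _ = _ := mul_one _
  have h5 : (Tr K stp)^[t] f y ≤ ((K : ℝ) - 4) ^ t :=
    abs_le_of_sq_le_sq' h4 (pow_nonneg hK' t) |>.2
  have h6 : (fun C => ((ind x C : ℕ) : ℝ)) = fun C => f C + (fun _ => 1 / (𝓑.card : ℝ)) C := by
    funext C
    rw [hf]
    simp
  rw [Tn_cast, h6, Tr_add_iterate, Tr_const_iterate]
  have h7 : (K : ℝ) ^ t * (1 / 𝓑.card) = (K : ℝ) ^ t / 𝓑.card := by ring
  rw [h7]
  linarith

/-- **The final estimate**, for natural numbers. -/
theorem Chain.final {r : ℕ} (h : Chain 𝓑 K stp) (hB : Bases 𝓑 r) (hK : 4 ≤ K)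
    {x y : Finset α} (hx : x ∈ 𝓑) (hy : y ∈ 𝓑) (m D : ℕ) (hm : 𝓑.card ≤ 2 ^ m) :
    𝓑.card * (2 ^ D - 1) * (Tn K stp)^[K * (m + D)] (ind x) y ≤ 2 ^ D * K ^ (K * (m + D)) := by
  set t := K * (m + D) with ht
  have hN : (0 : ℝ) < 𝓑.card := by
    have : 0 < 𝓑.card := card_pos.2 ⟨x, hx⟩
    exact_mod_cast this
  have hKr : (4 : ℝ) ≤ K := by exact_mod_cast hK
  have hK0 : (0 : ℝ) < K := by linarith
  have h1 := h.near hB hK hx hy t
  -- the error
  have h2 : ((K : ℝ) - 4) ^ t ≤ (K : ℝ) ^ t * (1 / 2) ^ (m + D) := by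
    have e1 : ((K : ℝ) - 4) ^ t = (K : ℝ) ^ t * ((1 - 4 / K) ^ K) ^ (m + D) := by
      rw [← pow_mul, ← ht, ← mul_pow]
      congr 1
      field_simp
    rw [e1]
    apply mul_le_mul_of_nonneg_left _ (by positivity)
    apply pow_le_pow_left₀
    · apply pow_nonneg
      rw [sub_nonneg, div_le_one hK0]
      exact hKr
    · have h3 : (1 : ℝ) - 4 / K ≤ Real.exp (-(4 / K)) := by
        have := Real.add_one_le_exp (-(4 / (K : ℝ)))
        linarith
      have h0 : (0 : ℝ) ≤ 1 - 4 / K := by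
        rw [sub_nonneg, div_le_one hK0]
        exact hKr
      calc ((1 : ℝ) - 4 / K) ^ K ≤ (Real.exp (-(4 / K))) ^ K := pow_le_pow_left₀ h0 h3 K
        _ = Real.exp (-4) := by
            rw [← Real.exp_nat_mul]
            congr 1
            field_simp
        _ ≤ 1 / 2 := by
            rw [Real.exp_neg, one_div]
            apply inv_anti₀ (by norm_num)
            have := Real.add_one_le_exp (4 : ℝ)
            linarith
  have h3 : (1 / 2 : ℝ) ^ (m + D) ≤ 1 / 𝓑.card * (1 / 2) ^ D := by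
    rw [pow_add]
    apply mul_le_mul_of_nonneg_right _ (by positivity)
    rw [one_div_pow]
    apply one_div_le_one_div_of_le hN
    exact_mod_cast hm
  have h4 : (((Tn K stp)^[t] (ind x) y : ℕ) : ℝ) * 𝓑.card ≤
      (K : ℝ) ^ t * (1 + (1 / 2) ^ D) := by
    have e1 : (((Tn K stp)^[t] (ind x) y : ℕ) : ℝ) ≤
        (K : ℝ) ^ t / 𝓑.card + (K : ℝ) ^ t * (1 / 𝓑.card * (1 / 2) ^ D) := by
      refine h1.trans (add_le_add le_rfl (h2.trans ?_))
      exact mul_le_mul_of_nonneg_left h3 (by positivity)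
    calc (((Tn K stp)^[t] (ind x) y : ℕ) : ℝ) * 𝓑.card ≤
        ((K : ℝ) ^ t / 𝓑.card + (K : ℝ) ^ t * (1 / 𝓑.card * (1 / 2) ^ D)) * 𝓑.card :=
          mul_le_mul_of_nonneg_right e1 hN.le
      _ = _ := by field_simp
  have h5 : ((𝓑.card * (2 ^ D - 1) * (Tn K stp)^[t] (ind x) y : ℕ) : ℝ) ≤
      ((2 ^ D * K ^ t : ℕ) : ℝ) := by
    have e2 : ((2 ^ D - 1 : ℕ) : ℝ) = 2 ^ D - 1 := by
      rw [Nat.cast_sub Nat.one_le_two_pow]
      push_cast
      ring
    have e3 : (1 : ℝ) ≤ 2 ^ D := one_le_pow₀ (by norm_num)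
    push_cast [e2]
    calc (𝓑.card : ℝ) * (2 ^ D - 1) * ((Tn K stp)^[t] (ind x) y : ℕ)
        = (2 ^ D - 1) * ((((Tn K stp)^[t] (ind x) y : ℕ) : ℝ) * 𝓑.card) := by ring
      _ ≤ (2 ^ D - 1) * ((K : ℝ) ^ t * (1 + (1 / 2) ^ D)) :=
          mul_le_mul_of_nonneg_left h4 (by linarith)
      _ = (K : ℝ) ^ t * (2 ^ D - (1 / 2) ^ D) := by
          have : (2 : ℝ) ^ D * (1 / 2) ^ D = 1 := by rw [← mul_pow]; norm_num
          linear_combination (K : ℝ) ^ t * this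
      _ ≤ (K : ℝ) ^ t * 2 ^ D := by
          apply mul_le_mul_of_nonneg_left _ (by positivity)
          have : (0 : ℝ) < (1 / 2) ^ D := by positivity
          linarith
      _ = 2 ^ D * (K : ℝ) ^ t := by ring
  exact_mod_cast h5

/-- Symmetry of the numbers of ways. -/
theorem Chain.symm_iterate (h : Chain 𝓑 K stp) (f g : Finset α → ℝ) (t : ℕ) :
    ∑ B ∈ 𝓑, f B * (Tr K stp)^[t] g B = ∑ B ∈ 𝓑, (Tr K stp)^[t] f B * g B := by
  induction t generalizing f g with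
  | zero => rfl
  | succ t ih =>
    rw [Function.iterate_succ_apply', h.symm, ih, Function.iterate_succ_apply]

theorem Chain.ways_comm (h : Chain 𝓑 K stp) {x y : Finset α} (hx : x ∈ 𝓑) (hy : y ∈ 𝓑) (t : ℕ) :
    (Tn K stp)^[t] (ind x) y = (Tn K stp)^[t] (ind y) x := by
  have h1 := h.symm_iterate (fun B => (ind y B : ℝ)) (fun B => (ind x B : ℝ)) t
  simp only [← Tn_cast] at h1
  unfold ind at h1 ⊢
  simp only [Nat.cast_ite, Nat.cast_one, Nat.cast_zero, ite_mul, one_mul, zero_mul, mul_ite,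
    mul_one, mul_zero, sum_ite_eq', hx, hy, if_true] at h1
  exact_mod_cast h1

end

end Pool.Agent.TH703.SST
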