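import Pool.Agent.TH703.SST.Alg
import Pool.Agent.TH703.SST.Walk5

/-!
# Linear independence of the selected columns
-/

set_option autoImplicit false
set_option linter.unusedSectionVars false

namespace Pool.Agent.NPC.T703

open Finset Pool.Agent.H670R2 Pool.Agent.TH703.SST

/-- an integer vector given by a list, as a rational vector -/
def vec (q : ℕ) (c : List ℤ) : Fin q → ℚ := fun j => ((c.getD j 0 : ℤ) : ℚ)

theorem dotL_eq_vec {q : ℕ} (u v : List ℤ) (hu : u.length = q) (hv : v.length = q) :
    ((dotL u v : ℤ) : ℚ) = ∑ j, vec q u j * vec q v j := by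
  subst hu
  unfold dotL vec
  induction u generalizing v with
  | nil => simp
  | cons a u ih =>
    cases v with
    | nil => simp at hv
    | cons b v =>
      have h1 := ih v (by simpa using hv)
      simp only [List.zipWith_cons_cons, List.sum_cons, List.length_cons]
      rw [Int.cast_add, Int.cast_mul, h1, Fin.sum_univ_succ]
      simp

theorem gdet_ne_zero_iff (L : List (List ℤ)) (q : ℕ) (hq : ∀ c ∈ L, c.length = q) :
    gdet L ≠ 0 ↔ LinearIndependent ℚ (fun i : Fin L.length => vec q (L.get i)) := by
  rw [gdet_eq, Ne, Int.natAbs_eq_zero]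
  set A : Matrix (Fin L.length) (Fin q) ℚ := Matrix.of fun i j => vec q (L.get i) j with hA
  have h1 : (gramM L).map (Int.castRingHom ℚ) = A * A.transpose := by
    ext i j
    rw [Matrix.map_apply, Matrix.mul_apply]
    change ((dotL _ _ : ℤ) : ℚ) = _
    rw [dotL_eq_vec (q := q) _ _ (hq _ (List.get_mem L i)) (hq _ (List.get_mem L j))]
    rfl
  have h2 : ((gramM L).det : ℚ) = (A * A.transpose).det := by
    rw [← h1]
    exact (RingHom.map_det (Int.castRingHom ℚ) (gramM L))
  have h3 : ¬ (gramM L).det = 0 ↔ (A * A.transpose).det ≠ 0 := by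
    rw [← h2]
    simp
  rw [h3, ← isUnit_iff_ne_zero, ← Matrix.isUnit_iff_isUnit_det,
    ← Matrix.linearIndependent_rows_iff_isUnit]
  constructor
  · intro h4
    have h5 := h4.rank_matrix
    rw [Matrix.rank_self_mul_transpose] at h5
    rw [linearIndependent_iff_card_eq_finrank_span, Set.finrank]
    rw [Matrix.rank_eq_finrank_span_row] at h5
    exact h5.symm
  · intro h4
    have h5 : LinearIndependent ℚ A.row := h4
    have h6 := h5.rank_matrix
    rw [← Matrix.rank_self_mul_transpose] at h6
    rw [linearIndependent_iff_card_eq_finrank_span, Set.finrank]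
    rw [Matrix.rank_eq_finrank_span_row] at h6
    exact h6.symm

/-- the set given by a mask -/
def toS (m : ℕ) (X : List Bool) : Finset (Fin m) := univ.filter fun i => X.getD i false = true

/-- the mask of a set -/
def toX {m : ℕ} (S : Finset (Fin m)) : List Bool := List.ofFn fun i => decide (i ∈ S)

theorem toX_length {m : ℕ} (S : Finset (Fin m)) : (toX S).length = m := by unfold toX; simp

theorem toS_toX {m : ℕ} (S : Finset (Fin m)) : toS m (toX S) = S := by
  ext i
  unfold toS toX
  simp [List.getD_eq_getElem?_getD]

theorem toX_toS {m : ℕ} {X : List Bool} (hX : X.length = m) : toX (toS m X) = X := by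
  subst hX
  apply List.ext_getElem
  · simp [toX]
  · intro i h1 h2
    unfold toX toS
    simp [List.getD_eq_getElem?_getD]

theorem toS_inj {m : ℕ} {X Y : List Bool} (hX : X.length = m) (hY : Y.length = m)
    (h : toS m X = toS m Y) : X = Y := by
  rw [← toX_toS hX, ← toX_toS hY, h]

theorem sel_eq {β : Type} (l : List β) : ∀ X : List Bool,
    sel l X = ((List.finRange l.length).filter
      fun i : Fin l.length => X.getD (i : ℕ) false).map l.get := by
  induction l with
  | nil => intro X; simp [sel]
  | cons b l ih =>
    intro X
    cases X with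
    | nil => simp [sel]
    | cons x X =>
      have h1 := ih X
      unfold sel at h1 ⊢
      have h0 : List.finRange (b :: l).length = 0 :: (List.finRange l.length).map Fin.succ :=
        List.finRange_succ
      rw [List.zip_cons_cons, h0, List.filter_cons, List.filter_cons, List.filter_map]
      change List.map (fun p => p.1) (if x = true then (b, x) :: List.filter (fun p => p.2) (l.zip X)
        else List.filter (fun p => p.2) (l.zip X)) = List.map (b :: l).get (if x = true then
        (0 : Fin (b :: l).length) :: List.map Fin.succ
          (List.filter (fun i : Fin l.length => X.getD (i : ℕ) false) (List.finRange l.length))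
        else List.map Fin.succ
          (List.filter (fun i : Fin l.length => X.getD (i : ℕ) false) (List.finRange l.length)))
      have h3 : (List.map Fin.succ (List.filter (fun i : Fin l.length => X.getD (i : ℕ) false)
        (List.finRange l.length))).map (b :: l).get =
        (List.filter (fun i : Fin l.length => X.getD (i : ℕ) false)
          (List.finRange l.length)).map l.get := by
        rw [List.map_map]
        rfl
      cases x
      · simp only [Bool.false_eq_true, if_false]
        rw [h1, h3]
      · simp only [if_true, List.map_cons]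
        rw [h1, h3]
        rfl

/-- the columns as vectors -/
def cv (q : ℕ) (M : List (List ℤ)) (i : Fin M.length) : Fin q → ℚ := vec q (M.get i)

theorem mem_sel {β : Type} {l : List β} {X : List Bool} {b : β} (h : b ∈ sel l X) : b ∈ l := by
  unfold sel at h
  rw [List.mem_map] at h
  obtain ⟨p, hp, rfl⟩ := h
  rw [List.mem_filter] at hp
  exact (List.of_mem_zip hp.1).1

theorem indep_iff {M : List (List ℤ)} {q : ℕ} (hq : ∀ c ∈ M, c.length = q) (X : List Bool) :
    indep M X = true ↔ LinearIndepOn ℚ (cv q M) (toS M.length X : Set (Fin M.length)) := by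
  unfold indep
  rw [decide_eq_true_iff, gdet_ne_zero_iff _ q (fun c hc => hq c (mem_sel hc))]
  have h1 := sel_eq M X
  set ι := (List.finRange M.length).filter
    (fun i : Fin M.length => X.getD (i : ℕ) false) with hι
  have hnd : ι.Nodup := (List.nodup_finRange _).filter _
  have hlen : (sel M X).length = ι.length := by rw [h1, List.length_map]
  have h2 : LinearIndependent ℚ (fun i : Fin (sel M X).length => vec q ((sel M X).get i)) ↔
      LinearIndependent ℚ (fun i : Fin ι.length => cv q M (ι.get i)) := by
    rw [← linearIndependent_equiv (finCongr hlen)]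
    have : ((fun i : Fin ι.length => cv q M (ι.get i)) ∘ (finCongr hlen)) =
        fun i : Fin (sel M X).length => vec q ((sel M X).get i) := by
      funext i
      simp only [Function.comp_apply, finCongr_apply, cv]
      congr 1
      simp [h1]
    rw [this]
  rw [h2]
  have h3 : LinearIndependent ℚ (fun i : Fin ι.length => cv q M (ι.get i)) ↔
      LinearIndependent ℚ (fun i : {i // i ∈ ι} => cv q M i) := by
    rw [← linearIndependent_equiv (hnd.getEquiv ι)]
    rfl
  rw [h3]
  have h4 : ∀ i, i ∈ ι ↔ i ∈ (toS M.length X : Set (Fin M.length)) := by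
    intro i
    rw [hι, List.mem_filter]
    simp [toS]
  rw [LinearIndepOn]
  rw [← linearIndependent_equiv (Equiv.subtypeEquivRight h4)]
  rfl

/-! ### the greedy basis -/

theorem gre_aux (M : List (List ℤ)) : ∀ k ≤ M.length,
    ∃ X : List Bool, (M.take k).foldl (fun X _ => X ++ [indep M (X ++ [true])]) [] = X ∧
      X.length = k ∧ (k < M.length → ∃ b, (M.take (k + 1)).foldl
        (fun X _ => X ++ [indep M (X ++ [true])]) [] = X ++ [b] ∧ b = indep M (X ++ [true])) := by
  intro k hk
  refine ⟨_, rfl, ?_, fun hk' => ⟨_, ?_, rfl⟩⟩
  · rw [length_gre_aux]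
    simp
    omega
  · rw [List.take_add_one, List.foldl_append]
    have : M[k]?.toList = [M[k]] := by
      rw [List.getElem?_eq_getElem hk']; rfl
    rw [this]
    rfl

/-- the mask after `k` greedy steps -/
def greK (M : List (List ℤ)) (k : ℕ) : List Bool :=
  (M.take k).foldl (fun X _ => X ++ [indep M (X ++ [true])]) []

theorem greK_length {M : List (List ℤ)} {k : ℕ} (hk : k ≤ M.length) : (greK M k).length = k := by
  unfold greK
  rw [length_gre_aux]
  simp
  omega

theorem greK_succ {M : List (List ℤ)} {k : ℕ} (hk : k < M.length) :
    greK M (k + 1) = greK M k ++ [indep M (greK M k ++ [true])] := by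
  obtain ⟨X, h1, _, h3⟩ := gre_aux M k hk.le
  obtain ⟨b, h4, h5⟩ := h3 hk
  have e1 : greK M k = X := h1
  have e2 : greK M (k + 1) = X ++ [b] := h4
  rw [e2, e1, h5]

theorem greK_all (M : List (List ℤ)) : greK M M.length = gre M := by
  unfold greK gre
  rw [List.take_length]

theorem toS_append {m : ℕ} {X : List Bool} {b : Bool} (hX : X.length < m) :
    toS m (X ++ [b]) = if b = true then insert ⟨X.length, hX⟩ (toS m X) else toS m X := by
  ext i
  have key : (X ++ [b]).getD (i : ℕ) false = true ↔
      (X.getD (i : ℕ) false = true ∨ ((i : ℕ) = X.length ∧ b = true)) := by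
    rw [List.getD_eq_getElem?_getD, List.getD_eq_getElem?_getD]
    rcases lt_trichotomy (i : ℕ) X.length with h | h | h
    · rw [List.getElem?_append_left h]
      constructor
      · exact fun h' => Or.inl h'
      · rintro (h' | ⟨h', _⟩)
        · exact h'
        · omega
    · rw [h, List.getElem?_append_right le_rfl, List.getElem?_eq_none le_rfl]
      simp
    · rw [List.getElem?_eq_none (by simp; omega), List.getElem?_eq_none (by omega)]
      simp
      omega
  by_cases hb : b = true
  · rw [if_pos hb]
    simp only [toS, mem_filter, mem_univ, true_and, mem_insert, Fin.ext_iff]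
    rw [key]
    constructor
    · rintro (h | ⟨h, _⟩)
      · exact Or.inr h
      · exact Or.inl h
    · rintro (h | h)
      · exact Or.inr ⟨h, hb⟩
      · exact Or.inl h
  · rw [if_neg hb]
    simp only [toS, mem_filter, mem_univ, true_and]
    rw [key]
    constructor
    · rintro (h | ⟨_, h⟩)
      · exact h
      · exact absurd h hb
    · exact Or.inl

theorem not_mem_toS {m : ℕ} {X : List Bool} (hX : X.length < m) : (⟨X.length, hX⟩ : Fin m) ∉ toS m X := by
  simp [toS]

theorem greK_spec {M : List (List ℤ)} {q : ℕ} (hq : ∀ c ∈ M, c.length = q) :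
    ∀ k ≤ M.length, LinearIndepOn ℚ (cv q M) (toS M.length (greK M k) : Set (Fin M.length)) ∧
      ∀ i : Fin M.length, (i : ℕ) < k →
        cv q M i ∈ Submodule.span ℚ (cv q M '' (toS M.length (greK M k) : Set (Fin M.length))) := by
  intro k
  induction k with
  | zero =>
    intro _
    refine ⟨?_, fun i hi => absurd hi (Nat.not_lt_zero _)⟩
    have : toS M.length (greK M 0) = ∅ := by
      ext i; simp [toS, greK]
    rw [this, coe_empty]
    exact linearIndepOn_empty ℚ _
  | succ k ih =>
    intro hk
    obtain ⟨h1, h2⟩ := ih (by omega)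
    have hlt : (greK M k).length < M.length := by rw [greK_length (by omega)]; omega
    have hlen : (greK M k).length = k := greK_length (by omega)
    rw [greK_succ (by omega), toS_append hlt]
    have h3 : toS M.length (greK M k ++ [true]) = insert ⟨(greK M k).length, hlt⟩
        (toS M.length (greK M k)) := by
      rw [toS_append hlt, if_pos rfl]
    have h4 := indep_iff hq (greK M k ++ [true])
    rw [h3, coe_insert, linearIndepOn_insert (by exact_mod_cast not_mem_toS hlt)] at h4
    by_cases hb : indep M (greK M k ++ [true]) = true
    · rw [if_pos hb, coe_insert]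
      refine ⟨(linearIndepOn_insert (by exact_mod_cast not_mem_toS hlt)).2 (h4.1 hb), ?_⟩
      intro i hi
      rcases Nat.lt_or_ge (i : ℕ) k with hi' | hi'
      · exact Submodule.span_mono (Set.image_mono (Set.subset_insert _ _)) (h2 i hi')
      · apply Submodule.subset_span
        refine ⟨i, ?_, rfl⟩
        rw [Set.mem_insert_iff]
        left
        apply Fin.ext
        simp only
        omega
    · rw [if_neg hb]
      refine ⟨h1, ?_⟩
      intro i hi
      rcases Nat.lt_or_ge (i : ℕ) k with hi' | hi'
      · exact h2 i hi'
      · have h5 : i = ⟨(greK M k).length, hlt⟩ := Fin.ext (by simp only; omega)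
        by_contra hcon
        apply hb
        rw [h4]
        exact ⟨h1, h5 ▸ hcon⟩

/-- the rank -/
def rk (M : List (List ℤ)) : ℕ := (gre M).count true

theorem count_eq_card {m : ℕ} {X : List Bool} (hX : X.length = m) :
    X.count true = (toS m X).card := by
  subst hX
  have h1 : (toS X.length X).card =
      ((List.finRange X.length).filter fun i : Fin X.length => X.getD (i : ℕ) false).length := by
    rw [← List.toFinset_card_of_nodup ((List.nodup_finRange _).filter _)]
    congr 1
    ext i
    simp [toS]
  rw [h1]
  have h2 := sel_eq X X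
  have h3 : (sel X X).length = X.count true := by
    unfold sel
    rw [List.length_map]
    have : ∀ l : List Bool, ((l.zip l).filter fun p => p.2).length = l.count true := by
      intro l
      induction l with
      | nil => rfl
      | cons b l ih => cases b <;> simp [ih]
    exact this X
  rw [← h3, h2, List.length_map]

/-- the bases, as sets -/
noncomputable def BB (q : ℕ) (M : List (List ℤ)) : Finset (Finset (Fin M.length)) := by
  classical
  exact univ.filter fun S => LinearIndepOn ℚ (cv q M) (S : Set (Fin M.length)) ∧ S.card = rk M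

theorem mem_BB {q : ℕ} {M : List (List ℤ)} {S : Finset (Fin M.length)} :
    S ∈ BB q M ↔ LinearIndepOn ℚ (cv q M) (S : Set (Fin M.length)) ∧ S.card = rk M := by
  unfold BB
  simp

theorem finrank_span_of_indep {q : ℕ} {M : List (List ℤ)} {S : Finset (Fin M.length)}
    (h : LinearIndepOn ℚ (cv q M) (S : Set (Fin M.length))) :
    Module.finrank ℚ (Submodule.span ℚ (cv q M '' (S : Set (Fin M.length)))) = S.card := by
  have h1 := finrank_span_eq_card (R := ℚ) (b := fun i : (S : Set (Fin M.length)) => cv q M i) h
  have h2 : Set.range (fun i : (S : Set (Fin M.length)) => cv q M i) =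
      cv q M '' (S : Set (Fin M.length)) := by
    rw [Set.image_eq_range]
  rw [h2] at h1
  rw [h1]
  simp

theorem bases_BB (q : ℕ) (M : List (List ℤ)) : Bases (BB q M) (rk M) := by
  classical
  constructor
  · intro B hB
    exact (mem_BB.1 hB).2
  · intro B hB B' hB' e he
    rw [mem_sdiff] at he
    rw [mem_BB] at hB hB'
    by_contra hcon
    push Not at hcon
    have h1 : ∀ f ∈ B', cv q M f ∈
        Submodule.span ℚ (cv q M '' ((B.erase e : Finset (Fin M.length)) : Set (Fin M.length))) := by
      intro f hf
      by_cases hfB : f ∈ B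
      · apply Submodule.subset_span
        refine ⟨f, ?_, rfl⟩
        rw [mem_coe, mem_erase]
        exact ⟨fun hh => he.2 (hh ▸ hf), hfB⟩
      · by_contra hns
        apply hcon f (mem_sdiff.2 ⟨hf, hfB⟩)
        rw [mem_BB]
        have hfe : f ∉ B.erase e := fun hh => hfB (mem_of_mem_erase hh)
        refine ⟨?_, ?_⟩
        · rw [coe_insert, linearIndepOn_insert (by exact_mod_cast hfe)]
          exact ⟨hB.1.mono (by exact_mod_cast erase_subset e B), hns⟩
        · rw [card_insert_of_notMem hfe, card_erase_of_mem he.1, hB.2]
          have : 0 < B.card := card_pos.2 ⟨e, he.1⟩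
          omega
    have h2 : Submodule.span ℚ (cv q M '' (B' : Set (Fin M.length))) ≤
        Submodule.span ℚ (cv q M '' ((B.erase e : Finset (Fin M.length)) : Set (Fin M.length))) := by
      rw [Submodule.span_le]
      rintro _ ⟨f, hf, rfl⟩
      exact h1 f (by exact_mod_cast hf)
    have h3 := Submodule.finrank_mono h2
    rw [finrank_span_of_indep hB'.1,
      finrank_span_of_indep (hB.1.mono (by exact_mod_cast erase_subset e B)),
      card_erase_of_mem he.1, hB.2, hB'.2] at h3
    have : 0 < B.card := card_pos.2 ⟨e, he.1⟩
    omega

theorem gre_mem {q : ℕ} {M : List (List ℤ)} (hq : ∀ c ∈ M, c.length = q) :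
    toS M.length (gre M) ∈ BB q M := by
  rw [mem_BB]
  have h1 := greK_spec hq M.length le_rfl
  rw [greK_all] at h1
  exact ⟨h1.1, (count_eq_card (length_gre M)).symm⟩

/-- bases are the independent spanning sets -/
theorem mem_BB_iff_span {q : ℕ} {M : List (List ℤ)} (hq : ∀ c ∈ M, c.length = q)
    {S : Finset (Fin M.length)} : S ∈ BB q M ↔ LinearIndepOn ℚ (cv q M) (S : Set (Fin M.length)) ∧
      Submodule.span ℚ (cv q M '' (S : Set (Fin M.length))) =
        Submodule.span ℚ (Set.range (cv q M)) := by
  have h1 := greK_spec hq M.length le_rfl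
  rw [greK_all] at h1
  have h2 : Submodule.span ℚ (cv q M '' (toS M.length (gre M) : Set (Fin M.length))) =
      Submodule.span ℚ (Set.range (cv q M)) := by
    apply le_antisymm
    · exact Submodule.span_mono (Set.image_subset_range _ _)
    · rw [Submodule.span_le]
      rintro _ ⟨i, rfl⟩
      exact h1.2 i i.2
  have h3 : Module.finrank ℚ (Submodule.span ℚ (Set.range (cv q M))) = rk M := by
    rw [← h2, finrank_span_of_indep h1.1]
    exact (count_eq_card (length_gre M)).symm
  rw [mem_BB]
  constructor
  · rintro ⟨h4, h5⟩
    refine ⟨h4, ?_⟩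
    apply Submodule.eq_of_le_of_finrank_eq
    · exact Submodule.span_mono (Set.image_subset_range _ _)
    · rw [finrank_span_of_indep h4, h5, h3]
  · rintro ⟨h4, h5⟩
    refine ⟨h4, ?_⟩
    rw [← finrank_span_of_indep h4, h5, h3]

end Pool.Agent.NPC.T703
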