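import Pool.Agent.H591R2.CoinRun

/-!
# Coin-tossing machines: probabilities of outputs, and potentials
-/

set_option autoImplicit false
set_option linter.unusedSectionVars false

namespace Pool.Agent.TH703.SST

open Turing Function Pool.Agent.H591R2 Pool.Agent.H591R2.CoinMachine Pool.Agent.NPC

section general

variable {M : CoinMachine}

open Classical in
/-- expected value, after `N` steps, of `a` times the number of steps plus the reward `g` of the
final configuration -/
noncomputable def eG (a : ℝ) (g : M.Conf → ℝ) : ℕ → M.Conf → ℝ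
  | 0, c => if c.l = none then g c else 0
  | N + 1, c => if c.l = none then g c else
      a + ((M.step false c).elim 0 (eG a g N) + (M.step true c).elim 0 (eG a g N)) / 2

variable {a : ℝ} {g : M.Conf → ℝ}

theorem eG_nonneg (ha : 0 ≤ a) (hg : ∀ c, 0 ≤ g c) (N : ℕ) : ∀ c : M.Conf, 0 ≤ eG a g N c := by
  induction N with
  | zero =>
    intro c
    unfold eG
    split_ifs
    · exact hg c
    · exact le_rfl
  | succ N ih =>
    intro c
    unfold eG
    split_ifs
    · exact hg c
    · have h : ∀ b, 0 ≤ (M.step b c).elim 0 (eG a g N) := by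
        intro b
        cases M.step b c with
        | none => exact le_rfl
        | some c' => exact ih c'
      have h1 := h false
      have h2 := h true
      positivity

theorem eG_mono (ha : 0 ≤ a) (hg : ∀ c, 0 ≤ g c) (N : ℕ) :
    ∀ c : M.Conf, eG a g N c ≤ eG a g (N + 1) c := by
  induction N with
  | zero =>
    intro c
    have h := eG_nonneg (M := M) ha hg 1 c
    rw [eG]
    split_ifs with hc
    · rw [eG, if_pos hc]
    · exact h
  | succ N ih =>
    intro c
    rw [eG, eG]
    split_ifs
    · exact le_rfl
    · have h : ∀ b, (M.step b c).elim 0 (eG a g N) ≤ (M.step b c).elim 0 (eG a g (N + 1)) := by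
        intro b
        cases M.step b c with
        | none => exact le_rfl
        | some c' => exact ih c'
      have h1 := h false
      have h2 := h true
      linarith

theorem eG_halt (N : ℕ) {c : M.Conf} (h : c.l = none) : eG a g N c = g c := by
  cases N with
  | zero => rw [eG, if_pos h]
  | succ N => rw [eG, if_pos h]

theorem not_halted_of_step {c d : M.Conf} {b : Bool} (h : M.step b c = some d) : c.l ≠ none := by
  intro hl
  rw [step_none b hl] at h
  simp at h

theorem eG_coin_succ (N : ℕ) {c : M.Conf} {d : Bool → M.Conf} (h : ∀ b, M.step b c = some (d b)) :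
    eG a g (N + 1) c = a + (eG a g N (d false) + eG a g N (d true)) / 2 := by
  rw [eG, if_neg (not_halted_of_step (h false)), h, h]
  rfl

theorem eG_coin (ha : 0 ≤ a) (hg : ∀ c, 0 ≤ g c) (N : ℕ) {c : M.Conf} {d : Bool → M.Conf}
    (h : ∀ b, M.step b c = some (d b)) :
    eG a g N c ≤ a + (eG a g N (d false) + eG a g N (d true)) / 2 := by
  rw [← eG_coin_succ N h]
  exact eG_mono ha hg N c

theorem eG_step (ha : 0 ≤ a) (hg : ∀ c, 0 ≤ g c) (N : ℕ) {c d : M.Conf}
    (h : ∀ b, M.step b c = some d) : eG a g N c ≤ a + eG a g N d := by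
  have := eG_coin ha hg N (d := fun _ => d) h
  linarith

theorem eG_step_succ (N : ℕ) {c d : M.Conf}
    (h : ∀ b, M.step b c = some d) : eG a g (N + 1) c = a + eG a g N d := by
  have := eG_coin_succ (a := a) (g := g) N (d := fun _ => d) h
  linarith

theorem eG_seg (ha : 0 ≤ a) (hg : ∀ c, 0 ≤ g c) (N t : ℕ) : ∀ {c d : M.Conf},
    (∀ w : List Bool, w.length = t → M.run c w = some d) →
    eG a g N c ≤ a * t + eG a g N d := by
  induction t with
  | zero =>
    intro c d h
    have := h [] rfl
    rw [run_nil, Option.some.injEq] at this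
    rw [this]; simp
  | succ t ih =>
    intro c d h
    by_cases hc : c.l = none
    · have h1 := h (List.replicate (t + 1) false) (by simp)
      rw [List.replicate_succ, run_cons, step_none _ hc] at h1
      simp at h1
    · obtain ⟨c0, h0⟩ := step_some (M := M) false hc
      obtain ⟨c1, h1⟩ := step_some (M := M) true hc
      have i0 : eG a g N c0 ≤ a * t + eG a g N d := ih fun w hw => by
        have := h (false :: w) (by simp [hw])
        rw [run_cons, h0] at this
        exact this
      have i1 : eG a g N c1 ≤ a * t + eG a g N d := ih fun w hw => by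
        have := h (true :: w) (by simp [hw])
        rw [run_cons, h1] at this
        exact this
      have := eG_coin ha hg N (c := c) (d := fun b => if b then c1 else c0) (by
        intro b; cases b
        · simpa using h0
        · simpa using h1)
      simp only [Bool.false_eq_true, if_false, if_true] at this
      push_cast
      linarith

theorem eG_eq_eT (N : ℕ) : ∀ c : M.Conf, eG 1 (fun _ => 0) N c = eT N c := by
  induction N with
  | zero => intro c; simp [eG, eT]
  | succ N ih =>
    intro c
    have : eG (M := M) 1 (fun _ => 0) N = eT N := funext ih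
    rw [eG, eT, this]

theorem eG_add (g h : M.Conf → ℝ) (N : ℕ) : ∀ c : M.Conf,
    eG 0 (fun c => g c + h c) N c = eG 0 g N c + eG 0 h N c := by
  induction N with
  | zero => intro c; unfold eG; split_ifs <;> simp
  | succ N ih =>
    intro c
    rw [eG, eG, eG]
    split_ifs
    · rfl
    · have h1 : ∀ b, (M.step b c).elim 0 (eG 0 (fun c => g c + h c) N) =
        (M.step b c).elim 0 (eG 0 g N) + (M.step b c).elim 0 (eG 0 h N) := by
        intro b
        cases M.step b c with
        | none => simp
        | some c' => exact ih c'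
      rw [h1, h1]; ring

theorem eG_zero (N : ℕ) : ∀ c : M.Conf, eG 0 (fun _ => 0) N c = 0 := by
  induction N with
  | zero => intro c; simp [eG]
  | succ N ih =>
    intro c
    rw [eG]
    split_ifs
    · rfl
    · have h1 : ∀ b, (M.step b c).elim 0 (eG 0 (fun _ => 0) N) = 0 := by
        intro b
        cases M.step b c with
        | none => rfl
        | some c' => exact ih c'
      rw [h1, h1]; simp

theorem eG_sum {ι : Type} (s : Finset ι) (g : ι → M.Conf → ℝ) (N : ℕ) (c : M.Conf) :
    eG 0 (fun c => ∑ i ∈ s, g i c) N c = ∑ i ∈ s, eG 0 (g i) N c := by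
  classical
  induction s using Finset.induction_on with
  | empty => simp [eG_zero]
  | insert i s hi ih =>
    rw [Finset.sum_insert hi, ← ih, ← eG_add]
    congr 1
    funext c
    rw [Finset.sum_insert hi]

theorem eG_congr {g h : M.Conf → ℝ} (hgh : ∀ c : M.Conf, c.l = none → g c = h c) (N : ℕ) :
    ∀ c : M.Conf, eG a g N c = eG a h N c := by
  induction N with
  | zero =>
    intro c; unfold eG; split_ifs with hc
    · exact hgh c hc
    · rfl
  | succ N ih =>
    intro c
    have : eG a g N = eG a h N := funext ih
    rw [eG, eG, this]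
    split_ifs with hc
    · exact hgh c hc
    · rfl

/-- The probability of having halted, plus the probability of still running, is one. -/
theorem halted_add_running (N : ℕ) : ∀ c : M.Conf,
    eG 0 (fun _ => 1) N c + ({w : List Bool | w.length = N ∧ M.Running c w}.ncard : ℝ) / 2 ^ N
      = 1 := by
  induction N with
  | zero =>
    intro c
    rw [ncard_running_zero, eG]
    split_ifs <;> simp
  | succ N ih =>
    intro c
    rw [ncard_running_succ, eG]
    split_ifs with hc
    · rw [step_none _ hc, step_none _ hc]; simp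
    · obtain ⟨c0, h0⟩ := step_some (M := M) false hc
      obtain ⟨c1, h1⟩ := step_some (M := M) true hc
      rw [h0, h1]
      simp only [Option.elim_some]
      have i0 := ih c0
      have i1 := ih c1
      rw [pow_succ]
      have : (2 : ℝ) ^ N ≠ 0 := by positivity
      field_simp at i0 i1 ⊢
      linarith

theorem ncard_reach_zero (G : M.Conf → Prop) [DecidablePred G] (c : M.Conf) :
    {w : List Bool | w.length = 0 ∧ ∃ c', M.run c w = some c' ∧ G c'}.ncard =
      if G c then 1 else 0 := by
  split_ifs with h
  · have : {w : List Bool | w.length = 0 ∧ ∃ c', M.run c w = some c' ∧ G c'} = {[]} := by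
      ext w
      simp only [Set.mem_ofPred_eq, Set.mem_singleton_iff]
      constructor
      · exact fun hw => List.length_eq_zero_iff.1 hw.1
      · rintro rfl
        exact ⟨rfl, c, rfl, h⟩
    rw [this, Set.ncard_singleton]
  · have : {w : List Bool | w.length = 0 ∧ ∃ c', M.run c w = some c' ∧ G c'} = ∅ := by
      ext w
      simp only [Set.mem_ofPred_eq, Set.mem_empty_iff_false, iff_false, not_and]
      intro hw
      rw [List.length_eq_zero_iff] at hw
      subst hw
      rintro ⟨c', h1, h2⟩
      rw [run_nil, Option.some.injEq] at h1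
      subst h1
      exact h h2
    rw [this, Set.ncard_empty]

theorem ncard_reach_succ (G : M.Conf → Prop) (c : M.Conf) (i : ℕ) :
    ({w : List Bool | w.length = i + 1 ∧ ∃ c', M.run c w = some c' ∧ G c'}.ncard : ℝ) =
      (M.step false c).elim 0 (fun d =>
        ({w : List Bool | w.length = i ∧ ∃ c', M.run d w = some c' ∧ G c'}.ncard : ℝ))
      + (M.step true c).elim 0 (fun d =>
        ({w : List Bool | w.length = i ∧ ∃ c', M.run d w = some c' ∧ G c'}.ncard : ℝ)) := by
  have key : ∀ b, (M.step b c).elim 0 (fun d =>
      ({w : List Bool | w.length = i ∧ ∃ c', M.run d w = some c' ∧ G c'}.ncard : ℝ)) =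
      ({w : List Bool | w.length = i ∧ ∃ c', M.run c (b :: w) = some c' ∧ G c'}.ncard : ℝ) := by
    intro b
    cases h : M.step b c with
    | none =>
      have : {w : List Bool | w.length = i ∧ ∃ c', M.run c (b :: w) = some c' ∧ G c'} = ∅ := by
        ext w
        simp only [Set.mem_ofPred_eq, Set.mem_empty_iff_false, iff_false, not_and]
        rintro _ ⟨c', h1, _⟩
        rw [run_cons, h] at h1
        simp at h1
      rw [this]
      simp
    | some d =>
      simp only [Option.elim_some]
      congr 2
      ext w
      simp only [Set.mem_ofPred_eq]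
      rw [run_cons, h]
      rfl
  rw [key, key]
  have e : {w : List Bool | w.length = i + 1 ∧ ∃ c', M.run c w = some c' ∧ G c'} =
      (fun w => false :: w) '' {w : List Bool | w.length = i ∧
        ∃ c', M.run c (false :: w) = some c' ∧ G c'} ∪
      (fun w => true :: w) '' {w : List Bool | w.length = i ∧
        ∃ c', M.run c (true :: w) = some c' ∧ G c'} := by
    ext w
    simp only [Set.mem_ofPred_eq, Set.mem_union, Set.mem_image]
    constructor
    · rintro ⟨h1, h2⟩
      cases w with
      | nil => simp at h1
      | cons b w =>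
        have h3 : w.length = i := by simpa using h1
        cases b
        · left; exact ⟨w, ⟨h3, h2⟩, rfl⟩
        · right; exact ⟨w, ⟨h3, h2⟩, rfl⟩
    · rintro (⟨w', ⟨h1, h2⟩, rfl⟩ | ⟨w', ⟨h1, h2⟩, rfl⟩)
      · exact ⟨by simp [h1], h2⟩
      · exact ⟨by simp [h1], h2⟩
  have hdis : Disjoint
      ((fun w => false :: w) '' {w : List Bool | w.length = i ∧
        ∃ c', M.run c (false :: w) = some c' ∧ G c'})
      ((fun w => true :: w) '' {w : List Bool | w.length = i ∧
        ∃ c', M.run c (true :: w) = some c' ∧ G c'}) := by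
    rw [Set.disjoint_left]
    rintro w ⟨w1, _, rfl⟩ ⟨w2, _, h⟩
    simp at h
  rw [e, Set.ncard_union_eq hdis ((finite_len i _).image _) ((finite_len i _).image _),
    Set.ncard_image_of_injective _ (fun a b h => by simpa using h),
    Set.ncard_image_of_injective _ (fun a b h => by simpa using h)]
  push_cast; ring

open Classical in
theorem sum_reach (G : M.Conf → Prop) (hG : ∀ c, G c → c.l = none) (N : ℕ) : ∀ c : M.Conf,
    ∑ i ∈ Finset.range (N + 1),
      ({w : List Bool | w.length = i ∧ ∃ c', M.run c w = some c' ∧ G c'}.ncard : ℝ) / 2 ^ i =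
      eG 0 (fun c => if G c then 1 else 0) N c := by
  have h0 : ∀ c : M.Conf, c.l ≠ none → ¬ G c := fun c hc h => hc (hG c h)
  have hz : ∀ (c : M.Conf), c.l = none → ∀ i,
      ({w : List Bool | w.length = i + 1 ∧ ∃ c', M.run c w = some c' ∧ G c'}.ncard : ℝ) = 0 := by
    intro c hc i
    rw [ncard_reach_succ, step_none _ hc, step_none _ hc]
    simp
  induction N with
  | zero =>
    intro c
    rw [zero_add, Finset.sum_range_one, ncard_reach_zero, eG]
    by_cases hc : c.l = none
    · rw [if_pos hc]; split_ifs <;> simp
    · rw [if_neg hc, if_neg (h0 c hc)]; simp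
  | succ N ih =>
    intro c
    rw [Finset.sum_range_succ', ncard_reach_zero, eG]
    by_cases hc : c.l = none
    · rw [if_pos hc, Finset.sum_congr rfl (fun i _ => by rw [hz c hc i, zero_div])]
      simp
    · rw [if_neg hc, if_neg (h0 c hc)]
      obtain ⟨c0, h0⟩ := step_some (M := M) false hc
      obtain ⟨c1, h1⟩ := step_some (M := M) true hc
      rw [h0, h1]
      simp only [Option.elim_some]
      rw [← ih c0, ← ih c1, ← Finset.sum_add_distrib, Finset.sum_div]
      simp only [Nat.cast_zero, zero_div, add_zero, zero_add]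
      apply Finset.sum_congr rfl
      intro i _
      rw [ncard_reach_succ, h0, h1]
      simp only [Option.elim_some]
      rw [pow_succ]
      field_simp

/-- The probability of the output `y` on the input `x`. -/
noncomputable def outProb (M : CoinMachine) (x y : List Bool) : ENNReal :=
  ∑' i : ℕ, ({w : List Bool | w.length = i ∧ M.HaltsWith x w y}.ncard : ENNReal) / 2 ^ i

/-- halted with output `y` -/
def Out (M : CoinMachine) (y : List Bool) (c : M.Conf) : Prop :=
  letI := M.decK
  ∃ v, c = ⟨none, v, update (fun _ => []) M.out y⟩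

theorem haltsWith_iff (x w y : List Bool) :
    M.HaltsWith x w y ↔ ∃ c', M.run (M.start x) w = some c' ∧ Out M y c' := by
  unfold HaltsWith Out
  constructor
  · rintro ⟨v, h⟩
    exact ⟨_, h, v, rfl⟩
  · rintro ⟨c', h, v, rfl⟩
    exact ⟨v, h⟩

theorem Out.halted {y : List Bool} {c : M.Conf} (h : Out M y c) : c.l = none := by
  obtain ⟨v, rfl⟩ := h
  rfl

theorem Out.inj {y y' : List Bool} {c : M.Conf} (h : Out M y c) (h' : Out M y' c) : y = y' := by
  obtain ⟨v, rfl⟩ := h
  obtain ⟨v', h2⟩ := h'
  let _ := M.decK
  have h3 := congrArg (fun c : M.Conf => c.stk M.out) h2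
  simpa using h3

theorem ofReal_sum_div (f : ℕ → ℕ) (N : ℕ) :
    (∑ i ∈ Finset.range N, ((f i : ℕ) : ENNReal) / 2 ^ i) =
      ENNReal.ofReal (∑ i ∈ Finset.range N, ((f i : ℕ) : ℝ) / 2 ^ i) := by
  rw [ENNReal.ofReal_sum_of_nonneg (fun i _ => by positivity)]
  apply Finset.sum_congr rfl
  intro i _
  rw [ENNReal.ofReal_div_of_pos (by positivity), ENNReal.ofReal_natCast,
    ENNReal.ofReal_pow (by norm_num)]
  simp

open Classical in
/-- Exactness from upper bounds: if the expected time is finite, no bad configuration is reached,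
and each of the outputs has probability at most `q`, where the `q`'s add up to one, then each
output has probability exactly `q`. -/
theorem exact_of_le {x : List Bool} (Y : Finset (List Bool)) {q : ℝ} (hq : 0 ≤ q)
    (hY : Y.card * q = 1)
    (htime : M.expectedTime x ≠ ⊤)
    (hbad : ∀ N, eG 0 (fun c => if ∃ y ∈ Y, Out M y c then 0 else 1) N (M.start x) ≤ 0)
    (hup : ∀ y ∈ Y, ∀ N, eG 0 (fun c => if Out M y c then 1 else 0) N (M.start x) ≤ q) :
    ∀ y ∈ Y, outProb M x y = ENNReal.ofReal q := by
  set c := M.start x with hc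
  -- partial sums
  have hps : ∀ y N, (∑ i ∈ Finset.range (N + 1),
      ({w : List Bool | w.length = i ∧ M.HaltsWith x w y}.ncard : ENNReal) / 2 ^ i) =
      ENNReal.ofReal (eG 0 (fun c => if Out M y c then 1 else 0) N c) := by
    intro y N
    rw [ofReal_sum_div (fun i => {w : List Bool | w.length = i ∧ M.HaltsWith x w y}.ncard)]
    congr 1
    rw [← sum_reach (Out M y) (fun c h => h.halted) N c]
    simp only [haltsWith_iff]
    rfl
  have hle : ∀ y ∈ Y, outProb M x y ≤ ENNReal.ofReal q := by
    intro y hy
    unfold outProb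
    apply ENNReal.tsum_le_of_sum_range_le
    intro N
    refine le_trans (Finset.sum_le_sum_of_subset (Finset.range_mono (Nat.le_succ N))) ?_
    rw [hps y N]
    exact ENNReal.ofReal_le_ofReal (hup y hy N)
  have hge : ∀ y N, ENNReal.ofReal (eG 0 (fun c => if Out M y c then 1 else 0) N c) ≤
      outProb M x y := by
    intro y N
    rw [← hps y N]
    exact ENNReal.sum_le_tsum _
  -- the total mass
  have hrun : Filter.Tendsto (fun N => ({w : List Bool | w.length = N ∧
      M.Running c w}.ncard : ℝ) / 2 ^ N) Filter.atTop (nhds 0) := by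
    have h1 := ENNReal.tendsto_atTop_zero_of_tsum_ne_top htime
    have h2 := (ENNReal.tendsto_toReal (ENNReal.zero_ne_top)).comp h1
    simp only [ENNReal.toReal_zero] at h2
    refine h2.congr fun N => ?_
    simp [ENNReal.toReal_div, hc]
  have htot : ∀ N, (1 : ℝ) - ({w : List Bool | w.length = N ∧
      M.Running c w}.ncard : ℝ) / 2 ^ N ≤
      ∑ y ∈ Y, eG 0 (fun c => if Out M y c then 1 else 0) N c := by
    intro N
    have h1 := halted_add_running N c
    have h2 : eG (M := M) 0 (fun _ => 1) N c =
        eG 0 (fun c => if ∃ y ∈ Y, Out M y c then 0 else 1) N c +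
        ∑ y ∈ Y, eG 0 (fun c => if Out M y c then 1 else 0) N c := by
      rw [← eG_sum, ← eG_add]
      congr 1
      funext c
      split_ifs with h
      · obtain ⟨y, hy, hyc⟩ := h
        rw [zero_add, Finset.sum_eq_single y]
        · rw [if_pos hyc]
        · intro y' _ hne
          rw [if_neg]
          intro h'
          exact hne (h'.inj hyc)
        · intro h; exact absurd hy h
      · rw [Finset.sum_eq_zero, add_zero]
        intro y hy
        rw [if_neg]
        intro h'
        exact h ⟨y, hy, h'⟩
    have h3 := hbad N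
    linarith
  have hsum : 1 ≤ ∑ y ∈ Y, (outProb M x y).toReal := by
    have hfin : ∀ y ∈ Y, outProb M x y ≠ ⊤ := fun y hy =>
      ne_top_of_le_ne_top ENNReal.ofReal_ne_top (hle y hy)
    have h1 : ∀ N, (1 : ℝ) - ({w : List Bool | w.length = N ∧
        M.Running c w}.ncard : ℝ) / 2 ^ N ≤ ∑ y ∈ Y, (outProb M x y).toReal := by
      intro N
      refine (htot N).trans (Finset.sum_le_sum fun y hy => ?_)
      have h2 := hge y N
      have h3 := ENNReal.toReal_mono (hfin y hy) h2
      rwa [ENNReal.toReal_ofReal (eG_nonneg le_rfl (fun c => by split_ifs <;> norm_num) N c)] at h3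
    have h4 : Filter.Tendsto (fun N => (1 : ℝ) - ({w : List Bool | w.length = N ∧
        M.Running c w}.ncard : ℝ) / 2 ^ N) Filter.atTop (nhds (1 - 0)) :=
      tendsto_const_nhds.sub hrun
    rw [sub_zero] at h4
    exact le_of_tendsto' h4 h1
  intro y hy
  apply le_antisymm (hle y hy)
  by_contra hcon
  push Not at hcon
  have hfin : outProb M x y ≠ ⊤ := ne_top_of_le_ne_top ENNReal.ofReal_ne_top (hle y hy)
  have h1 : (outProb M x y).toReal < q := by
    rw [← ENNReal.ofReal_toReal hfin] at hcon
    exact (ENNReal.ofReal_lt_ofReal_iff_of_nonneg ENNReal.toReal_nonneg).1 hcon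
  have h2 : ∑ y ∈ Y, (outProb M x y).toReal < ∑ _y ∈ Y, q := by
    apply Finset.sum_lt_sum
    · intro y' hy'
      have := ENNReal.toReal_mono ENNReal.ofReal_ne_top (hle y' hy')
      rwa [ENNReal.toReal_ofReal hq] at this
    · exact ⟨y, hy, h1⟩
  rw [Finset.sum_const, nsmul_eq_mul, hY] at h2
  linarith

open Classical in
/-- If no bad configuration is reached with positive probability, then none is reached. -/
theorem good_of_bad_le {x : List Bool} (Y : Finset (List Bool))
    (hbad : ∀ N, eG 0 (fun c => if ∃ y ∈ Y, Out M y c then 0 else 1) N (M.start x) ≤ 0)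
    {w : List Bool} {c : M.Conf} (hw : M.run (M.start x) w = some c) (hc : c.l = none) :
    ∃ y ∈ Y, Out M y c := by
  by_contra hcon
  obtain ⟨G, hG⟩ : ∃ G : M.Conf → Prop, ∀ c, G c ↔ (c.l = none ∧ ¬ ∃ y ∈ Y, Out M y c) :=
    ⟨fun c => c.l = none ∧ ¬ ∃ y ∈ Y, Out M y c, fun c => Iff.rfl⟩
  have h1 := sum_reach G (fun c h => ((hG c).1 h).1) w.length (M.start x)
  have h2 : eG (M := M) 0 (fun c => if G c then 1 else 0) w.length (M.start x) =
      eG 0 (fun c => if ∃ y ∈ Y, Out M y c then 0 else 1) w.length (M.start x) := by
    apply eG_congr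
    intro c hc
    by_cases h : ∃ y ∈ Y, Out M y c
    · rw [if_pos h, if_neg (fun h' => ((hG c).1 h').2 h)]
    · rw [if_neg h, if_pos ((hG c).2 ⟨hc, h⟩)]
  rw [h2] at h1
  have h3 := hbad w.length
  rw [← h1] at h3
  have hfin : {w' : List Bool | w'.length = w.length ∧ ∃ c', M.run (M.start x) w' = some c' ∧
      G c'}.Finite := finite_len _ _
  have h4 : 0 < {w' : List Bool | w'.length = w.length ∧ ∃ c', M.run (M.start x) w' = some c' ∧
      G c'}.ncard := (Set.ncard_pos hfin).2 ⟨w, rfl, c, hw, (hG c).2 ⟨hc, hcon⟩⟩
  have h5 := Finset.single_le_sum (f := fun i => ({w' : List Bool | w'.length = i ∧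
      ∃ c', M.run (M.start x) w' = some c' ∧ G c'}.ncard : ℝ) / 2 ^ i)
      (fun i _ => by positivity) (Finset.mem_range.2 (Nat.lt_succ_self w.length))
  have h6 : (0 : ℝ) < ({w' : List Bool | w'.length = w.length ∧
      ∃ c', M.run (M.start x) w' = some c' ∧ G c'}.ncard : ℝ) / 2 ^ w.length := by positivity
  linarith

end general

end Pool.Agent.TH703.SST
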