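import Pool.Agent.TH703.SST.Mach
import Pool.Agent.H591R2.RawOut

/-!
# Processes whose steps are polynomial-time programs, on coin-tossing machines

A state `s` is represented by the string `head (k s) (e s)`.  In one macro step the machine tosses
`k s` coins and runs a program on the coins and `e s`; this gives an output or the next state.
-/

set_option autoImplicit false
set_option linter.unusedSectionVars false

namespace Pool.Agent.TH703.SST

open Turing Function Pool.Agent.H591R2 Pool.Agent.H591R2.CoinMachine Pool.Agent.NPC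

section

variable {N₀ : ℕ} {cA cC : Cmd (Fin (N₀ + 2))} {a : ℝ} {g : (lvMachine cA cC).Conf → ℝ}

/-- the second loop -/
theorem eG_two (ha : 0 ≤ a) (hg : ∀ c, 0 ≤ g c) (N : ℕ) : ∀ v u : List Bool,
    eG a g N (cfg cA cC 2 u v) ≤ a * (v.length + 1) +
    eG a g N (mkc cA cC (some (Sum.inr (Sum.inl cC.entry))) none
      (st2 (v.reverse.flatMap (fun b => [true, b]) ++ u) [])) := by
  intro v
  induction v with
  | nil =>
    intro u
    have := eG_step ha hg N (fun b => step_two_nil cA cC b u)
    simpa using this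
  | cons b v ih =>
    intro u
    have h1 := eG_step ha hg N (fun x => step_two_cons cA cC x b u v)
    have h2 := ih (true :: b :: u)
    have e : v.reverse.flatMap (fun b => [true, b]) ++ true :: b :: u =
        (b :: v).reverse.flatMap (fun b => [true, b]) ++ u := by simp
    rw [e] at h2
    push_cast [List.length_cons]
    linarith

/-- the tossing loop -/
theorem eG_toss (ha : 0 ≤ a) (hg : ∀ c, 0 ≤ g c) (N : ℕ) (x' : List Bool) :
    ∀ (j : ℕ) (acc : List Bool), eG a g N (cfg cA cC 1 (head j x') acc) ≤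
      a * j + avg j (fun l => eG a g N (cfg cA cC 1 (false :: x') l)) acc := by
  intro j
  induction j with
  | zero => intro acc; simp [head, avg]
  | succ j ih =>
    intro acc
    have h1 := eG_coin ha hg N (fun b => step_one_true cA cC b (head j x') acc)
    have h2 := ih (false :: acc)
    have h3 := ih (true :: acc)
    have e : true :: head j x' = head (j + 1) x' := rfl
    rw [e] at h1
    unfold avg
    push_cast
    linarith

/-- A process on states `σ`, realized by the program `cC`. -/
structure Proc (cC : Cmd (Fin (N₀ + 2))) (σ : Type) where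
  /-- the number of coins -/
  k : σ → ℕ
  /-- the code of a state -/
  e : σ → List Bool
  /-- the result of a macro step, given the number coded by the coins -/
  F : σ → ℕ → List Bool ⊕ σ
  /-- the invariant -/
  I : σ → Prop
  /-- the time for a macro step of the program -/
  τ : σ → ℕ
  /-- the invariant is preserved -/
  inv : ∀ s, I s → ∀ R s', F s R = Sum.inr s' → I s'
  /-- the program computes the macro step -/
  run : ∀ s, I s → ∀ r : List Bool, r.length = k s → ∃ t ≤ τ s, Run cC (inp (pairBits r (e s)))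
    (inp (match F s (valB r) with
      | Sum.inl y => true :: y
      | Sum.inr s' => false :: head (k s') (e s'))) t

variable {σ : Type}

/-- the configuration of the machine at the beginning of a macro step -/
def Proc.at (P : Proc cC σ) (cA : Cmd (Fin (N₀ + 2))) (s : σ) : (lvMachine cA cC).Conf :=
  cfg cA cC 1 (head (P.k s) (P.e s)) []

/-- the halted configuration with output `y` -/
def haltc (cA cC : Cmd (Fin (N₀ + 2))) (y : List Bool) : (lvMachine cA cC).Conf :=
  mkc cA cC none none (st2 y [])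

theorem eG_body (P : Proc cC σ) (ha : 0 ≤ a) (hg : ∀ c, 0 ≤ g c) (N : ℕ) {s : σ} (hs : P.I s)
    {l : List Bool} (hl : l.length = P.k s) :
    eG a g (N + 1) (cfg cA cC 1 (false :: P.e s) l) ≤ a * (P.k s + 3 + P.τ s) +
      (match P.F s (valB l.reverse) with
        | Sum.inl y => g (haltc cA cC y)
        | Sum.inr s' => eG a g N (P.at cA s')) := by
  have h1 := eG_step_succ (a := a) (g := g) N (fun b => step_one_false cA cC b (P.e s) l)
  have h2 := eG_two (cA := cA) (cC := cC) ha hg N l (false :: P.e s)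
  rw [pairBits_eq, hl] at h2
  obtain ⟨t, ht, hrun⟩ := P.run s hs l.reverse (by simpa using hl)
  rw [inp_eq, inp_eq] at hrun
  obtain ⟨v', hseg⟩ := code_seg hrun (lvProg cA cC) (fun l => Sum.inr (Sum.inl l)) (ctl cA cC 3)
    (fun _ _ => rfl) none
  have h3 := eG_seg ha hg N t (seg_run cA cC hseg)
  have ht' : a * (t : ℝ) ≤ a * P.τ s := mul_le_mul_of_nonneg_left (by exact_mod_cast ht) ha
  cases hF : P.F s (valB l.reverse) with
  | inl y =>
    rw [hF] at h3
    simp only at h3 ⊢
    have h4 := eG_step ha hg N (fun b => step_three_true cA cC b v' y)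
    rw [eG_halt N (c := mkc cA cC none none (st2 y [])) rfl] at h4
    change _ ≤ _ + g (mkc cA cC none none (st2 y []))
    linarith
  | inr s' =>
    rw [hF] at h3
    simp only at h3 ⊢
    have h4 := eG_step ha hg N (fun b => step_three_false cA cC b v' (head (P.k s') (P.e s')))
    change _ ≤ _ + eG a g N (cfg cA cC 1 (head (P.k s') (P.e s')) [])
    linarith

theorem eG_macro (P : Proc cC σ) (ha : 0 ≤ a) (hg : ∀ c, 0 ≤ g c) (N : ℕ) {s : σ} (hs : P.I s) :
    eG a g (N + 1) (P.at cA s) ≤ a * (2 * P.k s + 3 + P.τ s) +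
      (∑ R ∈ Finset.range (2 ^ P.k s), (match P.F s R with
        | Sum.inl y => g (haltc cA cC y)
        | Sum.inr s' => eG a g N (P.at cA s'))) / 2 ^ P.k s := by
  have h1 := eG_toss (cA := cA) (cC := cC) ha hg (N + 1) (P.e s) (P.k s) []
  set G : ℕ → ℝ := fun R => a * (P.k s + 3 + P.τ s) + (match P.F s R with
        | Sum.inl y => g (haltc cA cC y)
        | Sum.inr s' => eG a g N (P.at cA s')) with hG
  have h2 : avg (P.k s) (fun l => eG a g (N + 1) (cfg cA cC 1 (false :: P.e s) l)) [] ≤
      avg (P.k s) (fun l => G (valB l.reverse)) [] := by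
    apply avg_mono
    intro l hl
    exact eG_body P ha hg N hs (by simpa using hl)
  rw [avg_num] at h2
  simp only [List.reverse_nil, valB_nil, List.length_nil, pow_zero, one_mul, zero_add] at h2
  rw [hG] at h2
  simp only at h2
  rw [Finset.sum_add_distrib, Finset.sum_const, Finset.card_range, nsmul_eq_mul, add_div] at h2
  have h3 : ((2 ^ P.k s : ℕ) : ℝ) * (a * (P.k s + 3 + P.τ s)) / 2 ^ P.k s =
      a * (P.k s + 3 + P.τ s) := by
    push_cast
    field_simp
  rw [h3] at h2
  change eG a g (N + 1) (cfg cA cC 1 (head (P.k s) (P.e s)) []) ≤ _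
  linarith

/-- **The potential method.** -/
theorem Proc.bound (P : Proc cC σ) (ha : 0 ≤ a) (hg : ∀ c, 0 ≤ g c) (Φ : σ → ℝ)
    (hΦ0 : ∀ s, P.I s → 0 ≤ Φ s)
    (hΦ : ∀ s, P.I s → a * (2 * P.k s + 3 + P.τ s) +
      (∑ R ∈ Finset.range (2 ^ P.k s), (match P.F s R with
        | Sum.inl y => g (haltc cA cC y)
        | Sum.inr s' => Φ s')) / 2 ^ P.k s ≤ Φ s) (N : ℕ) :
    ∀ s, P.I s → eG a g N (P.at cA s) ≤ Φ s := by
  induction N with
  | zero =>
    intro s hs
    have : eG a g 0 (P.at cA s) = 0 := by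
      rw [eG, if_neg]
      exact fun h => by cases h
    rw [this]
    exact hΦ0 s hs
  | succ N ih =>
    intro s hs
    refine (eG_macro P ha hg N hs).trans (le_trans ?_ (hΦ s hs))
    gcongr with R hR
    cases hF : P.F s R with
    | inl y => exact le_rfl
    | inr s' => exact ih s' (P.inv s hs R s' hF)

/-- the start -/
theorem Proc.bound_start (P : Proc cC σ) (ha : 0 ≤ a) (hg : ∀ c, 0 ≤ g c) (Φ : σ → ℝ)
    (hΦ0 : ∀ s, P.I s → 0 ≤ Φ s)
    (hΦ : ∀ s, P.I s → a * (2 * P.k s + 3 + P.τ s) +
      (∑ R ∈ Finset.range (2 ^ P.k s), (match P.F s R with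
        | Sum.inl y => g (haltc cA cC y)
        | Sum.inr s' => Φ s')) / 2 ^ P.k s ≤ Φ s) {x : List Bool} {s : σ} (hs : P.I s) {tA : ℕ}
    (hA : Run cA (inp x) (inp (head (P.k s) (P.e s))) tA) (N : ℕ) :
    eG a g N ((lvMachine cA cC).start x) ≤ a * (tA + 1) + Φ s := by
  obtain ⟨v', hseg⟩ := code_seg hA (lvProg cA cC) Sum.inl (ctl cA cC 0) (fun _ _ => rfl) none
  have h1 := eG_seg ha hg N tA (seg_run cA cC hseg)
  rw [inp_eq (head (P.k s) (P.e s))] at h1
  have h2 := eG_step ha hg N (fun b => step_zero cA cC b v' (head (P.k s) (P.e s)))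
  have h3 := P.bound (cA := cA) ha hg Φ hΦ0 hΦ N s hs
  change eG a g N (cfg cA cC 1 (head (P.k s) (P.e s)) []) ≤ _ at h3
  rw [start_eq]
  linarith

/-- the same with `Sum.elim` -/
theorem Proc.bound_start' (P : Proc cC σ) (ha : 0 ≤ a) (hg : ∀ c, 0 ≤ g c) (Φ : σ → ℝ)
    (hΦ0 : ∀ s, P.I s → 0 ≤ Φ s)
    (hΦ : ∀ s, P.I s → a * (2 * P.k s + 3 + P.τ s) +
      (∑ R ∈ Finset.range (2 ^ P.k s), (P.F s R).elim (fun y => g (haltc cA cC y)) Φ) / 2 ^ P.k s
        ≤ Φ s) {x : List Bool} {s : σ} (hs : P.I s) {tA : ℕ}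
    (hA : Run cA (inp x) (inp (head (P.k s) (P.e s))) tA) (N : ℕ) :
    eG a g N ((lvMachine cA cC).start x) ≤ a * (tA + 1) + Φ s := by
  refine P.bound_start ha hg Φ hΦ0 ?_ hs hA N
  intro s hs
  refine le_trans (le_of_eq ?_) (hΦ s hs)
  congr 2
  apply Finset.sum_congr rfl
  intro R _
  cases P.F s R <;> rfl

theorem out_haltc (y : List Bool) : Out (lvMachine cA cC) y (haltc cA cC y) := by
  refine ⟨none, ?_⟩
  unfold haltc
  rw [st2_nil]
  rfl

theorem out_haltc_iff {y y' : List Bool} : Out (lvMachine cA cC) y' (haltc cA cC y) ↔ y' = y :=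
  ⟨fun h => h.inj (out_haltc y), by rintro rfl; exact out_haltc _⟩

end

end Pool.Agent.TH703.SST
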