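import Pool.Agent.TH703.SST.Law
import Pool.Agent.TH703.SST.Macro

/-!
# The sampler as a process
-/

set_option autoImplicit false
set_option linter.unusedSectionVars false

namespace Pool.Agent.NPC.T703

open Finset Pool.Agent.H670R2 Pool.Agent.TH703.SST Pool.Agent.H591R2
  Pool.Agent.H591R2.CoinMachine Pool.Agent.NPC.R591

theorem poly_bits {α : Type} [TEnc α] : Poly (fun a : α => bits a) := by
  have h1 : PC (bits : α → List Bool) (fun x : List Bool => x) (fun a : α => bits a) :=
    PC.id (ea := (bits : α → List Bool))
  exact PC.comp (g := fun x => x) (f := fun a : α => bits a) PC.rawIn h1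

theorem poly_head {α : Type} [TEnc α] {k : α → ℕ} {x : α → List Bool} (hk : UPoly k)
    (hx : Poly x) : Poly (fun a => head (k a) (x a)) := by
  unfold head
  have h1 : Poly (fun a => (List.replicate (k a) ()).map (fun _ => true)) :=
    Poly.map (F := fun _ _ => true) hk (Poly.const true)
  have h2 : Poly (fun a => List.replicate (k a) true) := h1.congr fun a => by simp
  exact Poly.append h2 (Poly.cons (Poly.const false) hx)

/-- the coded result of a macro step -/
def res (o : List (List ℕ) ⊕ St) : List Bool :=
  o.elim (fun Y => true :: bits Y) fun s' => false :: head (kk s') (bits s')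

/-- a macro step as a function of strings -/
def body (x : List Bool) : List Bool :=
  (unbits St (unpair x).2).elim [] fun s => res (FF s (valB (unpair x).1))

/-- the first state -/
def st0 (L : List (List ℕ)) : St := (0, [], L)

/-- the preparation as a function of strings -/
def start0 (x : List Bool) : List Bool :=
  (unbits (List (List ℕ)) x).elim [] fun L => head (kk (st0 L)) (bits (st0 L))

theorem poly_res {α : Type} [TEnc α] {o : α → List (List ℕ) ⊕ St} (ho : Poly o) :
    Poly (fun a => res (o a)) := by
  unfold res
  refine Poly.sumElim (g := fun _ Y => true :: bits Y)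
    (h := fun _ s' => false :: head (kk s') (bits s')) ho ?_ ?_
  · exact Poly.cons (Poly.const true) (poly_bits.comp (Poly.snd Poly.id))
  · exact Poly.cons (Poly.const false) (poly_head (uPoly_kk (Poly.snd Poly.id))
      (poly_bits.comp (Poly.snd Poly.id)))

theorem poly_body : Poly body := by
  unfold body
  have h0 : Poly (fun y : List Bool => unpair y) := poly_unpair
  have h1 : Poly (fun y : List Bool => (unpair y).1) := Poly.fst h0
  have h2 : Poly (fun y : List Bool => (unpair y).2) := Poly.snd h0
  refine Poly.optElim (g := fun _ => ([] : List Bool))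
    (h := fun (x : List Bool) (s : St) => res (FF s (valB (unpair x).1)))
    (poly_unbits.comp h2) (Poly.const []) ?_
  exact poly_res (poly_FF (Poly.snd Poly.id) (Poly.valBits (h1.comp (Poly.fst Poly.id))))

theorem poly_start0 : Poly start0 := by
  unfold start0
  refine Poly.optElim (g := fun _ => ([] : List Bool))
    (h := fun (_ : List Bool) (L : List (List ℕ)) => head (kk (st0 L)) (bits (st0 L)))
    poly_unbits (Poly.const []) ?_
  have h1 : Poly (fun p : List Bool × List (List ℕ) => st0 p.2) :=
    Poly.pair (Poly.const 0) (Poly.pair (Poly.const []) (Poly.snd Poly.id))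
  exact poly_head (uPoly_kk h1) (poly_bits.comp h1)

theorem body_eq (s : St) (r : List Bool) : body (pairBits r (bits s)) = res (FF s (valB r)) := by
  unfold body
  rw [unpair_pairBits, unbits_bits]
  rfl

theorem start0_eq (L : List (List ℕ)) : start0 (bits L) = head (kk (st0 L)) (bits (st0 L)) := by
  unfold start0
  rw [unbits_bits]
  rfl

theorem length_pairBits (r x : List Bool) : (pairBits r x).length = 2 * r.length + 1 + x.length := by
  unfold pairBits
  simp only [List.length_append, List.length_flatMap, List.length_cons]
  simp only [List.length_nil, List.map_const', List.sum_replicate, smul_eq_mul]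
  ring

/-- the invariant, for the complex `L` -/
def Inv (L : List (List ℕ)) (s : St) : Prop :=
  s.2.2 = L ∧ ((s.1 = 0 ∧ s.2.1.length = 0) ∨
    (s.2.1.length * 2 ^ s.1 = 2 ^ (cols L).length ∧ s.1 ≤ (cols L).length))

theorem Inv.step {L : List (List ℕ)} {s : St} (hs : Inv L s) {R : ℕ} {s' : St}
    (h : FF s R = Sum.inr s') : Inv L s' ∧ s'.2.1.length ≠ 0 := by
  obtain ⟨rfl, hs⟩ := hs
  unfold FF at h
  simp only at h
  split_ifs at h with h1 h2 h3
  · rw [Sum.inr.injEq] at h
    subst h
    exact ⟨⟨rfl, Or.inr ⟨by simp, le_rfl⟩⟩, by simp⟩
  · cases hp : pick (wts (cols s.2.2) s.2.1.length) R with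
    | none =>
      rw [hp] at h
      simp only [Option.elim_none, Sum.inr.injEq] at h
      subst h
      exact ⟨⟨rfl, hs⟩, h1⟩
    | some U => rw [hp] at h; simp at h
  · rw [Sum.inr.injEq] at h
    subst h
    rcases hs with hs | ⟨h4, h5⟩
    · exact absurd hs.1 h3
    · refine ⟨⟨rfl, Or.inr ⟨?_, ?_⟩⟩, ?_⟩
      · simp only [List.length_append]
        rw [← h4]
        obtain ⟨i, hi⟩ : ∃ i, s.1 = i + 1 := ⟨s.1 - 1, by omega⟩
        rw [hi, Nat.add_sub_cancel, pow_succ]
        ring
      · simp only; omega
      · simp only [List.length_append]; omega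

section

variable {N₀ : ℕ} {cC : Cmd (Fin (N₀ + 2))} {pC : Polynomial ℕ}

/-- the sampler -/
def sampler (hC : ∀ x, ∃ t ≤ pC.eval x.length, Run cC (inp x) (inp (body x)) t)
    (L : List (List ℕ)) : Proc cC St where
  k := kk
  e := bits
  F := fun s R => (FF s R).elim (fun Y => Sum.inl (bits Y)) Sum.inr
  I := Inv L
  τ := fun s => pC.eval (2 * kk s + 1 + sz s)
  inv := by
    intro s hs R s' h
    cases hF : FF s R with
    | inl Y => rw [hF] at h; simp at h
    | inr s'' =>
      rw [hF] at h
      simp only [Sum.elim_inr, Sum.inr.injEq] at h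
      subst h
      exact (hs.step hF).1
  run := by
    intro s _ r hr
    obtain ⟨t, ht, hrun⟩ := hC (pairBits r (bits s))
    rw [length_pairBits, hr, bits_length] at ht
    refine ⟨t, ht, ?_⟩
    rw [body_eq] at hrun
    cases hF : FF s (valB r) with
    | inl Y => rw [hF] at hrun; exact hrun
    | inr s' => rw [hF] at hrun; exact hrun

theorem cols_length (L : List (List ℕ)) : ∀ c ∈ cols L, c.length = (lows L).length := by
  intro c hc
  unfold cols at hc
  rw [List.mem_map] at hc
  obtain ⟨F, _, rfl⟩ := hc
  simp

/-- the bases of the complex -/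
noncomputable abbrev Bs (L : List (List ℕ)) : Finset (Finset (Fin (cols L).length)) := BB (lows L).length (cols L)

/-- the coded output for a set of faces -/
def outS (L : List (List ℕ)) (S : Finset (Fin (cols L).length)) : List Bool := bits (outL L (toX S))

theorem outS_toS (L : List (List ℕ)) {X : List Bool} (hX : X.length = (cols L).length) :
    outS L (toS (cols L).length X) = bits (outL L X) := by
  unfold outS
  rw [toX_toS hX]

/-- the potential -/
noncomputable def Pot (L : List (List ℕ)) (a WA W : ℝ) (G : Finset (Fin (cols L).length) → ℝ)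
    (s : St) : ℝ :=
  if s.2.1.length = 0 then mean (lows L).length (cols L) G +
    a * (WA + ((cols L).length + 2 ^ (cols L).length) * W / 2 ^ DD (cols L))
  else rho (lows L).length (cols L) G + a * ((s.1 + 2 ^ (cols L).length) * W)

theorem mean_nonneg {q : ℕ} {M : List (List ℤ)} {G : Finset (Fin M.length) → ℝ}
    (hG : ∀ S, 0 ≤ G S) : 0 ≤ mean q M G := by
  unfold mean
  have := sum_nonneg (s := BB q M) (fun S _ => hG S)
  positivity

theorem rho_nonneg {q : ℕ} {M : List (List ℤ)} {G : Finset (Fin M.length) → ℝ}
    (hG : ∀ S, 0 ≤ G S) : 0 ≤ rho q M G := by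
  unfold rho
  have := sum_nonneg (s := BB q M) (f := fun S => (aw q M S : ℝ) * G S) (fun S _ => by
    have := hG S
    positivity)
  positivity

/-- **The main estimate for the sampler.** -/
theorem sampler_bound (hC : ∀ x, ∃ t ≤ pC.eval x.length, Run cC (inp x) (inp (body x)) t)
    (L : List (List ℕ)) {cA : Cmd (Fin (N₀ + 2))} {a : ℝ} (ha : 0 ≤ a)
    {g : (lvMachine cA cC).Conf → ℝ} (hg : ∀ c, 0 ≤ g c) {WA W : ℝ}
    (hWA : ∀ s, Inv L s → s.2.1.length = 0 → (2 * kk s + 3 + pC.eval (2 * kk s + 1 + sz s) : ℕ) ≤ WA)
    (hW : ∀ s, Inv L s → s.2.1.length ≠ 0 →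
      (2 * kk s + 3 + pC.eval (2 * kk s + 1 + sz s) : ℕ) ≤ W)
    (hWA0 : 0 ≤ WA) (hW0 : 0 ≤ W)
    {x : List Bool} {tA : ℕ}
    (hA : Run cA (inp x) (inp (head (kk (st0 L)) (bits (st0 L)))) tA) (N : ℕ) :
    eG a g N ((lvMachine cA cC).start x) ≤ a * (tA + 1) +
      (mean (lows L).length (cols L) (fun S => g (haltc cA cC (outS L S))) +
      a * (WA + ((cols L).length + 2 ^ (cols L).length) * W / 2 ^ DD (cols L))) := by
  set G : Finset (Fin (cols L).length) → ℝ := fun S => g (haltc cA cC (outS L S)) with hG
  have hq := cols_length L
  have hG0 : ∀ S, 0 ≤ G S := fun S => hg _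
  have e0 : mean (lows L).length (cols L) G +
      a * (WA + ((cols L).length + 2 ^ (cols L).length) * W / 2 ^ DD (cols L)) =
      Pot L a WA W G (st0 L) := by
    unfold Pot st0
    simp
  rw [e0]
  refine (sampler hC L).bound_start' ha hg (Pot L a WA W G) ?_ ?_ (s := st0 L) ?_ hA N
  · intro s _
    have h1 := mean_nonneg (q := (lows L).length) hG0
    have h2 := rho_nonneg (q := (lows L).length) hG0
    unfold Pot
    split_ifs <;> positivity
  · intro s hs
    change a * (2 * (kk s : ℝ) + 3 + (pC.eval (2 * kk s + 1 + sz s) : ℕ)) +
      (∑ R ∈ range (2 ^ kk s), ((FF s R).elim (fun Y => Sum.inl (bits Y)) Sum.inr).elim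
        (fun y => g (haltc cA cC y)) (Pot L a WA W G)) / 2 ^ kk s ≤ Pot L a WA W G s
    obtain ⟨hsL, hs'⟩ := id hs
    have hm : ∀ R, ((FF s R).elim (fun Y => (Sum.inl (bits Y) : List Bool ⊕ St)) Sum.inr).elim
        (fun y => g (haltc cA cC y)) (Pot L a WA W G) =
        (FF s R).elim (fun Y => g (haltc cA cC (bits Y))) (Pot L a WA W G) := by
      intro R
      cases FF s R <;> rfl
    rw [sum_congr rfl (fun R _ => hm R)]
    by_cases h0 : s.2.1.length = 0
    · -- first phase
      have hcost := hWA s hs h0
      have hk : kk s = DD (cols L) + (1 + 2 * (cols L).length.size) * tt (cols L) := by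
        unfold kk
        simp only
        rw [if_pos h0, hsL]
      have h1 : ∀ R ∈ range (2 ^ kk s),
          (FF s R).elim (fun Y => g (haltc cA cC (bits Y))) (Pot L a WA W G) =
          if R % 2 ^ DD (cols L) = 2 ^ DD (cols L) - 1 then rho (lows L).length (cols L) G +
            a * (((cols L).length + 2 ^ (cols L).length) * W) else
          G (toS (cols L).length (runL (cols L) (tt (cols L)) (R / 2 ^ DD (cols L))
            (gre (cols L)))) := by
        intro R _
        unfold FF
        simp only
        rw [if_pos h0, hsL]
        split_ifs with h2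
        · simp only [Sum.elim_inr]
          unfold Pot
          simp
        · simp only [Sum.elim_inl]
          rw [hG]
          simp only
          rw [outS_toS L (by rw [runL_length, length_gre])]
      rw [sum_congr rfl h1, hk, phaseA hq]
      unfold Pot
      rw [if_pos h0]
      rw [mul_div_cancel_left₀ _ (by positivity)]
      rw [← hk]
      have h3 : a * (2 * (kk s : ℝ) + 3 + (pC.eval (2 * kk s + 1 + sz s) : ℕ)) ≤ a * WA := by
        refine mul_le_mul_of_nonneg_left ?_ ha
        refine le_trans (le_of_eq ?_) hcost
        push_cast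
        ring
      have h4 : a * (((cols L).length + 2 ^ (cols L).length) * W) / 2 ^ DD (cols L) =
        a * (((cols L).length + 2 ^ (cols L).length) * W / 2 ^ DD (cols L)) := by ring
      rw [h4]
      linarith
    · have hcost := hW s hs h0
      have h3 : a * (2 * (kk s : ℝ) + 3 + (pC.eval (2 * kk s + 1 + sz s) : ℕ)) ≤ a * W := by
        refine mul_le_mul_of_nonneg_left ?_ ha
        refine le_trans (le_of_eq ?_) hcost
        push_cast
        ring
      have hs2 : s.2.1.length * 2 ^ s.1 = 2 ^ (cols L).length ∧ s.1 ≤ (cols L).length := by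
        rcases hs' with h | h
        · exact absurd h.2 h0
        · exact h
      by_cases h1 : s.1 = 0
      · -- correction
        have hpad : s.2.1.length = 2 ^ (cols L).length := by
          have := hs2.1
          rwa [h1, pow_zero, mul_one] at this
        have hk : kk s = (cols L).length + (1 + 2 * (cols L).length.size) * tt (cols L) := by
          unfold kk
          simp only
          rw [if_neg h0, if_pos h1, hsL]
        have h2 : ∀ R ∈ range (2 ^ kk s),
            (FF s R).elim (fun Y => g (haltc cA cC (bits Y))) (Pot L a WA W G) =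
            (pick (wts (cols L) (2 ^ (cols L).length)) R).elim (rho (lows L).length (cols L) G +
              a * (2 ^ (cols L).length * W)) fun U =>
              G (toS (cols L).length (maskOf (cols L).length U)) := by
          intro R _
          unfold FF
          simp only
          rw [if_neg h0, if_pos h1, hsL, hpad]
          cases pick (wts (cols L) (2 ^ (cols L).length)) R with
          | none =>
            simp only [Option.elim_none, Sum.elim_inr]
            unfold Pot
            rw [if_neg h0, h1]
            simp
          | some U =>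
            simp only [Option.elim_some, Sum.elim_inl]
            rw [hG]
            simp only
            rw [outS_toS L (maskOf_length _ _)]
        rw [sum_congr rfl h2, hk, phaseC hq]
        unfold Pot
        rw [if_neg h0]
        rw [mul_div_cancel_left₀ _ (by positivity)]
        rw [← hk, h1]
        have hN := BB_card_pos hq
        have hN' : (1 : ℝ) ≤ ((BB (lows L).length (cols L)).card : ℝ) := by exact_mod_cast hN
        have h5 : (1 - ((BB (lows L).length (cols L)).card : ℝ) / 2 ^ (cols L).length) *
            (a * (2 ^ (cols L).length * W)) = a * (2 ^ (cols L).length * W) -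
            (a * W) * (BB (lows L).length (cols L)).card := by
          field_simp
        rw [h5]
        have h6 : a * W ≤ (a * W) * (BB (lows L).length (cols L)).card :=
          le_mul_of_one_le_right (by positivity) hN'
        simp only [Nat.cast_zero, zero_add]
        linarith
      · -- padding
        have hk : kk s = 0 := by
          unfold kk
          simp only
          rw [if_neg h0, if_neg h1]
        have h2 : (FF s 0).elim (fun Y => g (haltc cA cC (bits Y))) (Pot L a WA W G) =
            rho (lows L).length (cols L) G +
              a * ((((s.1 - 1 : ℕ) : ℝ) + 2 ^ (cols L).length) * W) := by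
          unfold FF
          simp only
          rw [if_neg h0, if_neg h1]
          simp only [Sum.elim_inr]
          unfold Pot
          simp only [List.length_append]
          rw [if_neg (by omega)]
        rw [hk] at h3
        rw [hk]
        simp only [pow_zero, range_one, sum_singleton, div_one]
        rw [h2]
        unfold Pot
        rw [if_neg h0]
        have h6 : ((s.1 - 1 : ℕ) : ℝ) = (s.1 : ℝ) - 1 := by
          rw [Nat.cast_sub (by omega)]
          simp
        rw [h6]
        nlinarith [h3]
  · exact ⟨rfl, Or.inl ⟨rfl, rfl⟩⟩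

end

end Pool.Agent.NPC.T703
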