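import Pool.Agent.TH703.SST.Exact
import Pool.Agent.TH703.SST.Defs

/-!
# Simplicial complexes and their spanning trees
-/

set_option autoImplicit false
set_option linter.unusedSectionVars false

namespace Pool.Agent.NPC.T703

open Finset Pool.Agent.H670R2 Pool.Agent.TH703.SST Pool.Agent.H591R2
  Pool.Agent.H591R2.CoinMachine Pool.Agent.NPC.R591

theorem del_aux (F : List ℕ) : ∀ n i : ℕ,
    (((F.zipIdx n).filter fun p => decide (p.2 ≠ n + i)).map fun p => p.1) = F.eraseIdx i := by
  induction F with
  | nil => intro n i; simp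
  | cons a F ih =>
    intro n i
    rw [List.zipIdx_cons, List.filter_cons]
    cases i with
    | zero =>
      simp only [add_zero, ne_eq, not_true_eq_false, decide_false, Bool.false_eq_true, if_false,
        List.eraseIdx_zero, List.tail_cons]
      have h1 : (F.zipIdx (n + 1)).filter (fun p => decide (¬ p.2 = n)) = F.zipIdx (n + 1) := by
        rw [List.filter_eq_self]
        intro p hp
        have := List.le_snd_of_mem_zipIdx hp
        simp only [decide_eq_true_eq]
        omega
      rw [h1]
      have : (fun p : ℕ × ℕ => p.1) = Prod.fst := rfl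
      rw [this, List.zipIdx_map_fst]
    | succ i =>
      have h2 : decide ((a, n).2 ≠ n + (i + 1)) = true := by
        rw [decide_eq_true_iff]; simp
      rw [if_pos h2, List.map_cons, List.eraseIdx_cons_succ]
      have := ih (n + 1) i
      rw [show n + 1 + i = n + (i + 1) by ring] at this
      rw [this]

theorem del_eq (F : List ℕ) (i : ℕ) : del F i = F.eraseIdx i := by
  have := del_aux F 0 i
  rw [zero_add] at this
  exact this

theorem sg_eq (i : ℕ) : ((sg i : ℤ) : ℚ) = (-1) ^ i := by
  unfold sg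
  rcases Nat.even_or_odd i with h | h
  · rw [if_pos (Nat.even_iff.1 h), h.neg_one_pow]; simp
  · rw [if_neg (by rw [Nat.odd_iff.1 h]; norm_num), h.neg_one_pow]; simp

theorem bd_apply (F G : List ℕ) : bd F G = ((incL F G : ℤ) : ℚ) := by
  have h : ∀ (K : ℕ) (f : ℕ → ℤ), ((((List.range K).map f).sum : ℤ) : ℚ) =
      ∑ i ∈ range K, (f i : ℚ) := by
    intro K f
    induction K with
    | zero => simp
    | succ K ih =>
      rw [List.range_succ, List.map_append, List.sum_append, sum_range_succ, Int.cast_add, ih]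
      simp
  unfold bd incL
  rw [h, Finsupp.finsetSum_apply]
  apply sum_congr rfl
  intro i _
  rw [Finsupp.single_apply, del_eq]
  by_cases hG : F.eraseIdx i = G
  · rw [if_pos hG, if_pos hG, sg_eq]
  · rw [if_neg hG, if_neg hG]; simp

theorem tp_le {L : List (List ℕ)} {n : ℕ} (h : ∀ F ∈ L, F.length ≤ n) : tp L ≤ n := by
  unfold tp
  induction L with
  | nil => simp
  | cons F L ih =>
    simp only [List.map_cons, List.foldr_cons]
    exact max_le (h F List.mem_cons_self) (ih fun G hG => h G (List.mem_cons_of_mem _ hG))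

theorem le_tp {L : List (List ℕ)} {F : List ℕ} (hF : F ∈ L) : F.length ≤ tp L := by
  unfold tp
  induction L with
  | nil => simp at hF
  | cons G L ih =>
    simp only [List.map_cons, List.foldr_cons]
    rcases List.mem_cons.1 hF with rfl | h
    · exact le_max_left _ _
    · exact (ih h).trans (le_max_right _ _)

theorem tp_eq {L : List (List ℕ)} {d : ℕ} (h : IsDim L d) : tp L = d + 1 := by
  obtain ⟨⟨F, hF, hd⟩, h2⟩ := h
  apply le_antisymm (tp_le h2)
  rw [← hd]
  exact le_tp hF

section

variable {L : List (List ℕ)} {d : ℕ}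

theorem mem_tops (hd : IsDim L d) {F : List ℕ} : F ∈ tops L ↔ F ∈ L ∧ F.length = d + 1 := by
  unfold tops
  rw [List.mem_filter, decide_eq_true_iff, tp_eq hd]

theorem mem_lows (hd : IsDim L d) {F : List ℕ} : F ∈ lows L ↔ F ∈ L ∧ F.length = d := by
  unfold lows
  rw [List.mem_filter, decide_eq_true_iff, tp_eq hd]
  constructor
  · rintro ⟨h1, h2⟩; exact ⟨h1, by omega⟩
  · rintro ⟨h1, h2⟩; exact ⟨h1, by omega⟩

/-- the coordinates on the faces of dimension `d - 1` -/
noncomputable def crd (L : List (List ℕ)) : (List ℕ →₀ ℚ) →ₗ[ℚ] (Fin (lows L).length → ℚ) where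
  toFun x := fun j => x ((lows L).get j)
  map_add' x y := by funext j; simp
  map_smul' a x := by funext j; simp

/-- the chains of dimension `d - 1` -/
noncomputable def chn (L : List (List ℕ)) : Submodule ℚ (List ℕ →₀ ℚ) :=
  Finsupp.supported ℚ ℚ {G | G ∈ lows L}

theorem crd_inj {x y : List ℕ →₀ ℚ} (hx : x ∈ chn L) (hy : y ∈ chn L) (h : crd L x = crd L y) :
    x = y := by
  unfold chn at hx hy
  rw [Finsupp.mem_supported'] at hx hy
  ext G
  by_cases hG : G ∈ lows L
  · obtain ⟨j, hj⟩ := List.get_of_mem hG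
    have := congrFun h j
    change x ((lows L).get j) = y ((lows L).get j) at this
    rwa [hj] at this
  · rw [hx G hG, hy G hG]

theorem bd_mem (hL : IsComplex L) (hd : IsDim L d) (h1 : 1 ≤ d) {F : List ℕ} (hF : F ∈ tops L) :
    bd F ∈ chn L := by
  rw [mem_tops hd] at hF
  unfold bd chn
  apply Submodule.sum_mem
  intro i hi
  rw [mem_range] at hi
  apply Finsupp.single_mem_supported
  have hlen : (F.eraseIdx i).length = d := by
    rw [List.length_eraseIdx, if_pos hi, hF.2]
    simp
  change F.eraseIdx i ∈ lows L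
  rw [mem_lows hd]
  refine ⟨hL.down F hF.1 _ (List.eraseIdx_sublist F i) ?_, hlen⟩
  intro h
  rw [h] at hlen
  simp at hlen
  omega

theorem length_cols : (cols L).length = (tops L).length := by
  unfold cols
  simp

theorem cv_eq (i : Fin (cols L).length) :
    cv (lows L).length (cols L) i = crd L (bd ((tops L).get (i.cast length_cols))) := by
  funext j
  change _ = bd ((tops L).get (i.cast length_cols)) ((lows L).get j)
  rw [bd_apply]
  unfold cv vec
  have h1 : (cols L).get i = (lows L).map fun G => incL ((tops L).get (i.cast length_cols)) G := by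
    rw [List.get_eq_getElem]
    simp only [cols, List.getElem_map]
    rfl
  rw [h1, List.getD_eq_getElem?_getD]
  simp

/-- the `d`-faces, numbered -/
def tF (L : List (List ℕ)) (i : Fin (cols L).length) : List ℕ := (tops L).get (i.cast length_cols)

theorem tF_inj (hL : L.Nodup) : Function.Injective (tF L) := by
  intro i j h
  have h1 : (tops L).Nodup := hL.filter _
  have h2 := List.nodup_iff_injective_get.1 h1 h
  exact Fin.ext (by simpa using congrArg Fin.val h2)

theorem mem_sel_iff {β : Type} {l : List β} {X : List Bool} {b : β} :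
    b ∈ sel l X ↔ ∃ i : Fin l.length, X.getD (i : ℕ) false = true ∧ l.get i = b := by
  rw [sel_eq, List.mem_map]
  constructor
  · rintro ⟨i, hi, rfl⟩
    rw [List.mem_filter] at hi
    exact ⟨i, hi.2, rfl⟩
  · rintro ⟨i, hi, rfl⟩
    exact ⟨i, List.mem_filter.2 ⟨List.mem_finRange _, hi⟩, rfl⟩

theorem getD_toX {m : ℕ} (S : Finset (Fin m)) (i : Fin m) :
    (toX S).getD (i : ℕ) false = true ↔ i ∈ S := by
  unfold toX
  simp [List.getD_eq_getElem?_getD]

theorem mem_sel_toX {S : Finset (Fin (cols L).length)} {F : List ℕ} :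
    F ∈ sel (tops L) (toX S) ↔ ∃ i ∈ S, tF L i = F := by
  rw [mem_sel_iff]
  constructor
  · rintro ⟨i, hi, rfl⟩
    exact ⟨i.cast length_cols.symm, (getD_toX S (i.cast length_cols.symm)).1 hi, rfl⟩
  · rintro ⟨i, hi, rfl⟩
    exact ⟨i.cast length_cols, (getD_toX S i).2 hi, rfl⟩

theorem mem_outL (hd : IsDim L d) {S : Finset (Fin (cols L).length)} {F : List ℕ} :
    F ∈ outL L (toX S) ↔ F ∈ L ∧ (F.length ≤ d ∨ ∃ i ∈ S, tF L i = F) := by
  unfold outL
  rw [List.mem_filter, decide_eq_true_iff, mem_sel_toX, tp_eq hd, Nat.lt_succ_iff]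

theorem tF_mem (hd : IsDim L d) (i : Fin (cols L).length) : tF L i ∈ L ∧ (tF L i).length = d + 1 :=
  (mem_tops hd).1 (List.get_mem _ _)

theorem range_tF (hd : IsDim L d) : Set.range (tF L) = {F | F ∈ L ∧ F.length = d + 1} := by
  ext F
  constructor
  · rintro ⟨i, rfl⟩
    exact tF_mem hd i
  · intro hF
    have h1 : F ∈ tops L := (mem_tops hd).2 hF
    obtain ⟨j, rfl⟩ := List.get_of_mem h1
    exact ⟨j.cast length_cols.symm, rfl⟩

theorem outL_faces (hd : IsDim L d) (S : Finset (Fin (cols L).length)) :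
    {F | F ∈ outL L (toX S) ∧ F.length = d + 1} = tF L '' (S : Set (Fin (cols L).length)) := by
  ext F
  constructor
  · rintro ⟨h1, h2⟩
    rw [mem_outL hd] at h1
    rcases h1.2 with h | ⟨i, hi, rfl⟩
    · omega
    · exact ⟨i, hi, rfl⟩
  · rintro ⟨i, hi, rfl⟩
    have h1 := tF_mem hd i
    exact ⟨(mem_outL hd).2 ⟨h1.1, Or.inr ⟨i, hi, rfl⟩⟩, h1.2⟩

theorem span_iff {A B : Set (List ℕ →₀ ℚ)} (hA : A ⊆ chn L) (hB : B ⊆ chn L) :
    Submodule.span ℚ (crd L '' A) = Submodule.span ℚ (crd L '' B) ↔
      Submodule.span ℚ A = Submodule.span ℚ B := by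
  rw [← Submodule.map_span, ← Submodule.map_span]
  have hA' : Submodule.span ℚ A ≤ chn L := Submodule.span_le.2 hA
  have hB' : Submodule.span ℚ B ≤ chn L := Submodule.span_le.2 hB
  have key : ∀ {U V : Submodule ℚ (List ℕ →₀ ℚ)}, U ≤ chn L → V ≤ chn L →
      U.map (crd L) ≤ V.map (crd L) → U ≤ V := by
    intro U V hU hV h x hx
    obtain ⟨y, hy, hxy⟩ := h (Submodule.mem_map_of_mem hx)
    rwa [← crd_inj (hV hy) (hU hx) hxy]
  constructor
  · intro h
    exact le_antisymm (key hA' hB' h.le) (key hB' hA' h.ge)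
  · intro h
    rw [h]

theorem isTree_iff (hL : IsComplex L) (hd : IsDim L d) (h1 : 1 ≤ d)
    (S : Finset (Fin (cols L).length)) : IsTree L d (outL L (toX S)) ↔ S ∈ Bs L := by
  have hcv : cv (lows L).length (cols L) = crd L ∘ bd ∘ tF L := by
    funext i
    exact cv_eq i
  have hbd : ∀ i, bd (tF L i) ∈ chn L := fun i => bd_mem hL hd h1 (List.get_mem _ _)
  have hind : LinearIndepOn ℚ (cv (lows L).length (cols L)) (S : Set (Fin (cols L).length)) ↔
      LinearIndepOn ℚ bd {F | F ∈ outL L (toX S) ∧ F.length = d + 1} := by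
    rw [outL_faces hd, hcv, (crd L).linearIndepOn_iff_of_injOn]
    · constructor
      · exact fun h => LinearIndepOn.image_of_comp (tF L) bd h
      · exact fun h => LinearIndepOn.comp_of_image h (tF_inj hL.nodup).injOn
    · intro x hx y hy h
      have hle : Submodule.span ℚ ((bd ∘ tF L) '' (S : Set (Fin (cols L).length))) ≤ chn L := by
        rw [Submodule.span_le]
        rintro _ ⟨i, _, rfl⟩
        exact hbd i
      exact crd_inj (hle hx) (hle hy) h
  have hspan : Submodule.span ℚ (cv (lows L).length (cols L) '' (S : Set (Fin (cols L).length))) =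
        Submodule.span ℚ (Set.range (cv (lows L).length (cols L))) ↔
      Submodule.span ℚ (bd '' {F | F ∈ outL L (toX S) ∧ F.length = d + 1}) =
        Submodule.span ℚ (bd '' {F | F ∈ L ∧ F.length = d + 1}) := by
    rw [outL_faces hd, ← range_tF hd, hcv, Set.image_comp (crd L), Set.range_comp (crd L),
      span_iff, Set.image_comp bd, Set.range_comp bd]
    · rintro _ ⟨i, _, rfl⟩
      exact hbd i
    · rintro _ ⟨i, rfl⟩
      exact hbd i
  rw [mem_BB_iff_span (cols_length L), hind, hspan]
  constructor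
  · intro h
    exact ⟨h.indep, h.span⟩
  · rintro ⟨h2, h3⟩
    refine ⟨?_, ?_, h2, h3⟩
    · exact List.filter_sublist
    · intro F hF hF'
      exact (mem_outL hd).2 ⟨hF, Or.inl hF'⟩

theorem sublist_eq_filter {Y : List (List ℕ)} (hL : L.Nodup) (hY : Y.Sublist L) :
    Y = L.filter fun F => decide (F ∈ Y) := by
  have h1 : Y.Sublist (L.filter fun F => decide (F ∈ Y)) := by
    have := hY.filter (fun F => decide (F ∈ Y))
    rwa [List.filter_eq_self.2 (fun F hF => by simpa using hF)] at this
  apply h1.eq_of_length_le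
  have h2 : (L.filter fun F => decide (F ∈ Y)).Nodup := hL.filter _
  apply (List.subperm_of_subset h2 ?_).length_le
  intro F hF
  simpa using (List.mem_filter.1 hF).2

theorem tree_eq (hL : IsComplex L) (hd : IsDim L d) {Y : List (List ℕ)} (hY : IsTree L d Y) :
    ∃ S : Finset (Fin (cols L).length), Y = outL L (toX S) := by
  classical
  refine ⟨univ.filter fun i => tF L i ∈ Y, ?_⟩
  rw [sublist_eq_filter hL.nodup hY.sub]
  unfold outL
  apply List.filter_congr
  intro F hF
  rw [decide_eq_decide, mem_sel_toX, tp_eq hd, Nat.lt_succ_iff,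
    ← sublist_eq_filter hL.nodup hY.sub]
  constructor
  · intro h
    rcases Nat.lt_or_ge d F.length with h1 | h1
    · right
      have h2 : F ∈ {F | F ∈ L ∧ F.length = d + 1} := ⟨hF, by have := hd.2 F hF; omega⟩
      rw [← range_tF hd] at h2
      obtain ⟨i, rfl⟩ := h2
      exact ⟨i, by simpa using h, rfl⟩
    · left; exact h1
  · rintro (h | ⟨i, hi, rfl⟩)
    · exact hY.skel F hF h
    · simpa using hi

theorem outL_inj (hL : IsComplex L) (hd : IsDim L d) {S S' : Finset (Fin (cols L).length)}
    (h : outL L (toX S) = outL L (toX S')) : S = S' := by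
  have key : ∀ {S S' : Finset (Fin (cols L).length)}, outL L (toX S) = outL L (toX S') → S ⊆ S' := by
    intro S S' h i hi
    have h1 := tF_mem hd i
    have h2 : tF L i ∈ outL L (toX S) := (mem_outL hd).2 ⟨h1.1, Or.inr ⟨i, hi, rfl⟩⟩
    rw [h, mem_outL hd] at h2
    rcases h2.2 with h3 | ⟨j, hj, h3⟩
    · omega
    · rwa [← tF_inj hL.nodup h3]
  exact Subset.antisymm (key h) (key h.symm)

theorem trees_eq (hL : IsComplex L) (hd : IsDim L d) (h1 : 1 ≤ d) :
    {Y | IsTree L d Y} = (fun S => outL L (toX S)) '' (Bs L : Set (Finset (Fin (cols L).length))) := by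
  ext Y
  constructor
  · intro hY
    obtain ⟨S, rfl⟩ := tree_eq hL hd hY
    exact ⟨S, by exact_mod_cast (isTree_iff hL hd h1 S).1 hY, rfl⟩
  · rintro ⟨S, hS, rfl⟩
    exact (isTree_iff hL hd h1 S).2 (by exact_mod_cast hS)

theorem trees_card (hL : IsComplex L) (hd : IsDim L d) (h1 : 1 ≤ d) :
    {Y | IsTree L d Y}.ncard = (Bs L).card := by
  rw [trees_eq hL hd h1, Set.ncard_image_of_injective _ (fun S S' h => outL_inj hL hd h),
    Set.ncard_coe_finset]

/-! ### the size of the input -/

theorem sz_complex (hL : IsComplex L) :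
    sz L ≤ L.length * (L.length * (4 * L.length + 2) + 2) + 1 := by
  apply sz_le_length_mul
  intro F hF
  have h1 : F.length ≤ L.length := by
    have hs : F.toFinset ⊆ range L.length := by
      intro v hv
      rw [List.mem_toFinset] at hv
      exact mem_range.2 (hL.small F hF v hv)
    have h2 := card_le_card hs
    rw [card_range, List.toFinset_card_of_nodup ((hL.sorted F hF).imp (fun h => h.ne))] at h2
    exact h2
  have h3 : sz F ≤ F.length * (4 * L.length + 1 + 1) + 1 := by
    apply sz_le_length_mul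
    intro v hv
    have h4 := sz_nat_le v
    have h5 : v.size ≤ v := Poly.size_le_self _
    have h6 := hL.small F hF v hv
    omega
  refine h3.trans ?_
  have h7 : F.length * (4 * L.length + 1 + 1) ≤ L.length * (4 * L.length + 2) :=
    Nat.mul_le_mul_right (4 * L.length + 2) h1
  omega

end

/-- **The exact uniform sampler for spanning trees of simplicial complexes.** -/
theorem uniform_sampler : ∃ (M : CoinMachine) (p : Polynomial ℕ), ∀ (L : List (List ℕ)) (d : ℕ),
    IsComplex L → IsDim L d → 1 ≤ d →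
    0 < {Y | IsTree L d Y}.ncard ∧
    (∀ (w : List Bool) (c : M.Conf), M.run (M.start (bits L)) w = some c → c.l = none →
      ∃ Y, IsTree L d Y ∧ M.HaltsWith (bits L) w (bits Y)) ∧
    (∀ Y, IsTree L d Y →
      (∑' i : ℕ, ({w : List Bool | w.length = i ∧ M.HaltsWith (bits L) w (bits Y)}.ncard : ENNReal) /
        2 ^ i) = 1 / ({Y | IsTree L d Y}.ncard : ENNReal)) ∧
    M.expectedTime (bits L) ≤ (p.eval L.length : ℕ) := by
  obtain ⟨M, P, h⟩ := exists_sampler
  refine ⟨M, P.comp (Polynomial.X * (Polynomial.X * (4 * Polynomial.X + 2) + 2) + 1),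
    fun L d hL hd h1 => ?_⟩
  obtain ⟨h2, hgood, h3⟩ := h L
  rw [trees_card hL hd h1]
  have hpos := BB_card_pos (cols_length L)
  refine ⟨hpos, ?_, ?_, ?_⟩
  · intro w c hw hc
    obtain ⟨S, hS, h4⟩ := hgood w c hw hc
    exact ⟨_, (isTree_iff hL hd h1 S).2 hS, h4⟩
  · intro Y hY
    obtain ⟨S, rfl⟩ := tree_eq hL hd hY
    have hS := (isTree_iff hL hd h1 S).1 hY
    have h4 := h3 (fun S _ S' _ h => outL_inj hL hd (bits_injective h)) S hS
    unfold outProb outS at h4
    rw [h4, ENNReal.ofReal_div_of_pos (by exact_mod_cast hpos)]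
    simp
  · refine h2.trans ?_
    have h5 := eval_mono' P (sz_complex hL)
    simp only [Polynomial.eval_add, Polynomial.eval_mul, Polynomial.eval_comp, Polynomial.eval_X,
      Polynomial.eval_one, Polynomial.eval_ofNat]
    exact_mod_cast h5

end Pool.Agent.NPC.T703
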