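import Mathlib

/-!
# The basis exchange graph of a matroid: the form of a matroid is nonpositive on centred vectors

Families of bases of matroids on a finite set, given by the exchange property.  The main result of
this file is `centred`: if `g` has sum `0` over all pairs (basis, element of it), then
`∑_B (∑_{e ∈ B} g e)² ≤ ∑_B ∑_{e ∈ B} (g e)²`.
-/

set_option autoImplicit false
set_option linter.unusedSectionVars false

namespace Pool.Agent.TH703.SST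

open Finset

variable {α : Type} [Fintype α] [DecidableEq α]

/-- A family of sets which is the family of bases of a matroid of rank `r` (or empty). -/
structure Bases (𝓑 : Finset (Finset α)) (r : ℕ) : Prop where
  /-- all bases have `r` elements -/
  card : ∀ B ∈ 𝓑, B.card = r
  /-- the exchange property -/
  exch : ∀ B ∈ 𝓑, ∀ B' ∈ 𝓑, ∀ e ∈ B \ B', ∃ f ∈ B' \ B, insert f (B.erase e) ∈ 𝓑

/-- the contraction of `e` -/
def link (𝓑 : Finset (Finset α)) (e : α) : Finset (Finset α) :=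
  (𝓑.filter fun B => e ∈ B).image fun B => B.erase e

theorem mem_link {𝓑 : Finset (Finset α)} {e : α} {B : Finset α} :
    B ∈ link 𝓑 e ↔ e ∉ B ∧ insert e B ∈ 𝓑 := by
  unfold link
  simp only [mem_image, mem_filter]
  constructor
  · rintro ⟨C, ⟨hC, he⟩, rfl⟩
    exact ⟨notMem_erase _ _, by rwa [insert_erase he]⟩
  · rintro ⟨h1, h2⟩
    exact ⟨insert e B, ⟨h2, mem_insert_self _ _⟩, erase_insert h1⟩

theorem sum_link (𝓑 : Finset (Finset α)) (e : α) (h : Finset α → ℝ) :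
    ∑ B ∈ link 𝓑 e, h B = ∑ B ∈ 𝓑.filter (fun B => e ∈ B), h (B.erase e) := by
  unfold link
  rw [sum_image]
  intro B hB C hC hBC
  simp only [coe_filter, Set.mem_ofPred_eq] at hB hC
  have h1 : insert e (B.erase e) = insert e (C.erase e) := congrArg (insert e) hBC
  rwa [insert_erase hB.2, insert_erase hC.2] at h1

theorem Bases.link {𝓑 : Finset (Finset α)} {r : ℕ} (h : Bases 𝓑 (r + 1)) (e : α) :
    Bases (SST.link 𝓑 e) r := by
  constructor
  · intro B hB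
    obtain ⟨h1, h2⟩ := mem_link.1 hB
    have := h.card _ h2
    rw [card_insert_of_notMem h1] at this
    omega
  · intro B hB B' hB' a ha
    obtain ⟨h1, h2⟩ := mem_link.1 hB
    obtain ⟨h3, h4⟩ := mem_link.1 hB'
    rw [mem_sdiff] at ha
    have hae : a ≠ e := fun hh => h1 (hh ▸ ha.1)
    obtain ⟨f, hf, hf2⟩ := h.exch _ h2 _ h4 a (by
      rw [mem_sdiff]
      refine ⟨mem_insert_of_mem ha.1, ?_⟩
      rw [mem_insert]
      push Not
      exact ⟨hae, ha.2⟩)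
    rw [mem_sdiff, mem_insert, mem_insert] at hf
    push Not at hf
    have hfe : f ≠ e := hf.2.1
    refine ⟨f, ?_, ?_⟩
    · rw [mem_sdiff]
      exact ⟨hf.1.resolve_left hfe, hf.2.2⟩
    · rw [mem_link]
      constructor
      · rw [mem_insert, mem_erase]
        push Not
        exact ⟨hfe.symm, fun _ => h1⟩
      · rw [erase_insert_of_ne hae.symm] at hf2
        rw [Finset.insert_comm]
        exact hf2

/-- the number of bases containing `e` -/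
noncomputable def dg (𝓑 : Finset (Finset α)) (e : α) : ℝ := ((𝓑.filter fun B => e ∈ B).card : ℝ)

theorem dg_nonneg (𝓑 : Finset (Finset α)) (e : α) : 0 ≤ dg 𝓑 e := by unfold dg; positivity

/-- exchanging the order of summation -/
theorem sum_swap (𝓑 : Finset (Finset α)) (h : α → Finset α → ℝ) :
    ∑ e, ∑ B ∈ 𝓑.filter (fun B => e ∈ B), h e B = ∑ B ∈ 𝓑, ∑ e ∈ B, h e B := by
  have : ∀ e, ∑ B ∈ 𝓑.filter (fun B => e ∈ B), h e B = ∑ B ∈ 𝓑, if e ∈ B then h e B else 0 := by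
    intro e
    rw [sum_filter]
  simp only [this]
  rw [sum_comm]
  apply sum_congr rfl
  intro B _
  rw [← sum_filter]
  congr 1
  ext e
  simp

theorem sum_dg (𝓑 : Finset (Finset α)) (g : α → ℝ) :
    ∑ e, dg 𝓑 e * g e = ∑ B ∈ 𝓑, ∑ e ∈ B, g e := by
  rw [← sum_swap]
  apply sum_congr rfl
  intro e _
  rw [sum_const, nsmul_eq_mul]
  rfl

/-- the quadratic form -/
noncomputable def Q (𝓑 : Finset (Finset α)) (g : α → ℝ) : ℝ :=
  ∑ B ∈ 𝓑, ((∑ e ∈ B, g e) ^ 2 - ∑ e ∈ B, g e ^ 2)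

/-- the gradient of the form (one half of it) -/
noncomputable def gr (𝓑 : Finset (Finset α)) (g : α → ℝ) (e : α) : ℝ :=
  ∑ B ∈ 𝓑.filter (fun B => e ∈ B), (∑ f ∈ B, g f - g e)

theorem gr_link (𝓑 : Finset (Finset α)) (g : α → ℝ) (e : α) :
    ∑ B ∈ link 𝓑 e, ∑ f ∈ B, g f = gr 𝓑 g e := by
  rw [sum_link]
  unfold gr
  apply sum_congr rfl
  intro B hB
  rw [mem_filter] at hB
  have := sum_erase_add B g hB.2
  linarith

theorem inner_gr (𝓑 : Finset (Finset α)) (g h : α → ℝ) :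
    ∑ e, h e * gr 𝓑 g e =
      ∑ B ∈ 𝓑, ((∑ e ∈ B, h e) * (∑ e ∈ B, g e) - ∑ e ∈ B, h e * g e) := by
  have h1 : ∀ e, h e * gr 𝓑 g e = ∑ B ∈ 𝓑.filter (fun B => e ∈ B), h e * (∑ f ∈ B, g f - g e) := by
    intro e
    unfold gr
    rw [mul_sum]
  simp only [h1]
  rw [sum_swap]
  apply sum_congr rfl
  intro B _
  rw [sum_mul, ← sum_sub_distrib]
  apply sum_congr rfl
  intro e _
  ring

theorem inner_gr_self (𝓑 : Finset (Finset α)) (g : α → ℝ) : ∑ e, g e * gr 𝓑 g e = Q 𝓑 g := by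
  rw [inner_gr]
  unfold Q
  apply sum_congr rfl
  intro B _
  have : ∑ e ∈ B, g e * g e = ∑ e ∈ B, g e ^ 2 := sum_congr rfl fun e _ => by ring
  rw [this]; ring

theorem inner_gr_comm (𝓑 : Finset (Finset α)) (g h : α → ℝ) :
    ∑ e, h e * gr 𝓑 g e = ∑ e, g e * gr 𝓑 h e := by
  rw [inner_gr, inner_gr]
  apply sum_congr rfl
  intro B _
  have : ∑ e ∈ B, h e * g e = ∑ e ∈ B, g e * h e := sum_congr rfl fun e _ => by ring
  rw [this]; ring

theorem sum_Q_link {𝓑 : Finset (Finset α)} {r : ℕ} (h : ∀ B ∈ 𝓑, B.card = r) (g : α → ℝ) :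
    ∑ e, Q (link 𝓑 e) g = ((r : ℝ) - 2) * Q 𝓑 g := by
  unfold Q
  simp only [sum_link]
  rw [sum_swap 𝓑 (fun e B => (∑ f ∈ B.erase e, g f) ^ 2 - ∑ f ∈ B.erase e, g f ^ 2), mul_sum]
  apply sum_congr rfl
  intro B hB
  have h1 : ∀ e ∈ B, (∑ f ∈ B.erase e, g f) ^ 2 - ∑ f ∈ B.erase e, g f ^ 2 =
      ((∑ f ∈ B, g f) ^ 2 - ∑ f ∈ B, g f ^ 2) - 2 * (∑ f ∈ B, g f) * g e + 2 * g e ^ 2 := by
    intro e he
    have e1 := sum_erase_add B g he
    have e2 := sum_erase_add B (fun f => g f ^ 2) he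
    have e3 : ∑ f ∈ B.erase e, g f = ∑ f ∈ B, g f - g e := by linarith
    have e4 : ∑ f ∈ B.erase e, g f ^ 2 = ∑ f ∈ B, g f ^ 2 - g e ^ 2 := by linarith
    rw [e3, e4]; ring
  rw [sum_congr rfl h1, sum_add_distrib, sum_sub_distrib, sum_const, h B hB, ← mul_sum, ← mul_sum,
    nsmul_eq_mul]
  ring

/-- the property to be proved -/
def Neg (𝓑 : Finset (Finset α)) : Prop :=
  ∀ g : α → ℝ, ∑ B ∈ 𝓑, ∑ e ∈ B, g e = 0 → Q 𝓑 g ≤ 0

theorem Neg.general {𝓑 : Finset (Finset α)} {r : ℕ} (hr : 1 ≤ r) (h : ∀ B ∈ 𝓑, B.card = r)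
    (hN : Neg 𝓑) (g : α → ℝ) :
    (r : ℝ) * 𝓑.card * Q 𝓑 g ≤ ((r : ℝ) - 1) * (∑ B ∈ 𝓑, ∑ e ∈ B, g e) ^ 2 := by
  rcases 𝓑.eq_empty_or_nonempty with rfl | hne
  · simp
  have hN0 : (0 : ℝ) < 𝓑.card := by exact_mod_cast hne.card_pos
  have hr0 : (0 : ℝ) < r := by exact_mod_cast hr
  set Sg := ∑ B ∈ 𝓑, ∑ e ∈ B, g e with hSg
  set c := Sg / (r * 𝓑.card) with hc
  have hc' : Sg = r * 𝓑.card * c := by rw [hc]; field_simp
  have hB : ∀ B ∈ 𝓑, ∑ e ∈ B, (g e - c) = ∑ e ∈ B, g e - r * c := by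
    intro B hB
    rw [sum_sub_distrib, sum_const, h B hB, nsmul_eq_mul]
  have h0 : ∑ B ∈ 𝓑, ∑ e ∈ B, (g e - c) = 0 := by
    rw [sum_congr rfl hB, sum_sub_distrib, sum_const, nsmul_eq_mul, ← hSg, hc']
    ring
  have h1 := hN (fun e => g e - c) h0
  have h2 : Q 𝓑 (fun e => g e - c) = Q 𝓑 g - r * (r - 1) * c ^ 2 * 𝓑.card := by
    unfold Q
    have h3 : ∀ B ∈ 𝓑, (∑ e ∈ B, (g e - c)) ^ 2 - ∑ e ∈ B, (g e - c) ^ 2 =
        ((∑ e ∈ B, g e) ^ 2 - ∑ e ∈ B, g e ^ 2) - 2 * (r - 1) * c * (∑ e ∈ B, g e)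
          + r * (r - 1) * c ^ 2 := by
      intro B hB'
      rw [hB B hB']
      have : ∑ e ∈ B, (g e - c) ^ 2 = ∑ e ∈ B, g e ^ 2 - 2 * c * ∑ e ∈ B, g e + r * c ^ 2 := by
        have e1 : ∀ e ∈ B, (g e - c) ^ 2 = g e ^ 2 - 2 * c * g e + c ^ 2 := fun e _ => by ring
        rw [sum_congr rfl e1, sum_add_distrib, sum_sub_distrib, sum_const, h B hB', ← mul_sum,
          nsmul_eq_mul]
      rw [this]; ring
    rw [sum_congr rfl h3, sum_add_distrib, sum_sub_distrib, sum_const, ← mul_sum, ← hSg,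
      nsmul_eq_mul, hc']
    ring
  rw [h2] at h1
  have h4 : Q 𝓑 g ≤ r * (r - 1) * c ^ 2 * 𝓑.card := by linarith
  calc (r : ℝ) * 𝓑.card * Q 𝓑 g ≤ r * 𝓑.card * (r * (r - 1) * c ^ 2 * 𝓑.card) :=
        mul_le_mul_of_nonneg_left h4 (mul_nonneg hr0.le hN0.le)
    _ = (r - 1) * Sg ^ 2 := by rw [hc']; ring

end Pool.Agent.TH703.SST
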