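import Pool.Agent.TH703.SST.Walk1

/-!
# Rank two
-/

set_option autoImplicit false
set_option linter.unusedSectionVars false

namespace Pool.Agent.TH703.SST

open Finset

variable {α : Type} [Fintype α] [DecidableEq α]

/-- Being parallel, for non-loops of a matroid of rank two. -/
def par (𝓑 : Finset (Finset α)) (e f : α) : Prop := ({e, f} : Finset α) ∉ 𝓑

instance (𝓑 : Finset (Finset α)) (e f : α) : Decidable (par 𝓑 e f) := by
  unfold par; infer_instance

/-- non-loops -/
def nl (𝓑 : Finset (Finset α)) : Finset α := univ.filter fun e => ∃ B ∈ 𝓑, e ∈ B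

theorem par_self {𝓑 : Finset (Finset α)} (h : Bases 𝓑 2) (e : α) : par 𝓑 e e := by
  intro h1
  have := h.card _ h1
  simp at this

theorem par_symm {𝓑 : Finset (Finset α)} {e f : α} : par 𝓑 e f ↔ par 𝓑 f e := by
  unfold par
  rw [pair_comm]

/-- a basis containing `e` -/
theorem exists_pair {𝓑 : Finset (Finset α)} (h : Bases 𝓑 2) {e : α} (he : e ∈ nl 𝓑) :
    ∃ f, f ≠ e ∧ ({e, f} : Finset α) ∈ 𝓑 := by
  unfold nl at he
  rw [mem_filter] at he
  obtain ⟨_, B, hB, heB⟩ := he
  obtain ⟨a, b, hab, rfl⟩ := card_eq_two.1 (h.card B hB)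
  rw [mem_insert, mem_singleton] at heB
  rcases heB with rfl | rfl
  · exact ⟨b, hab.symm, hB⟩
  · refine ⟨a, hab, ?_⟩
    rwa [pair_comm]

theorem par_trans {𝓑 : Finset (Finset α)} (h : Bases 𝓑 2) {e f g : α} (hf : f ∈ nl 𝓑)
    (h1 : par 𝓑 e f) (h2 : par 𝓑 f g) : par 𝓑 e g := by
  intro h3
  obtain ⟨k, hk, hk2⟩ := exists_pair h hf
  have hfe : f ≠ e := by
    rintro rfl
    exact h2 h3
  have hfg : f ≠ g := by
    rintro rfl
    exact h1 h3
  -- exchange `k` in `{f, k}` with an element of `{e, g}`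
  by_cases hke : k = e
  · subst hke
    exact h1 (by rwa [pair_comm])
  by_cases hkg : k = g
  · subst hkg
    exact h2 hk2
  obtain ⟨x, hx, hx2⟩ := h.exch _ hk2 _ h3 k (by
    simp [hke, hkg])
  have e1 : ({f, k} : Finset α).erase k = {f} := by
    ext y
    simp only [mem_erase, mem_insert, mem_singleton]
    constructor
    · rintro ⟨h5, h6 | h6⟩
      · exact h6
      · exact absurd h6 h5
    · rintro rfl
      exact ⟨fun hh => hk hh.symm, Or.inl rfl⟩
  rw [e1] at hx2
  rw [mem_sdiff, mem_insert, mem_singleton] at hx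
  rcases hx.1 with rfl | rfl
  · exact h1 hx2
  · exact h2 (by rw [pair_comm]; exact hx2)

theorem sum_pairs {𝓑 : Finset (Finset α)} (h : Bases 𝓑 2) (F : Finset α → ℝ) (G : α → α → ℝ)
    (hFG : ∀ e f, e ≠ f → ({e, f} : Finset α) ∈ 𝓑 → F {e, f} = G e f + G f e) :
    ∑ B ∈ 𝓑, F B = ∑ e ∈ nl 𝓑, ∑ f ∈ (nl 𝓑).filter (fun f => ¬ par 𝓑 e f), G e f := by
  have key : ∀ B ∈ 𝓑, F B = ∑ e ∈ B, ∑ f ∈ B.erase e, G e f := by
    intro B hB
    obtain ⟨a, b, hab, rfl⟩ := card_eq_two.1 (h.card B hB)
    rw [hFG a b hab hB, sum_pair hab]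
    have e1 : ({a, b} : Finset α).erase a = {b} := by
      ext y; simp only [mem_erase, mem_insert, mem_singleton]
      constructor
      · rintro ⟨h5, h6 | h6⟩
        · exact absurd h6 h5
        · exact h6
      · rintro rfl; exact ⟨hab.symm, Or.inr rfl⟩
    have e2 : ({a, b} : Finset α).erase b = {a} := by
      ext y; simp only [mem_erase, mem_insert, mem_singleton]
      constructor
      · rintro ⟨h5, h6 | h6⟩
        · exact h6
        · exact absurd h6 h5
      · rintro rfl; exact ⟨hab, Or.inl rfl⟩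
    rw [e1, e2, sum_singleton, sum_singleton]
  rw [sum_congr rfl key, ← sum_swap 𝓑 (fun e B => ∑ f ∈ B.erase e, G e f)]
  have h1 : ∀ e, ∑ B ∈ 𝓑.filter (fun B => e ∈ B), ∑ f ∈ B.erase e, G e f =
      if e ∈ nl 𝓑 then ∑ f ∈ (nl 𝓑).filter (fun f => ¬ par 𝓑 e f), G e f else 0 := by
    intro e
    split_ifs with he
    · rw [sum_sigma']
      refine sum_bij' (fun p _ => p.2) (fun f _ => ⟨{e, f}, f⟩) ?_ ?_ ?_ ?_ ?_
      · rintro ⟨B, f⟩ hp
        simp only [mem_sigma, mem_filter, mem_erase] at hp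
        obtain ⟨⟨hB, heB⟩, hfe, hfB⟩ := hp
        simp only [mem_filter]
        refine ⟨?_, ?_⟩
        · unfold nl; rw [mem_filter]; exact ⟨mem_univ _, B, hB, hfB⟩
        · unfold par
          rw [not_not]
          have : B = {e, f} := by
            symm
            apply eq_of_subset_of_card_le
            · intro y hy
              rw [mem_insert, mem_singleton] at hy
              rcases hy with rfl | rfl
              · exact heB
              · exact hfB
            · rw [h.card B hB, card_pair hfe.symm]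
          rw [← this]; exact hB
      · intro f hf
        simp only [mem_filter, par, not_not] at hf
        simp only [mem_sigma, mem_filter, mem_erase]
        refine ⟨⟨hf.2, by simp⟩, ?_, by simp⟩
        rintro rfl
        have := h.card _ hf.2
        simp at this
      · rintro ⟨B, f⟩ hp
        simp only [mem_sigma, mem_filter, mem_erase] at hp
        obtain ⟨⟨hB, heB⟩, hfe, hfB⟩ := hp
        have : B = {e, f} := by
          symm
          apply eq_of_subset_of_card_le
          · intro y hy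
            rw [mem_insert, mem_singleton] at hy
            rcases hy with rfl | rfl
            · exact heB
            · exact hfB
          · rw [h.card B hB, card_pair hfe.symm]
        simp [this]
      · intro f _; rfl
      · intro p _; rfl
    · apply sum_eq_zero
      intro B hB
      rw [mem_filter] at hB
      exact absurd (by unfold nl; rw [mem_filter]; exact ⟨mem_univ _, B, hB⟩) he
  simp only [h1]
  rw [sum_ite_mem, univ_inter]

/-- Rank two. -/
theorem neg_two {𝓑 : Finset (Finset α)} (h : Bases 𝓑 2) : Neg 𝓑 := by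
  intro g hg
  set L := nl 𝓑 with hL
  set P : α → Finset α := fun e => L.filter fun f => par 𝓑 e f with hP
  set s : α → ℝ := fun e => ∑ f ∈ P e, g f with hs
  set c : α → ℝ := fun e => ((P e).card : ℝ) with hc
  set G := ∑ e ∈ L, g e with hG
  have hself : ∀ e ∈ L, e ∈ P e := fun e he => by
    rw [hP]; simp only [mem_filter]; exact ⟨he, par_self h e⟩
  have hPeq : ∀ e ∈ L, ∀ f ∈ P e, P f = P e := by
    intro e he f hf
    rw [hP] at hf ⊢
    simp only [mem_filter] at hf ⊢
    ext x
    simp only [mem_filter]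
    refine and_congr_right fun hx => ⟨fun h1 => par_trans h hf.1 hf.2 h1,
      fun h1 => par_trans h he (par_symm.1 hf.2) h1⟩
  have hmem : ∀ e ∈ L, ∀ f ∈ L, (f ∈ P e ↔ e ∈ P f) := by
    intro e he f hf
    rw [hP]; simp only [mem_filter]
    rw [par_symm]
    exact ⟨fun h1 => ⟨he, h1.2⟩, fun h1 => ⟨hf, h1.2⟩⟩
  -- symmetric double sums
  have hdbl : ∀ F : α → α → ℝ, ∑ e ∈ L, ∑ f ∈ P e, F e f = ∑ f ∈ L, ∑ e ∈ P f, F e f := by
    intro F
    apply sum_comm'
    intro x y
    constructor
    · rintro ⟨hx, hy⟩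
      have hyL : y ∈ L := by rw [hP] at hy; simp only [mem_filter] at hy; exact hy.1
      exact ⟨(hmem x hx y hyL).1 hy, hyL⟩
    · rintro ⟨hx, hy⟩
      have hxL : x ∈ L := by rw [hP] at hx; simp only [mem_filter] at hx; exact hx.1
      exact ⟨hxL, (hmem y hy x hxL).1 hx⟩
  have hcpos : ∀ e ∈ L, 0 < c e := by
    intro e he
    rw [hc]
    simp only [Nat.cast_pos]
    exact card_pos.2 ⟨e, hself e he⟩
  have hcs : ∀ e ∈ L, ∀ f ∈ P e, c f = c e ∧ s f = s e := by
    intro e he f hf
    rw [hc, hs]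
    simp only
    rw [hPeq e he f hf]
    exact ⟨rfl, rfl⟩
  -- the two sums
  have hcompl : ∀ e, ∑ f ∈ L.filter (fun f => ¬ par 𝓑 e f), g f = G - s e := by
    intro e
    have := sum_filter_add_sum_filter_not L (fun f => par 𝓑 e f) g
    rw [hs, hG]
    simp only [hP]
    linarith
  have hcard : ∀ e, ((L.filter (fun f => ¬ par 𝓑 e f)).card : ℝ) = L.card - c e := by
    intro e
    have := card_filter_add_card_filter_not (s := L) (fun f => par 𝓑 e f)
    have h2 : ((L.filter (fun f => par 𝓑 e f)).card : ℝ) +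
      (L.filter (fun f => ¬ par 𝓑 e f)).card = L.card := by exact_mod_cast this
    rw [hc]
    simp only [hP]
    linarith
  have h1 : Q 𝓑 g = ∑ e ∈ L, g e * (G - s e) := by
    unfold Q
    rw [sum_pairs h _ (fun e f => g e * g f)]
    · apply sum_congr rfl
      intro e _
      rw [← hcompl e, mul_sum]
    · intro e f hef _
      rw [sum_pair hef, sum_pair hef]
      ring
  have h2 : ∑ e ∈ L, g e * (L.card - c e) = 0 := by
    rw [← hg, sum_pairs h _ (fun e _ => g e)]
    · apply sum_congr rfl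
      intro e _
      rw [sum_const, nsmul_eq_mul, hcard e]
      ring
    · intro e f hef _
      rw [sum_pair hef]
  have h3 : ∑ e ∈ L, g e * c e = ∑ e ∈ L, s e := by
    rw [hs]
    simp only
    rw [hdbl (fun _ f => g f)]
    apply sum_congr rfl
    intro e _
    rw [sum_const, nsmul_eq_mul, hc]
    ring
  have h4 : (L.card : ℝ) * G = ∑ e ∈ L, s e := by
    have e1 : ∑ e ∈ L, g e * (L.card - c e) = L.card * G - ∑ e ∈ L, g e * c e := by
      rw [hG, mul_sum, ← sum_sub_distrib]
      apply sum_congr rfl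
      intro e _; ring
    rw [e1, h3] at h2
    linarith
  have h5 : ∑ e ∈ L, g e * s e = ∑ e ∈ L, s e ^ 2 / c e := by
    have e1 : ∀ e ∈ L, s e ^ 2 / c e = ∑ f ∈ P e, g f * (s f / c f) := by
      intro e he
      have e2 : ∀ f ∈ P e, g f * (s f / c f) = g f * (s e / c e) := by
        intro f hf
        obtain ⟨h6, h7⟩ := hcs e he f hf
        rw [h6, h7]
      rw [sum_congr rfl e2, ← sum_mul]
      change s e ^ 2 / c e = s e * (s e / c e)
      ring
    rw [sum_congr rfl e1, hdbl (fun _ f => g f * (s f / c f))]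
    apply sum_congr rfl
    intro e he
    rw [sum_const, nsmul_eq_mul]
    have := (hcpos e he).ne'
    change g e * s e = c e * (g e * (s e / c e))
    field_simp
  have h6 : (∑ e ∈ L, s e) ^ 2 ≤ (∑ e ∈ L, c e) * ∑ e ∈ L, s e ^ 2 / c e := by
    have e1 : ∑ e ∈ L, s e = ∑ e ∈ L, Real.sqrt (c e) * (s e / Real.sqrt (c e)) := by
      apply sum_congr rfl
      intro e he
      have := Real.sqrt_pos.2 (hcpos e he)
      field_simp
    rw [e1]
    refine (sum_mul_sq_le_sq_mul_sq _ _ _).trans (le_of_eq ?_)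
    congr 1
    · apply sum_congr rfl
      intro e he
      exact Real.sq_sqrt (hcpos e he).le
    · apply sum_congr rfl
      intro e he
      rw [div_pow, Real.sq_sqrt (hcpos e he).le]
  have h7 : ∑ e ∈ L, c e ≤ (L.card : ℝ) * L.card := by
    calc ∑ e ∈ L, c e ≤ ∑ _e ∈ L, (L.card : ℝ) := by
          apply sum_le_sum
          intro e _
          rw [hc]
          simp only [Nat.cast_le]
          exact card_le_card (filter_subset _ _)
      _ = _ := by rw [sum_const, nsmul_eq_mul]
  have h8 : 0 ≤ ∑ e ∈ L, s e ^ 2 / c e := sum_nonneg fun e he => by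
    exact div_nonneg (sq_nonneg _) (hcpos e he).le
  have h9 : Q 𝓑 g = G ^ 2 - ∑ e ∈ L, s e ^ 2 / c e := by
    rw [h1, ← h5]
    simp only [mul_sub]
    rw [sum_sub_distrib, ← sum_mul, ← hG]
    ring
  rw [h9]
  rcases Nat.eq_zero_or_pos L.card with h0 | h0
  · have : L = ∅ := card_eq_zero.1 h0
    rw [hG, this]
    simp
  · have hLpos : (0 : ℝ) < L.card := by exact_mod_cast h0
    have h10 : (L.card : ℝ) ^ 2 * G ^ 2 ≤ (L.card : ℝ) ^ 2 * ∑ e ∈ L, s e ^ 2 / c e := by
      calc (L.card : ℝ) ^ 2 * G ^ 2 = (∑ e ∈ L, s e) ^ 2 := by rw [← h4]; ring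
        _ ≤ _ := h6
        _ ≤ (L.card * L.card) * ∑ e ∈ L, s e ^ 2 / c e := mul_le_mul_of_nonneg_right h7 h8
        _ = _ := by ring
    have := le_of_mul_le_mul_left h10 (pow_pos hLpos 2)
    linarith

end Pool.Agent.TH703.SST
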