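import Pool.Agent.TH703.SST.Walk2

/-!
# The induction on the rank
-/

set_option autoImplicit false
set_option linter.unusedSectionVars false

namespace Pool.Agent.TH703.SST

open Finset

variable {α : Type} [Fintype α] [DecidableEq α]

theorem gr_zero_of_loop {𝓑 : Finset (Finset α)} {e : α} (h : dg 𝓑 e = 0) (g : α → ℝ) :
    gr 𝓑 g e = 0 := by
  unfold dg at h
  have h1 : (𝓑.filter fun B => e ∈ B) = ∅ := by
    rw [← card_eq_zero]
    exact_mod_cast h
  unfold gr
  rw [h1, sum_empty]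

/-- An eigenfunction with eigenvalue at least one, with a positive maximum at `e₀`, is constant. -/
theorem max_principle {𝓑 : Finset (Finset α)} {r : ℕ} (h : Bases 𝓑 r) (hr : 2 ≤ r)
    {g : α → ℝ} {lam : ℝ} (hlam : 1 ≤ lam)
    (hg : ∀ e, gr 𝓑 g e = lam * ((r : ℝ) - 1) * dg 𝓑 e * g e) {e₀ : α} (he₀ : dg 𝓑 e₀ ≠ 0)
    (hpos : 0 ≤ g e₀) (hmax : ∀ e, dg 𝓑 e ≠ 0 → g e ≤ g e₀) :
    ∀ e, dg 𝓑 e ≠ 0 → g e = g e₀ := by
  have hr1 : (1 : ℝ) ≤ (r : ℝ) - 1 := by
    have : (2 : ℝ) ≤ r := by exact_mod_cast hr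
    linarith
  have hnl : ∀ B ∈ 𝓑, ∀ e ∈ B, dg 𝓑 e ≠ 0 := by
    intro B hB e he hd
    unfold dg at hd
    have h1 : (𝓑.filter fun B => e ∈ B) = ∅ := by
      rw [← card_eq_zero]
      exact_mod_cast hd
    have h2 : B ∈ (𝓑.filter fun B => e ∈ B) := mem_filter.2 ⟨hB, he⟩
    rw [h1] at h2
    simp at h2
  -- neighbours of maximal elements are maximal
  have hnb : ∀ e, dg 𝓑 e ≠ 0 → g e = g e₀ → ∀ B ∈ 𝓑, e ∈ B → ∀ f ∈ B, g f = g e₀ := by
    intro e hde hge B hB heB f hf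
    by_contra hne
    have hfe : f ≠ e := by
      rintro rfl
      exact hne hge
    have hlt : g f < g e₀ := lt_of_le_of_ne (hmax f (hnl B hB f hf)) hne
    have h1 : ∀ C ∈ 𝓑.filter (fun C => e ∈ C), ∑ x ∈ C, g x - g e ≤ ((r : ℝ) - 1) * g e₀ := by
      intro C hC
      rw [mem_filter] at hC
      have h2 := sum_erase_add C g hC.2
      have h3 : ∑ x ∈ C.erase e, g x ≤ ∑ _x ∈ C.erase e, g e₀ := by
        apply sum_le_sum
        intro x hx
        exact hmax x (hnl C hC.1 x (mem_of_mem_erase hx))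
      rw [sum_const, card_erase_of_mem hC.2, h.card C hC.1, nsmul_eq_mul,
        Nat.cast_sub (by omega)] at h3
      push_cast at h3
      linarith
    have h2 : ∑ x ∈ B, g x - g e < ((r : ℝ) - 1) * g e₀ := by
      have h2 := sum_erase_add B g heB
      have h3 : ∑ x ∈ B.erase e, g x < ∑ _x ∈ B.erase e, g e₀ := by
        apply sum_lt_sum
        · intro x hx
          exact hmax x (hnl B hB x (mem_of_mem_erase hx))
        · exact ⟨f, mem_erase.2 ⟨hfe, hf⟩, hlt⟩
      rw [sum_const, card_erase_of_mem heB, h.card B hB, nsmul_eq_mul,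
        Nat.cast_sub (by omega)] at h3
      push_cast at h3
      linarith
    have h3 : gr 𝓑 g e < dg 𝓑 e * (((r : ℝ) - 1) * g e₀) := by
      unfold gr dg
      rw [← nsmul_eq_mul, ← sum_const]
      exact sum_lt_sum h1 ⟨B, mem_filter.2 ⟨hB, heB⟩, h2⟩
    rw [hg e, hge] at h3
    have h4 : 0 ≤ dg 𝓑 e * (((r : ℝ) - 1) * g e₀) :=
      mul_nonneg (dg_nonneg _ _) (mul_nonneg (by linarith) hpos)
    nlinarith
  -- a basis containing `e₀`
  have hB0 : ∃ B ∈ 𝓑, e₀ ∈ B := by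
    by_contra hcon
    push Not at hcon
    apply he₀
    unfold dg
    rw [Nat.cast_eq_zero, card_eq_zero, filter_eq_empty_iff]
    exact fun {x} hx => hcon x hx
  obtain ⟨B, hB, he₀B⟩ := hB0
  have hBmax : ∀ x ∈ B, g x = g e₀ := hnb e₀ he₀ rfl B hB he₀B
  intro f hf
  have hB1 : ∃ B ∈ 𝓑, f ∈ B := by
    by_contra hcon
    push Not at hcon
    apply hf
    unfold dg
    rw [Nat.cast_eq_zero, card_eq_zero, filter_eq_empty_iff]
    exact fun {x} hx => hcon x hx
  obtain ⟨B', hB', hfB'⟩ := hB1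
  by_cases hmeet : ∃ x ∈ B', x ∈ B
  · obtain ⟨x, hx1, hx2⟩ := hmeet
    exact hnb x (hnl B hB x hx2) (hBmax x hx2) B' hB' hx1 f hfB'
  · push Not at hmeet
    obtain ⟨e, he, hef⟩ : ∃ e ∈ B', e ≠ f := by
      have h1 : 1 < B'.card := by rw [h.card B' hB']; omega
      exact exists_mem_ne h1 f
    obtain ⟨x, hx, hx2⟩ := h.exch B' hB' B hB e (mem_sdiff.2 ⟨he, hmeet e he⟩)
    rw [mem_sdiff] at hx
    exact hnb x (hnl B hB x hx.1) (hBmax x hx.1) _ hx2 (mem_insert_self _ _) f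
      (mem_insert_of_mem (mem_erase.2 ⟨hef.symm, hfB'⟩))

/-- Eigenfunctions with eigenvalue at least one are constant. -/
theorem eig_const {𝓑 : Finset (Finset α)} {r : ℕ} (h : Bases 𝓑 r) (hr : 2 ≤ r)
    {g : α → ℝ} {lam : ℝ} (hlam : 1 ≤ lam)
    (hg : ∀ e, gr 𝓑 g e = lam * ((r : ℝ) - 1) * dg 𝓑 e * g e) :
    ∃ c : ℝ, ∀ e, dg 𝓑 e ≠ 0 → g e = c := by
  by_cases hne : ∃ e, dg 𝓑 e ≠ 0
  · have hne' : (univ.filter fun e => dg 𝓑 e ≠ 0).Nonempty := by
      obtain ⟨e, he⟩ := hne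
      exact ⟨e, mem_filter.2 ⟨mem_univ _, he⟩⟩
    obtain ⟨e₀, he₀, hmax⟩ := exists_max_image _ g hne'
    obtain ⟨e₁, he₁, hmin⟩ := exists_min_image _ g hne'
    simp only [mem_filter, mem_univ, true_and] at he₀ he₁ hmax hmin
    by_cases hpos : 0 ≤ g e₀
    · exact ⟨g e₀, max_principle h hr hlam hg he₀ hpos hmax⟩
    · push Not at hpos
      refine ⟨g e₁, fun e he => ?_⟩
      have h1 := max_principle (g := fun e => - g e) h hr hlam (fun e => by
        have h2 : gr 𝓑 (fun e => - g e) e = - gr 𝓑 g e := by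
          unfold gr
          rw [← sum_neg_distrib]
          apply sum_congr rfl
          intro B _
          rw [sum_neg_distrib]
          ring
        rw [h2, hg e]
        ring) he₁ (by have := hmin e₀ he₀; linarith) (fun e he => by
          have := hmin e he
          linarith) e he
      linarith
  · push Not at hne
    exact ⟨0, fun e he => absurd (hne e) he⟩

section operator

variable (𝓑 : Finset (Finset α)) (r : ℕ)

/-- the normalization -/
noncomputable def sd (e : α) : ℝ := Real.sqrt (dg 𝓑 e)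

/-- the normalized symmetric operator -/
noncomputable def op : EuclideanSpace ℝ α →ₗ[ℝ] EuclideanSpace ℝ α where
  toFun x := WithLp.toLp 2 fun e => (((r : ℝ) - 1) * sd 𝓑 e)⁻¹ * gr 𝓑 (fun f => x f / sd 𝓑 f) e
  map_add' x y := by
    ext e
    simp only [PiLp.add_apply]
    rw [← mul_add]
    congr 1
    unfold gr
    rw [← sum_add_distrib]
    apply sum_congr rfl
    intro B _
    have : ∀ f, (x f + y f) / sd 𝓑 f = x f / sd 𝓑 f + y f / sd 𝓑 f := fun f => add_div _ _ _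
    simp only [this, sum_add_distrib]
    ring
  map_smul' c x := by
    ext e
    simp only [PiLp.smul_apply, smul_eq_mul, RingHom.id_apply]
    have : ∀ f, c * x f / sd 𝓑 f = c * (x f / sd 𝓑 f) := fun f => by ring
    simp only [this]
    rw [mul_left_comm]
    congr 1
    unfold gr
    rw [mul_sum]
    apply sum_congr rfl
    intro B _
    rw [← mul_sum]
    ring

theorem op_apply (x : EuclideanSpace ℝ α) (e : α) :
    op 𝓑 r x e = (((r : ℝ) - 1) * sd 𝓑 e)⁻¹ * gr 𝓑 (fun f => x f / sd 𝓑 f) e := rfl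

theorem sd_eq_zero {e : α} : sd 𝓑 e = 0 ↔ dg 𝓑 e = 0 := Real.sqrt_eq_zero (dg_nonneg _ _)

theorem sd_sq (e : α) : sd 𝓑 e ^ 2 = dg 𝓑 e := Real.sq_sqrt (dg_nonneg _ _)

/-- values at loops do not matter -/
theorem gr_congr {g h : α → ℝ} (hgh : ∀ e, dg 𝓑 e ≠ 0 → g e = h e) (e : α) :
    gr 𝓑 g e = gr 𝓑 h e := by
  have hnl : ∀ B ∈ 𝓑, ∀ e ∈ B, dg 𝓑 e ≠ 0 := by
    intro B hB e he hd
    unfold dg at hd
    have h1 : (𝓑.filter fun B => e ∈ B) = ∅ := by
      rw [← card_eq_zero]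
      exact_mod_cast hd
    have h2 : B ∈ (𝓑.filter fun B => e ∈ B) := mem_filter.2 ⟨hB, he⟩
    rw [h1] at h2
    simp at h2
  unfold gr
  apply sum_congr rfl
  intro B hB
  rw [mem_filter] at hB
  rw [sum_congr rfl (fun f hf => hgh f (hnl B hB.1 f hf)), hgh e (hnl B hB.1 e hB.2)]

theorem Q_congr {g h : α → ℝ} (hgh : ∀ e, dg 𝓑 e ≠ 0 → g e = h e) : Q 𝓑 g = Q 𝓑 h := by
  have hnl : ∀ B ∈ 𝓑, ∀ e ∈ B, dg 𝓑 e ≠ 0 := by
    intro B hB e he hd
    unfold dg at hd
    have h1 : (𝓑.filter fun B => e ∈ B) = ∅ := by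
      rw [← card_eq_zero]
      exact_mod_cast hd
    have h2 : B ∈ (𝓑.filter fun B => e ∈ B) := mem_filter.2 ⟨hB, he⟩
    rw [h1] at h2
    simp at h2
  unfold Q
  apply sum_congr rfl
  intro B hB
  rw [sum_congr rfl (fun f hf => hgh f (hnl B hB f hf)),
    sum_congr rfl (fun f hf => by rw [hgh f (hnl B hB f hf)] : ∀ f ∈ B, g f ^ 2 = h f ^ 2)]

theorem inner_op (x y : EuclideanSpace ℝ α) :
    inner ℝ y (op 𝓑 r x) =
      ((r : ℝ) - 1)⁻¹ * ∑ e, (y e / sd 𝓑 e) * gr 𝓑 (fun f => x f / sd 𝓑 f) e := by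
  rw [PiLp.inner_apply, mul_sum]
  apply sum_congr rfl
  intro e _
  rw [op_apply]
  simp only [RCLike.inner_apply, conj_trivial]
  rw [mul_inv]
  ring

theorem op_symm : (op 𝓑 r).IsSymmetric := by
  intro x y
  rw [real_inner_comm, inner_op, inner_op, inner_gr_comm]

end operator

/-- The trickle-down step. -/
theorem neg_step {𝓑 : Finset (Finset α)} {r : ℕ} (h : Bases 𝓑 r) (hr : 3 ≤ r)
    (hlink : ∀ e, Neg (link 𝓑 e)) : Neg 𝓑 := by
  have hr2 : (0 : ℝ) < (r : ℝ) - 2 := by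
    have : (3 : ℝ) ≤ r := by exact_mod_cast hr
    linarith
  have hr1 : (0 : ℝ) < (r : ℝ) - 1 := by linarith
  obtain ⟨k, rfl⟩ : ∃ k, r = k + 1 := ⟨r - 1, by omega⟩
  -- the quadratic inequality
  have hquad : ∀ g : α → ℝ, Q 𝓑 g ≤ (((k + 1 : ℕ) : ℝ) - 1)⁻¹ * ∑ e, gr 𝓑 g e ^ 2 / dg 𝓑 e := by
    intro g
    have h1 : ∀ e, Q (link 𝓑 e) g ≤
        ((((k + 1 : ℕ) : ℝ) - 2) * (((k + 1 : ℕ) : ℝ) - 1)⁻¹) * (gr 𝓑 g e ^ 2 / dg 𝓑 e) := by
      intro e
      have h2 := Neg.general (r := k) (by omega) (h.link e).card (hlink e) g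
      rw [gr_link] at h2
      have hc : ((link 𝓑 e).card : ℝ) = dg 𝓑 e := by
        have := sum_link 𝓑 e (fun _ => (1 : ℝ))
        simpa [dg] using this
      rw [hc] at h2
      by_cases hd : dg 𝓑 e = 0
      · have h3 : link 𝓑 e = ∅ := by
          rw [← card_eq_zero]
          rw [hd] at hc
          exact_mod_cast hc
        rw [hd, div_zero, mul_zero, h3]
        simp [Q]
      · have hdpos : 0 < dg 𝓑 e := lt_of_le_of_ne (dg_nonneg _ _) (Ne.symm hd)
        push_cast at hr1 hr2 ⊢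
        have hk : (0 : ℝ) < k := by linarith
        have e1 : (k : ℝ) + 1 - 2 = k - 1 := by ring
        have e2 : (k : ℝ) + 1 - 1 = k := by ring
        rw [e1, e2]
        have h4 : (k : ℝ) * dg 𝓑 e * ((k - 1) * (k : ℝ)⁻¹ * (gr 𝓑 g e ^ 2 / dg 𝓑 e)) =
            (k - 1) * gr 𝓑 g e ^ 2 := by
          field_simp
        exact le_of_mul_le_mul_left (by rw [h4]; exact h2) (mul_pos hk hdpos)
    have h2 := sum_le_sum (fun e (_ : e ∈ (univ : Finset α)) => h1 e)
    rw [sum_Q_link h.card, ← mul_sum, mul_assoc] at h2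
    exact le_of_mul_le_mul_left h2 hr2
  set r := k + 1 with hrk
  -- spectral decomposition
  have hsymm := op_symm 𝓑 r
  set b := hsymm.eigenvectorBasis (n := Module.finrank ℝ (EuclideanSpace ℝ α)) rfl with hb
  set μ := hsymm.eigenvalues (n := Module.finrank ℝ (EuclideanSpace ℝ α)) rfl with hμ
  have hbμ : ∀ i, op 𝓑 r (b i) = μ i • b i := fun i => hsymm.apply_eigenvectorBasis rfl i
  have hself : ∀ x : EuclideanSpace ℝ α, inner ℝ x (op 𝓑 r x) =
      ((r : ℝ) - 1)⁻¹ * Q 𝓑 (fun f => x f / sd 𝓑 f) := by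
    intro x
    rw [inner_op, inner_gr_self]
  have hnormsq : ∀ x : EuclideanSpace ℝ α, inner ℝ (op 𝓑 r x) (op 𝓑 r x) =
      ((r : ℝ) - 1)⁻¹ ^ 2 * ∑ e, gr 𝓑 (fun f => x f / sd 𝓑 f) e ^ 2 / dg 𝓑 e := by
    intro x
    rw [PiLp.inner_apply, mul_sum]
    apply sum_congr rfl
    intro e _
    rw [op_apply]
    simp only [RCLike.inner_apply, conj_trivial]
    rw [mul_inv, ← sd_sq]
    by_cases h0 : sd 𝓑 e = 0
    · rw [h0]; simp
    · field_simp
  have hμ1 : ∀ i, μ i ≤ μ i ^ 2 := by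
    intro i
    have h1 := hquad (fun f => b i f / sd 𝓑 f)
    have h2 := hself (b i)
    have h3 := hnormsq (b i)
    rw [hbμ, inner_smul_right, real_inner_self_eq_norm_sq, b.orthonormal.1 i] at h2
    rw [hbμ, inner_smul_right, inner_smul_left, real_inner_self_eq_norm_sq,
      b.orthonormal.1 i] at h3
    simp only [one_pow, mul_one, conj_trivial] at h2 h3
    rw [pow_two (μ i), h3, h2, pow_two, mul_assoc]
    exact mul_le_mul_of_nonneg_left h1 (inv_nonneg.2 hr1.le)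
  -- eigenvectors for eigenvalues at least one
  have hbig : ∀ i, 1 ≤ μ i → ∃ c : ℝ, ∀ e, b i e = c * sd 𝓑 e := by
    intro i hi
    have h1 : ∀ e, gr 𝓑 (fun f => b i f / sd 𝓑 f) e =
        μ i * ((r : ℝ) - 1) * dg 𝓑 e * (b i e / sd 𝓑 e) := by
      intro e
      by_cases h0 : dg 𝓑 e = 0
      · rw [gr_zero_of_loop h0, h0]; ring
      · have h0' : sd 𝓑 e ≠ 0 := fun hh => h0 ((sd_eq_zero 𝓑).1 hh)
        have h2 := congrArg (fun v : EuclideanSpace ℝ α => v e) (hbμ i)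
        simp only [PiLp.smul_apply, smul_eq_mul] at h2
        rw [op_apply] at h2
        rw [← sd_sq]
        have hr1' := hr1.ne'
        field_simp at h2 ⊢
        linarith
    obtain ⟨c, hc⟩ := eig_const h (by omega) hi h1
    refine ⟨c, fun e => ?_⟩
    by_cases h0 : dg 𝓑 e = 0
    · have h0' : sd 𝓑 e = 0 := (sd_eq_zero 𝓑).2 h0
      have h2 := congrArg (fun v : EuclideanSpace ℝ α => v e) (hbμ i)
      simp only [PiLp.smul_apply, smul_eq_mul] at h2
      rw [op_apply, h0', mul_zero, inv_zero, zero_mul] at h2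
      have : μ i ≠ 0 := by linarith
      rw [h0', mul_zero]
      rcases mul_eq_zero.1 h2.symm with h3 | h3
      · exact absurd h3 this
      · exact h3
    · have h0' : sd 𝓑 e ≠ 0 := fun hh => h0 ((sd_eq_zero 𝓑).1 hh)
      have := hc e h0
      rw [← this]
      field_simp
  intro g hg
  set x : EuclideanSpace ℝ α := WithLp.toLp 2 fun e => sd 𝓑 e * g e with hx
  have hxg : ∀ e, dg 𝓑 e ≠ 0 → x e / sd 𝓑 e = g e := by
    intro e he
    have h0' : sd 𝓑 e ≠ 0 := fun hh => he ((sd_eq_zero 𝓑).1 hh)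
    rw [hx]
    simp only
    field_simp
  have horth : ∀ i, 0 < μ i → inner ℝ (b i) x = 0 := by
    intro i hi
    have h1 : 1 ≤ μ i := by
      have := hμ1 i
      nlinarith
    obtain ⟨c, hc⟩ := hbig i h1
    rw [PiLp.inner_apply]
    have h2 : ∀ e, inner ℝ (b i e) (x e) = c * (dg 𝓑 e * g e) := by
      intro e
      rw [hc e, hx, ← sd_sq]
      simp only [RCLike.inner_apply, conj_trivial]
      ring
    rw [sum_congr rfl (fun e _ => h2 e), ← mul_sum, sum_dg, hg, mul_zero]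
  have hfin : inner ℝ x (op 𝓑 r x) ≤ 0 := by
    rw [← b.sum_inner_mul_inner x (op 𝓑 r x)]
    apply sum_nonpos
    intro i _
    have h1 : inner ℝ (b i) (op 𝓑 r x) = μ i * inner ℝ (b i) x := by
      rw [← hsymm, hbμ, inner_smul_left]
      rfl
    have hcomm : inner ℝ x (b i) = inner ℝ (b i) x := real_inner_comm _ _
    rw [h1, hcomm]
    by_cases hi : 0 < μ i
    · rw [horth i hi]; simp
    · push Not at hi
      have : inner ℝ (b i) x * (μ i * inner ℝ (b i) x) = μ i * (inner ℝ (b i) x) ^ 2 := by ring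
      nlinarith [sq_nonneg (inner ℝ (b i) x)]
  rw [hself, Q_congr 𝓑 hxg] at hfin
  by_contra hcon
  push Not at hcon
  have := mul_pos (inv_pos.2 hr1) hcon
  linarith

/-- **The form of a matroid is nonpositive on centred vectors.** -/
theorem neg_all {r : ℕ} : ∀ {𝓑 : Finset (Finset α)}, Bases 𝓑 r → Neg 𝓑 := by
  induction r with
  | zero =>
    intro 𝓑 h g _
    unfold Q
    apply le_of_eq
    apply sum_eq_zero
    intro B hB
    rw [card_eq_zero.1 (h.card B hB)]
    simp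
  | succ k ih =>
    intro 𝓑 h
    rcases Nat.lt_or_ge k 2 with hk | hk
    · interval_cases k
      · intro g _
        unfold Q
        apply le_of_eq
        apply sum_eq_zero
        intro B hB
        obtain ⟨a, rfl⟩ := card_eq_one.1 (h.card B hB)
        simp
      · exact neg_two h
    · exact neg_step h (by omega) (fun e => ih (h.link e))

end Pool.Agent.TH703.SST
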