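import Pool.Agent.TH703.SST.Walk3

/-!
# The Poincaré inequality for the basis exchange graph
-/

set_option autoImplicit false
set_option linter.unusedSectionVars false

namespace Pool.Agent.TH703.SST

open Finset

variable {α : Type} [Fintype α] [DecidableEq α]

/-- the mean of a function on the bases -/
noncomputable def mn (𝓑 : Finset (Finset α)) (f : Finset α → ℝ) : ℝ :=
  (∑ B ∈ 𝓑, f B) / 𝓑.card

/-- the variance of a function on the bases, times the number of bases -/
noncomputable def W (𝓑 : Finset (Finset α)) (f : Finset α → ℝ) : ℝ :=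
  ∑ B ∈ 𝓑, (f B - mn 𝓑 f) ^ 2

/-- the energy of a function on the basis exchange graph -/
noncomputable def Ed (𝓑 : Finset (Finset α)) (f : Finset α → ℝ) : ℝ :=
  ∑ B ∈ 𝓑, ∑ C ∈ 𝓑.filter (fun C => (B \ C).card = 1), (f B - f C) ^ 2

theorem W_nonneg (𝓑 : Finset (Finset α)) (f : Finset α → ℝ) : 0 ≤ W 𝓑 f :=
  sum_nonneg fun _ _ => sq_nonneg _

theorem card_link (𝓑 : Finset (Finset α)) (e : α) : ((link 𝓑 e).card : ℝ) = dg 𝓑 e := by
  have := sum_link 𝓑 e (fun _ => (1 : ℝ))
  simpa [dg] using this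

theorem sum_sub_mn {𝓑 : Finset (Finset α)} (f : Finset α → ℝ) :
    ∑ B ∈ 𝓑, (f B - mn 𝓑 f) = 0 := by
  rcases 𝓑.eq_empty_or_nonempty with rfl | hne
  · simp
  · have : (𝓑.card : ℝ) ≠ 0 := by
      have := hne.card_pos
      exact_mod_cast this.ne'
    rw [sum_sub_distrib, sum_const, nsmul_eq_mul]
    unfold mn
    field_simp
    ring

theorem var_link {𝓑 : Finset (Finset α)} {r : ℕ} (h : Bases 𝓑 r) (f : Finset α → ℝ) :
    ((r : ℝ) - 1) * W 𝓑 f ≤ ∑ e, W (link 𝓑 e) (fun B => f (insert e B)) := by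
  set m := mn 𝓑 f with hm
  set φ : Finset α → ℝ := fun B => f B - m with hφ
  set g : α → ℝ := fun e => (∑ B ∈ 𝓑.filter (fun B => e ∈ B), φ B) / dg 𝓑 e with hg
  have hdg : ∀ e, dg 𝓑 e * g e = ∑ B ∈ 𝓑.filter (fun B => e ∈ B), φ B := by
    intro e
    by_cases h0 : dg 𝓑 e = 0
    · have h1 : (𝓑.filter fun B => e ∈ B) = ∅ := by
        rw [← card_eq_zero]
        unfold dg at h0
        exact_mod_cast h0
      rw [h0, h1]; simp
    · rw [hg]
      simp only
      field_simp
  set X := ∑ e, dg 𝓑 e * g e ^ 2 with hX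
  -- the variances of the links
  have h1 : ∀ e, W (link 𝓑 e) (fun B => f (insert e B)) =
      ∑ B ∈ 𝓑.filter (fun B => e ∈ B), φ B ^ 2 - dg 𝓑 e * g e ^ 2 := by
    intro e
    have e1 : ∀ B ∈ 𝓑.filter (fun B => e ∈ B), f (insert e (B.erase e)) = f B := by
      intro B hB
      rw [mem_filter] at hB
      rw [insert_erase hB.2]
    have e2 : mn (link 𝓑 e) (fun B => f (insert e B)) =
        (∑ B ∈ 𝓑.filter (fun B => e ∈ B), f B) / dg 𝓑 e := by
      unfold mn
      rw [card_link, sum_link, sum_congr rfl e1]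
    unfold W
    rw [sum_link]
    by_cases h0 : dg 𝓑 e = 0
    · have h1 : (𝓑.filter fun B => e ∈ B) = ∅ := by
        rw [← card_eq_zero]
        unfold dg at h0
        exact_mod_cast h0
      rw [h0, h1]; simp
    · have e3 : mn (link 𝓑 e) (fun B => f (insert e B)) = g e + m := by
        rw [e2, hg]
        simp only [hφ]
        rw [sum_sub_distrib, sum_const, nsmul_eq_mul]
        change _ = (_ - dg 𝓑 e * m) / _ + m
        field_simp
        ring
      rw [e3]
      have e4 : ∀ B ∈ 𝓑.filter (fun B => e ∈ B), (f (insert e (B.erase e)) - (g e + m)) ^ 2 =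
          φ B ^ 2 - 2 * g e * φ B + g e ^ 2 := by
        intro B hB
        rw [e1 B hB, hφ]
        simp only
        ring
      rw [sum_congr rfl e4, sum_add_distrib, sum_sub_distrib, ← mul_sum, ← hdg, sum_const,
        nsmul_eq_mul]
      change _ - _ + dg 𝓑 e * g e ^ 2 = _
      ring
  have h2 : ∑ e, W (link 𝓑 e) (fun B => f (insert e B)) = r * W 𝓑 f - X := by
    rw [sum_congr rfl (fun e _ => h1 e), sum_sub_distrib, sum_swap 𝓑 (fun _ B => φ B ^ 2)]
    congr 1
    unfold W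
    rw [mul_sum]
    apply sum_congr rfl
    intro B hB
    rw [sum_const, h.card B hB, nsmul_eq_mul]
  -- duality
  have h3 : X = ∑ B ∈ 𝓑, φ B * ∑ e ∈ B, g e := by
    rw [hX]
    have e1 : ∀ e, dg 𝓑 e * g e ^ 2 = ∑ B ∈ 𝓑.filter (fun B => e ∈ B), φ B * g e := by
      intro e
      rw [← sum_mul, ← hdg]
      ring
    rw [sum_congr rfl (fun e _ => e1 e), sum_swap 𝓑 (fun e B => φ B * g e)]
    apply sum_congr rfl
    intro B _
    rw [mul_sum]
  have h4 : ∑ B ∈ 𝓑, ∑ e ∈ B, g e = 0 := by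
    rw [← sum_dg, sum_congr rfl (fun e _ => hdg e), sum_swap 𝓑 (fun _ B => φ B)]
    have e1 : ∀ B ∈ 𝓑, ∑ _e ∈ B, φ B = r * φ B := by
      intro B hB
      rw [sum_const, h.card B hB, nsmul_eq_mul]
    rw [sum_congr rfl e1, ← mul_sum, sum_sub_mn, mul_zero]
  have h5 : ∑ B ∈ 𝓑, (∑ e ∈ B, g e) ^ 2 ≤ X := by
    have e1 := neg_all h g h4
    unfold Q at e1
    rw [sum_sub_distrib, ← sum_dg] at e1
    linarith
  have h6 : X ^ 2 ≤ W 𝓑 f * X := by
    calc X ^ 2 = (∑ B ∈ 𝓑, φ B * ∑ e ∈ B, g e) ^ 2 := by rw [← h3]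
      _ ≤ (∑ B ∈ 𝓑, φ B ^ 2) * ∑ B ∈ 𝓑, (∑ e ∈ B, g e) ^ 2 := sum_mul_sq_le_sq_mul_sq _ _ _
      _ ≤ W 𝓑 f * X := mul_le_mul_of_nonneg_left h5 (W_nonneg _ _)
  have h7 : X ≤ W 𝓑 f := by
    have hX0 : 0 ≤ X := sum_nonneg fun e _ => mul_nonneg (dg_nonneg _ _) (sq_nonneg _)
    rcases hX0.eq_or_lt with h0 | h0
    · rw [← h0]; exact W_nonneg _ _
    · rw [pow_two] at h6
      exact le_of_mul_le_mul_right h6 h0
  rw [h2]
  linarith

theorem sum_sum_sq (𝓑 : Finset (Finset α)) (f : Finset α → ℝ) :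
    ∑ B ∈ 𝓑, ∑ C ∈ 𝓑, (f B - f C) ^ 2 = 2 * 𝓑.card * W 𝓑 f := by
  set m := mn 𝓑 f with hm
  have h0 := sum_sub_mn (𝓑 := 𝓑) f
  rw [← hm] at h0
  have e1 : ∀ B ∈ 𝓑, ∑ C ∈ 𝓑, (f B - f C) ^ 2 = 𝓑.card * (f B - m) ^ 2 + W 𝓑 f := by
    intro B _
    have e2 : ∀ C ∈ 𝓑, (f B - f C) ^ 2 =
        (f B - m) ^ 2 - 2 * (f B - m) * (f C - m) + (f C - m) ^ 2 := fun C _ => by ring
    rw [sum_congr rfl e2, sum_add_distrib, sum_sub_distrib, ← mul_sum, h0, sum_const, nsmul_eq_mul]
    unfold W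
    rw [← hm]
    ring
  rw [sum_congr rfl e1, sum_add_distrib, ← mul_sum, sum_const, nsmul_eq_mul]
  unfold W
  rw [← hm]
  ring

theorem sum_Ed_link {𝓑 : Finset (Finset α)} {r : ℕ} (h : Bases 𝓑 (r + 1)) (f : Finset α → ℝ) :
    ∑ e, Ed (link 𝓑 e) (fun B => f (insert e B)) = r * Ed 𝓑 f := by
  have h1 : ∀ e, Ed (link 𝓑 e) (fun B => f (insert e B)) =
      ∑ B ∈ 𝓑.filter (fun B => e ∈ B), ∑ C ∈ 𝓑.filter (fun C => (B \ C).card = 1),
        if e ∈ C then (f B - f C) ^ 2 else 0 := by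
    intro e
    unfold Ed
    rw [sum_link]
    apply sum_congr rfl
    intro B hB
    rw [mem_filter] at hB
    rw [sum_filter, sum_link, ← sum_filter, ← sum_filter, filter_filter, filter_filter]
    simp only [insert_erase hB.2]
    have e1 : (𝓑.filter fun C => e ∈ C ∧ (B.erase e \ C.erase e).card = 1) =
        𝓑.filter fun C => (B \ C).card = 1 ∧ e ∈ C := by
      apply filter_congr
      intro C _
      constructor
      · rintro ⟨h1, h2⟩
        refine ⟨?_, h1⟩
        rw [← h2]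
        congr 1
        ext x
        simp only [mem_sdiff, mem_erase]
        constructor
        · rintro ⟨h3, h4⟩
          have : x ≠ e := by rintro rfl; exact h4 h1
          exact ⟨⟨this, h3⟩, fun hh => h4 hh.2⟩
        · rintro ⟨⟨h3, h4⟩, h5⟩
          exact ⟨h4, fun hh => h5 ⟨h3, hh⟩⟩
      · rintro ⟨h2, h1⟩
        refine ⟨h1, ?_⟩
        rw [← h2]
        congr 1
        ext x
        simp only [mem_sdiff, mem_erase]
        constructor
        · rintro ⟨⟨h3, h4⟩, h5⟩
          exact ⟨h4, fun hh => h5 ⟨h3, hh⟩⟩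
        · rintro ⟨h3, h4⟩
          have : x ≠ e := by rintro rfl; exact h4 h1
          exact ⟨⟨this, h3⟩, fun hh => h4 hh.2⟩
    rw [e1]
    apply sum_congr rfl
    intro C hC
    rw [mem_filter] at hC
    rw [insert_erase hC.2.2]
  rw [sum_congr rfl (fun e _ => h1 e),
    sum_swap 𝓑 (fun e B => ∑ C ∈ 𝓑.filter (fun C => (B \ C).card = 1),
        if e ∈ C then (f B - f C) ^ 2 else 0)]
  unfold Ed
  rw [mul_sum]
  apply sum_congr rfl
  intro B hB
  rw [sum_comm, mul_sum]
  apply sum_congr rfl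
  intro C hC
  rw [mem_filter] at hC
  rw [← sum_filter, sum_const, nsmul_eq_mul]
  congr 1
  have h2 : (B.filter fun e => e ∈ C) = B ∩ C := by
    ext x; simp
  rw [h2]
  have h3 := card_sdiff_add_card_inter B C
  rw [hC.2, h.card B hB] at h3
  have : (B ∩ C).card = r := by omega
  rw [this]

/-- **The Poincaré inequality for the basis exchange graph**: its Laplacian has gap at least two. -/
theorem poincare {r : ℕ} : ∀ {𝓑 : Finset (Finset α)}, Bases 𝓑 r → ∀ f : Finset α → ℝ,
    4 * W 𝓑 f ≤ Ed 𝓑 f := by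
  induction r with
  | zero =>
    intro 𝓑 h f
    have h1 : ∀ B ∈ 𝓑, ∀ C ∈ 𝓑, f B - f C = 0 := by
      intro B hB C hC
      rw [card_eq_zero.1 (h.card B hB), card_eq_zero.1 (h.card C hC), sub_self]
    have h2 := sum_sum_sq 𝓑 f
    have h3 : ∑ B ∈ 𝓑, ∑ C ∈ 𝓑, (f B - f C) ^ 2 = 0 :=
      sum_eq_zero fun B hB => sum_eq_zero fun C hC => by rw [h1 B hB C hC]; ring
    have h4 : 0 ≤ Ed 𝓑 f := sum_nonneg fun _ _ => sum_nonneg fun _ _ => sq_nonneg _
    rcases 𝓑.eq_empty_or_nonempty with rfl | hne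
    · simp [W, Ed]
    · have hN : (0 : ℝ) < 𝓑.card := by exact_mod_cast hne.card_pos
      rw [h3] at h2
      have : W 𝓑 f = 0 := by
        rcases mul_eq_zero.1 h2.symm with h5 | h5
        · have : (2 : ℝ) * 𝓑.card ≠ 0 := by
            have := mul_pos (by norm_num : (0 : ℝ) < 2) hN
            exact this.ne'
          exact absurd h5 this
        · exact h5
      rw [this]; linarith
  | succ r ih =>
    intro 𝓑 h f
    rcases Nat.eq_zero_or_pos r with hr | hr
    · subst hr
      have h1 : Ed 𝓑 f = 2 * 𝓑.card * W 𝓑 f := by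
        rw [← sum_sum_sq]
        unfold Ed
        apply sum_congr rfl
        intro B hB
        rw [sum_filter]
        apply sum_congr rfl
        intro C hC
        split_ifs with h2
        · rfl
        · have : B = C := by
            obtain ⟨a, rfl⟩ := card_eq_one.1 (h.card B hB)
            obtain ⟨b, rfl⟩ := card_eq_one.1 (h.card C hC)
            by_contra hne
            apply h2
            have hab : a ≠ b := fun hh => hne (by rw [hh])
            have : ({a} : Finset α) \ {b} = {a} := by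
              ext x
              simp only [mem_sdiff, mem_singleton]
              exact ⟨fun hh => hh.1, fun hh => ⟨hh, fun hh2 => hab (hh.symm.trans hh2)⟩⟩
            rw [this, card_singleton]
          rw [this]; ring
      rw [h1]
      rcases Nat.lt_or_ge 𝓑.card 2 with h2 | h2
      · have h3 : W 𝓑 f = 0 := by
          rcases 𝓑.eq_empty_or_nonempty with rfl | hne
          · simp [W]
          · have h4 : 𝓑.card = 1 := by
              have := hne.card_pos
              omega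
            obtain ⟨B, rfl⟩ := card_eq_one.1 h4
            simp [W, mn]
        rw [h3]; simp
      · have h3 : (2 : ℝ) ≤ 𝓑.card := by exact_mod_cast h2
        nlinarith [W_nonneg 𝓑 f]
    · have h1 := var_link h f
      have h2 : ∑ e, 4 * W (link 𝓑 e) (fun B => f (insert e B)) ≤
          ∑ e, Ed (link 𝓑 e) (fun B => f (insert e B)) :=
        sum_le_sum fun e _ => ih (h.link e) _
      rw [sum_Ed_link h, ← mul_sum] at h2
      push_cast at h1
      have hr' : (0 : ℝ) < r := by exact_mod_cast hr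
      have h3 : (r : ℝ) * (4 * W 𝓑 f) ≤ r * Ed 𝓑 f := by nlinarith
      exact le_of_mul_le_mul_left h3 hr'

end Pool.Agent.TH703.SST
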